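import Mathlib
import Pool.Agent.TH42.LD.C

/-!
# Lang's inequality for the numbers `(a + b ξ) / d`: one `b` and one `d`
-/

set_option autoImplicit false

namespace Pool.Agent.H160L

open Finset Filter
open Pool.Agent.TH42.LD

theorem alg_count' (ξ : ℝ) (τ c : ℝ) (hτ : 0 < τ) (hc : 0 < c)
    (hroth : ∀ q : ℕ, 1 ≤ q → ∀ p : ℤ, c ≤ (q : ℝ) ^ (1 + τ) * |q * ξ - p|)
    (n : ℕ) (hn : 1 ≤ n) (δ : ℝ) (hδ : 0 ≤ δ) (S : Finset (ℕ × ℤ))
    (hS : ∀ z ∈ S, z.1 ≤ n ∧ |(z.1 : ℝ) * ξ - z.2| ≤ δ) :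
    (S.card : ℝ) ≤ 8 * n * δ + 4 * (c ^ (1 / (1 + τ)))⁻¹ * (n : ℝ) ^ τ := by
  set s : ℝ := 1 / (1 + τ) with hs
  have hs0 : 0 < s := by rw [hs]; positivity
  have hn1 : (1 : ℝ) ≤ n := by exact_mod_cast hn
  have hn0 : (0 : ℝ) < n := by linarith
  obtain ⟨W, hW1, hWn, ⟨l, hl⟩, hsep⟩ := first_small ξ n hn
  have hW0 : (0 : ℝ) < W := by exact_mod_cast hW1
  refine (lattice_count ξ n W hW1 hWn hsep δ hδ S hS).trans ?_
  have h1 := hroth W hW1 l
  have h2 : c * n ≤ (W : ℝ) ^ (1 + τ) := by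
    have h3 : (W : ℝ) ^ (1 + τ) * |(W : ℝ) * ξ - l| ≤ (W : ℝ) ^ (1 + τ) * (1 / n) :=
      mul_le_mul_of_nonneg_left hl.le (by positivity)
    have h4 := h1.trans h3
    rw [mul_one_div, le_div_iff₀ hn0] at h4
    exact h4
  have h3 : (c * n) ^ s ≤ W := by
    calc (c * n) ^ s ≤ ((W : ℝ) ^ (1 + τ)) ^ s := Real.rpow_le_rpow (by positivity) h2 hs0.le
      _ = W := by
        rw [← Real.rpow_mul hW0.le, hs, mul_one_div, div_self (by positivity), Real.rpow_one]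
  rw [Real.mul_rpow hc.le hn0.le] at h3
  have h4 : (n : ℝ) / W ≤ (c ^ s)⁻¹ * (n : ℝ) ^ τ := by
    have hcs : 0 < c ^ s := by positivity
    have hns : 0 < (n : ℝ) ^ s := by positivity
    have h5 : (n : ℝ) / W ≤ n / (c ^ s * (n : ℝ) ^ s) :=
      div_le_div_of_nonneg_left hn0.le (by positivity) h3
    have h6 : (n : ℝ) / (c ^ s * (n : ℝ) ^ s) = (c ^ s)⁻¹ * (n : ℝ) ^ (1 - s) := by
      rw [Real.rpow_sub hn0, Real.rpow_one]
      field_simp
    have h7 : (n : ℝ) ^ (1 - s) ≤ (n : ℝ) ^ τ := by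
      apply Real.rpow_le_rpow_of_exponent_le hn1
      rw [hs, sub_le_iff_le_add, ← sub_le_iff_le_add', le_div_iff₀ (by positivity)]
      nlinarith
    rw [h6] at h5
    exact h5.trans (mul_le_mul_of_nonneg_left h7 (by positivity))
  linarith

open Classical in
/-- the count for one `θ` and one denominator `N` -/
theorem one_mod (θ τ c0 C : ℝ) (hτ : 0 < τ) (hc0 : 0 < c0) (hC : 0 < C)
    (hr : ∀ q : ℕ, 1 ≤ q → ∀ p : ℤ, c0 ≤ (q : ℝ) ^ (1 + τ) * |q * θ - p|)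
    (hcount : ∀ n : ℕ, 1 ≤ n → ∀ δ : ℝ, 0 ≤ δ → ∀ S : Finset (ℕ × ℤ),
      (∀ z ∈ S, z.1 ≤ n ∧ |(z.1 : ℝ) * θ - z.2| ≤ δ) →
      (S.card : ℝ) ≤ 8 * n * δ + C * (n : ℝ) ^ τ)
    (ε c : ℝ) (hε : 0 < ε) (hc : 0 < c) (hc1 : c ≤ Real.log 2 ^ (1 + ε))
    (N : ℕ) (hN : 1 ≤ N) (M : ℕ) (hM : M ≠ 0) :
    (((range N).filter (fun b : ℕ => ∃ (p : ℤ) (q : ℕ), 2 ≤ q ∧ q ≤ M ∧
      |(θ + b) / N - (p : ℝ) / q| ≤ c / ((q : ℝ) ^ 2 * Real.log q ^ (1 + ε)))).card : ℝ) ≤
      32 * c * (∑' n : ℕ, 1 / ((n : ℝ) * Real.log 2) ^ (1 + ε)) * (∑ g ∈ N.divisors, (g : ℝ)) +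
      (Nat.log 2 M : ℝ) * (N.divisors.card *
        (C * Real.sqrt (4 / c0) * (2 * (M : ℝ)) ^ (2 * τ) * Real.sqrt N)) := by
  have hlog2 : 0 < Real.log 2 := Real.log_pos (by norm_num)
  set J : ℕ := Nat.log 2 M with hJ
  set Ex : ℕ → Finset ℕ := fun j => (range N).filter (fun b : ℕ => ∃ (p : ℤ) (q : ℕ),
    2 ^ j ≤ q ∧ q < 2 * 2 ^ j ∧ |(θ + b) / N - (p : ℝ) / q| ≤
      c / (((2 ^ j : ℕ) : ℝ) ^ 2 * ((j : ℝ) * Real.log 2) ^ (1 + ε))) with hEx
  have hsub : (range N).filter (fun b : ℕ => ∃ (p : ℤ) (q : ℕ), 2 ≤ q ∧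
      q ≤ M ∧ |(θ + b) / N - (p : ℝ) / q| ≤
        c / ((q : ℝ) ^ 2 * Real.log q ^ (1 + ε))) ⊆ (Icc 1 J).biUnion Ex := by
    intro b hb
    rw [mem_filter] at hb
    obtain ⟨hbN, p, q, hq2, hqκ, hle⟩ := hb
    rw [mem_biUnion]
    have hq0 : q ≠ 0 := by omega
    refine ⟨Nat.log 2 q, ?_, ?_⟩
    · rw [mem_Icc]
      refine ⟨Nat.log_pos (by norm_num) hq2, Nat.log_mono_right hqκ⟩
    · simp only [hEx]
      rw [mem_filter]
      refine ⟨hbN, p, q, Nat.pow_log_le_self 2 hq0, ?_, hle.trans ?_⟩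
      · have := Nat.lt_pow_succ_log_self (b := 2) (by norm_num) q
        rw [pow_succ] at this
        omega
      · have h1 : ((2 ^ (Nat.log 2 q) : ℕ) : ℝ) ≤ q := by
          exact_mod_cast Nat.pow_log_le_self 2 hq0
        have h2 : ((Nat.log 2 q : ℕ) : ℝ) * Real.log 2 ≤ Real.log q := by
          rw [← Real.log_pow]
          apply Real.log_le_log (by positivity)
          push_cast at h1
          exact h1
        have h3 : 1 ≤ Nat.log 2 q := Nat.log_pos (by norm_num) hq2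
        have h4 : (0 : ℝ) < (Nat.log 2 q : ℕ) := by exact_mod_cast h3
        apply div_le_div_of_nonneg_left hc.le (by positivity)
        refine mul_le_mul (pow_le_pow_left₀ (by positivity) h1 2) ?_ (by positivity)
          (by positivity)
        exact Real.rpow_le_rpow (by positivity) h2 (by linarith)
  have hEj : ∀ j ∈ Icc 1 J, ((Ex j).card : ℝ) ≤
      32 * c * (1 / ((j : ℝ) * Real.log 2) ^ (1 + ε)) * (∑ g ∈ N.divisors, (g : ℝ)) +
        N.divisors.card * (C * Real.sqrt (4 / c0) * (2 * (M : ℝ)) ^ (2 * τ) * Real.sqrt N) := by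
    intro j hj
    rw [mem_Icc] at hj
    have hj0 : (0 : ℝ) < j := by exact_mod_cast hj.1
    have hj1 : (1 : ℝ) ≤ j := by exact_mod_cast hj.1
    set L : ℝ := ((j : ℝ) * Real.log 2) ^ (1 + ε) with hL
    have hL0 : 0 < L := by rw [hL]; positivity
    have hLc : c ≤ L := by
      refine hc1.trans (Real.rpow_le_rpow hlog2.le ?_ (by linarith))
      nlinarith
    have hQ0 : (0 : ℝ) < ((2 ^ j : ℕ) : ℝ) := by positivity
    set β : ℝ := c / (((2 ^ j : ℕ) : ℝ) ^ 2 * L) with hβ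
    have hβ0 : 0 ≤ β := by rw [hβ]; positivity
    have hβ1 : β ≤ 1 / ((2 ^ j : ℕ) : ℝ) ^ 2 := by
      rw [hβ, div_le_div_iff₀ (by positivity) (by positivity)]
      have : 0 ≤ ((2 ^ j : ℕ) : ℝ) ^ 2 := by positivity
      nlinarith
    have h1 := scale θ τ c0 C hτ hc0 hC hr hcount N (2 ^ j) (by omega) Nat.one_le_two_pow β hβ0 hβ1
      (Ex j) (by
        intro b hb
        simp only [hEx] at hb
        rw [mem_filter, mem_range] at hb
        exact hb)
    refine h1.trans (add_le_add (le_of_eq ?_) ?_)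
    · rw [hβ]
      field_simp
    · have h3 : (2 * ((2 ^ j : ℕ) : ℝ)) ^ (2 * τ) ≤ (2 * (M : ℝ)) ^ (2 * τ) := by
        apply Real.rpow_le_rpow (by positivity) _ (by positivity)
        have h4 : 2 ^ j ≤ M := (Nat.pow_le_pow_right (by norm_num) hj.2).trans
          (Nat.pow_log_le_self 2 hM)
        have h5 : ((2 ^ j : ℕ) : ℝ) ≤ (M : ℝ) := by exact_mod_cast h4
        linarith
      apply mul_le_mul_of_nonneg_left _ (Nat.cast_nonneg _)
      apply mul_le_mul_of_nonneg_right _ (Real.sqrt_nonneg _)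
      exact mul_le_mul_of_nonneg_left h3 (by positivity)
  set σ : ℝ := ∑ g ∈ N.divisors, (g : ℝ) with hσ
  have hσ0 : 0 ≤ σ := by rw [hσ]; positivity
  have hcard : ((((range N).filter (fun b : ℕ => ∃ (p : ℤ) (q : ℕ), 2 ≤ q ∧
      q ≤ M ∧ |(θ + b) / N - (p : ℝ) / q| ≤
        c / ((q : ℝ) ^ 2 * Real.log q ^ (1 + ε)))).card : ℕ) : ℝ) ≤
      ∑ j ∈ Icc 1 J, ((Ex j).card : ℝ) := by
    exact_mod_cast (Finset.card_le_card hsub).trans Finset.card_biUnion_le
  refine hcard.trans ((Finset.sum_le_sum hEj).trans ?_)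
  rw [Finset.sum_add_distrib, ← Finset.sum_mul, ← Finset.mul_sum, Finset.sum_const, nsmul_eq_mul,
    Nat.card_Icc, Nat.add_sub_cancel]
  have hZ : ∑ j ∈ Icc 1 J, 1 / ((j : ℝ) * Real.log 2) ^ (1 + ε) ≤
      ∑' n : ℕ, 1 / ((n : ℝ) * Real.log 2) ^ (1 + ε) :=
    (tail_summable ε hε).sum_le_tsum _ (fun n _ => by positivity)
  have hmain : 32 * c * (∑ j ∈ Icc 1 J, 1 / ((j : ℝ) * Real.log 2) ^ (1 + ε)) * σ ≤
      32 * c * (∑' n : ℕ, 1 / ((n : ℝ) * Real.log 2) ^ (1 + ε)) * σ := by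
    refine mul_le_mul_of_nonneg_right ?_ hσ0
    exact mul_le_mul_of_nonneg_left hZ (by positivity)
  linarith

/-- from one residue system to the interval `[-H, H]` -/
theorem box_mod (Bad : ℤ → Prop) (N H : ℕ) (hN : 1 ≤ N) (hNH : N ≤ H)
    (hper : ∀ a k : ℤ, Bad (a + k * N) → Bad a) [DecidablePred Bad] :
    (((Icc (-(H : ℤ)) H).filter Bad).card : ℝ) ≤
      4 * H / N * (((range N).filter (fun a : ℕ => Bad a)).card : ℝ) := by
  have hN0 : (0 : ℤ) < N := by exact_mod_cast hN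
  have hNR : (0 : ℝ) < N := by exact_mod_cast hN
  set n : ℕ := ((H : ℤ) / N - (-(H : ℤ)) / N + 1).toNat with hn
  have h1 := Finset.card_le_mul_card_image_of_maps_to (s := (Icc (-(H : ℤ)) H).filter Bad)
    (t := (range N).filter (fun a : ℕ => Bad a)) (f := fun a : ℤ => (a % N).toNat) (by
      intro a ha
      have ha2 := (mem_filter.1 ha).2
      have h2 := Int.emod_nonneg a hN0.ne'
      have h3 := Int.emod_lt_of_pos a hN0
      rw [mem_filter, mem_range]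
      refine ⟨by omega, ?_⟩
      have h4 : (((a % N).toNat : ℕ) : ℤ) = a % N := Int.toNat_of_nonneg h2
      rw [h4]
      apply hper _ (a / N)
      have h5 : a % N + a / N * N = a := Int.emod_add_ediv_mul a N
      rw [h5]
      exact ha2) n (by
      intro r hr
      have h2 := Finset.card_le_card_of_injOn
        (s := ((Icc (-(H : ℤ)) H).filter Bad).filter (fun a : ℤ => (a % N).toNat = r))
        (t := Icc ((-(H : ℤ)) / N) ((H : ℤ) / N)) (fun a => a / N) (by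
          intro a ha
          have ha1 := mem_Icc.1 (mem_filter.1 (mem_filter.1 ha).1).1
          rw [Finset.mem_coe, mem_Icc]
          exact ⟨Int.ediv_le_ediv hN0 ha1.1, Int.ediv_le_ediv hN0 ha1.2⟩) (by
          intro a ha a' ha' h
          have ha1 := (mem_filter.1 ha).2
          have ha1' := (mem_filter.1 ha').2
          have h3 := Int.emod_nonneg a hN0.ne'
          have h3' := Int.emod_nonneg a' hN0.ne'
          have h4 : a % N = a' % N := by
            have : (a % N).toNat = (a' % N).toNat := by rw [ha1, ha1']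
            omega
          have h5 : a % N + a / N * N = a := Int.emod_add_ediv_mul a N
          have h6 : a' % N + a' / N * N = a' := Int.emod_add_ediv_mul a' N
          simp only at h
          rw [← h5, ← h6, h4, h])
      refine h2.trans ?_
      rw [Int.card_Icc, hn]
      apply Int.toNat_le_toNat
      linarith)
  have h2 : (n : ℝ) ≤ 4 * H / N := by
    have e1 : ((H : ℤ) / N : ℤ) * (N : ℤ) ≤ H := Int.ediv_mul_le _ hN0.ne'
    have e2 : (-(H : ℤ)) < ((-(H : ℤ)) / N + 1) * (N : ℤ) := Int.lt_ediv_add_one_mul_self _ hN0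
    have e3 : (-(H : ℤ)) / N ≤ (H : ℤ) / N := Int.ediv_le_ediv hN0 (by omega)
    have e4 : ((n : ℕ) : ℤ) = (H : ℤ) / N - (-(H : ℤ)) / N + 1 := by
      rw [hn, Int.toNat_of_nonneg (by omega)]
    have e5 : ((n : ℕ) : ℤ) * N ≤ 4 * H := by
      rw [e4]
      have : (N : ℤ) ≤ H := by exact_mod_cast hNH
      nlinarith
    rw [le_div_iff₀ hNR]
    exact_mod_cast e5
  calc (((Icc (-(H : ℤ)) H).filter Bad).card : ℝ)
      ≤ ((n * ((range N).filter (fun a : ℕ => Bad a)).card : ℕ) : ℝ) := by exact_mod_cast h1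
    _ = (n : ℝ) * (((range N).filter (fun a : ℕ => Bad a)).card : ℝ) := by push_cast; ring
    _ ≤ _ := mul_le_mul_of_nonneg_right h2 (Nat.cast_nonneg _)

end Pool.Agent.H160L
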