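import Mathlib
import Pool.Agent.H160L.AffA

/-!
# Lang's inequality for the numbers `(a + b ξ) / d`: exceptional `b`
-/

set_option autoImplicit false

namespace Pool.Agent.H160L

open Finset Filter
open Pool.Agent.TH42.LD

theorem exc_b (ξ : ℝ)
    (hroth : ∀ τ : ℝ, 0 < τ → ∃ c : ℝ, 0 < c ∧ ∀ q : ℕ, 1 ≤ q → ∀ p : ℤ,
      c ≤ (q : ℝ) ^ (1 + τ) * |q * ξ - p|)
    (κ η : ℝ) (hκ : 0 < κ) (hη : 0 < η) :
    ∀ᶠ H : ℕ in atTop, ∀ S : Finset ℕ, (∀ b ∈ S, 1 ≤ b ∧ b ≤ H ∧ ∃ (q : ℕ) (p : ℤ), 1 ≤ q ∧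
      (q : ℝ) ≤ (H : ℝ) ^ κ ∧ (q : ℝ) * |q * (b * ξ) - p| < 1 / (H : ℝ) ^ (1 / 64 : ℝ)) →
      (S.card : ℝ) ≤ η * H := by
  classical
  set κ2 : ℝ := κ + 1 with hκ2
  have hκ20 : 0 < κ2 := by linarith
  set τ3 : ℝ := 1 / (2 * κ2) with hτ3
  have hτ30 : 0 < τ3 := by positivity
  have hτ31 : τ3 ≤ 1 := by
    rw [hτ3, div_le_one (by positivity)]
    linarith
  obtain ⟨c3, hc3, hr3⟩ := hroth τ3 hτ30
  set C3 : ℝ := 4 * (c3 ^ (1 / (1 + τ3)))⁻¹ with hC3
  have hC30 : 0 < C3 := by positivity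
  set ρ : ℝ := 1 / (256 * κ2) with hρ
  have hρ0 : 0 < ρ := by positivity
  obtain ⟨Cd, hCd0, hCd⟩ := Pool.Agent.TH42.LA.divisor_bound ρ hρ0
  set K6 : ℝ := (512 * κ2 + 1) * (16 + 2 * C3) * Cd with hK6
  have hK60 : 0 < K6 := by positivity
  filter_upwards [Pool.Agent.TH42.LA.const_le_rpow (1 / 256) (K6 / η) (by norm_num),
    eventually_ge_atTop 1] with H hH1 hH2 S hS
  have hH : (1 : ℝ) ≤ H := by exact_mod_cast hH2
  have hH0 : (0 : ℝ) < H := by linarith
  set R : ℝ := (H : ℝ) ^ (1 / 256 : ℝ) with hR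
  have hR1 : 1 ≤ R := Real.one_le_rpow hH (by norm_num)
  have hP : (H : ℝ) ^ (1 / 64 : ℝ) = R ^ 4 := by
    rw [hR, ← Real.rpow_natCast, ← Real.rpow_mul hH0.le]
    norm_num
  rw [hP] at hS
  set M : ℕ := ⌊(H : ℝ) ^ κ2⌋₊ with hM
  have hMle : (M : ℝ) ≤ (H : ℝ) ^ κ2 := Nat.floor_le (by positivity)
  have hM1 : 1 ≤ M := Nat.le_floor (by simpa using Real.one_le_rpow hH hκ20.le)
  set NN : Finset ℕ := (Icc 1 M).filter (fun n => ∃ p : ℤ, |(n : ℝ) * ξ - p| * n < H / R ^ 4)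
    with hNN
  have hsub : S ⊆ NN.biUnion Nat.divisors := by
    intro b hb
    obtain ⟨hb1, hbH, q, p, hq1, hqκ, hlt⟩ := hS b hb
    have hbR : (1 : ℝ) ≤ b := by exact_mod_cast hb1
    have hbH' : (b : ℝ) ≤ H := by exact_mod_cast hbH
    have hqR : (1 : ℝ) ≤ q := by exact_mod_cast hq1
    rw [mem_biUnion]
    refine ⟨q * b, ?_, ?_⟩
    · rw [hNN, mem_filter, mem_Icc]
      refine ⟨⟨Nat.mul_pos hq1 hb1, Nat.le_floor ?_⟩, p, ?_⟩
      · push_cast
        rw [hκ2, Real.rpow_add hH0, Real.rpow_one]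
        exact mul_le_mul hqκ hbH' (by linarith) (by positivity)
      · push_cast
        have e1 : (q : ℝ) * b * ξ - p = q * (b * ξ) - p := by ring
        rw [e1]
        have e2 : |(q : ℝ) * (b * ξ) - p| * ((q : ℝ) * b) =
            ((q : ℝ) * |(q : ℝ) * (b * ξ) - p|) * b := by ring
        rw [e2]
        calc ((q : ℝ) * |(q : ℝ) * (b * ξ) - p|) * b < (1 / R ^ 4) * b :=
              mul_lt_mul_of_pos_right hlt (by linarith)
          _ ≤ (1 / R ^ 4) * H := mul_le_mul_of_nonneg_left hbH' (by positivity)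
          _ = H / R ^ 4 := by ring
    · rw [Nat.mem_divisors]
      exact ⟨Dvd.intro_left q rfl, by
        have := Nat.mul_pos hq1 hb1
        omega⟩
  have hlogM : (Nat.log 2 M : ℝ) + 1 ≤ (512 * κ2 + 1) * R := by
    have h2J : (2 : ℝ) ^ (Nat.log 2 M) ≤ (H : ℝ) ^ κ2 := by
      have h1 : 2 ^ (Nat.log 2 M) ≤ M := Nat.pow_log_le_self 2 (by omega)
      have h2 : ((2 ^ (Nat.log 2 M) : ℕ) : ℝ) ≤ (M : ℝ) := by exact_mod_cast h1
      push_cast at h2
      exact h2.trans hMle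
    have h1 : (Nat.log 2 M : ℝ) * Real.log 2 ≤ κ2 * Real.log H := by
      rw [← Real.log_pow, ← Real.log_rpow hH0]
      exact Real.log_le_log (by positivity) h2J
    have h2 : Real.log H ≤ R / (1 / 256) := Real.log_le_rpow_div hH0.le (by norm_num)
    have h3 := Real.log_two_gt_d9
    have h4 : (0 : ℝ) ≤ (Nat.log 2 M : ℝ) := Nat.cast_nonneg _
    have h5 : κ2 * Real.log H ≤ κ2 * (R / (1 / 256)) := mul_le_mul_of_nonneg_left h2 hκ20.le
    nlinarith
  have hdiv : ∀ n ∈ NN, ((Nat.divisors n).card : ℝ) ≤ Cd * R := by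
    intro n hn
    have hn1 := mem_Icc.1 (mem_filter.1 hn).1
    refine (hCd n (by omega)).trans ?_
    apply mul_le_mul_of_nonneg_left _ hCd0.le
    have hnM : (n : ℝ) ≤ (H : ℝ) ^ κ2 := by
      have : (n : ℝ) ≤ M := by exact_mod_cast hn1.2
      exact this.trans hMle
    calc (n : ℝ) ^ ρ ≤ ((H : ℝ) ^ κ2) ^ ρ := Real.rpow_le_rpow (Nat.cast_nonneg _) hnM hρ0.le
      _ = R := by
          rw [← Real.rpow_mul hH0.le, hR]
          congr 1
          rw [hρ]
          field_simp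
  have hNNcard : (NN.card : ℝ) ≤ ((Nat.log 2 M : ℝ) + 1) * ((16 + 2 * C3) * (H / R ^ 4)) := by
    have hsub2 : NN ⊆ (range (Nat.log 2 M + 1)).biUnion
        (fun i => NN.filter (fun n => Nat.log 2 n = i)) := by
      intro n hn
      have hn1 := mem_Icc.1 (mem_filter.1 hn).1
      rw [mem_biUnion]
      refine ⟨Nat.log 2 n, ?_, mem_filter.2 ⟨hn, rfl⟩⟩
      rw [mem_range]
      have := Nat.log_mono_right (b := 2) hn1.2
      omega
    have hi : ∀ i ∈ range (Nat.log 2 M + 1),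
        ((NN.filter (fun n => Nat.log 2 n = i)).card : ℝ) ≤ (16 + 2 * C3) * (H / R ^ 4) := by
      intro i hi
      rw [mem_range] at hi
      have h2i : (0 : ℝ) < 2 ^ i := by positivity
      have h1 := alg_count' ξ τ3 c3 hτ30 hc3 hr3 (2 ^ (i + 1)) Nat.one_le_two_pow
        (H / R ^ 4 / 2 ^ i) (by positivity)
        ((NN.filter (fun n => Nat.log 2 n = i)).image (fun n => (n, round ((n : ℝ) * ξ)))) (by
          intro z hz
          obtain ⟨n, hn, rfl⟩ := mem_image.1 hz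
          obtain ⟨hn1, hn2⟩ := mem_filter.1 hn
          obtain ⟨hn3, p, hp⟩ := mem_filter.1 hn1
          have hn4 := mem_Icc.1 hn3
          have hn0 : n ≠ 0 := by omega
          refine ⟨?_, ?_⟩
          · have := Nat.lt_pow_succ_log_self (b := 2) (by norm_num) n
            rw [hn2] at this
            exact this.le
          · have h3 : (2 : ℝ) ^ i ≤ n := by
              have := Nat.pow_log_le_self 2 hn0
              rw [hn2] at this
              exact_mod_cast this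
            have h4 : |(n : ℝ) * ξ - round ((n : ℝ) * ξ)| ≤ |(n : ℝ) * ξ - p| := round_le _ _
            rw [le_div_iff₀ h2i]
            calc |(n : ℝ) * ξ - round ((n : ℝ) * ξ)| * 2 ^ i
                ≤ |(n : ℝ) * ξ - p| * n := mul_le_mul h4 h3 h2i.le (abs_nonneg _)
              _ ≤ _ := hp.le)
      rw [Finset.card_image_of_injective _ (fun x y h => (Prod.mk.inj h).1)] at h1
      refine h1.trans ?_
      rw [← hC3]
      have h3 : ((2 ^ (i + 1) : ℕ) : ℝ) ^ τ3 ≤ 2 * (H / R ^ 4) := by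
        have h4 : ((2 ^ (i + 1) : ℕ) : ℝ) ≤ 2 * (H : ℝ) ^ κ2 := by
          have h5 : 2 ^ i ≤ M := (Nat.pow_le_pow_right (by norm_num) (by omega)).trans
            (Nat.pow_log_le_self 2 (show M ≠ 0 by omega))
          have h6 : ((2 ^ i : ℕ) : ℝ) ≤ (M : ℝ) := by exact_mod_cast h5
          push_cast at h6 ⊢
          rw [pow_succ]
          linarith
        calc ((2 ^ (i + 1) : ℕ) : ℝ) ^ τ3 ≤ (2 * (H : ℝ) ^ κ2) ^ τ3 :=
              Real.rpow_le_rpow (by positivity) h4 hτ30.le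
          _ = 2 ^ τ3 * (H : ℝ) ^ (1 / 2 : ℝ) := by
              rw [Real.mul_rpow (by norm_num) (by positivity), ← Real.rpow_mul hH0.le]
              congr 2
              rw [hτ3]
              field_simp
          _ ≤ 2 * (H : ℝ) ^ (1 / 2 : ℝ) := by
              apply mul_le_mul_of_nonneg_right _ (by positivity)
              calc (2 : ℝ) ^ τ3 ≤ (2 : ℝ) ^ (1 : ℝ) :=
                    Real.rpow_le_rpow_of_exponent_le (by norm_num) hτ31
                _ = 2 := Real.rpow_one 2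
          _ ≤ 2 * (H / R ^ 4) := by
              apply mul_le_mul_of_nonneg_left _ (by norm_num)
              rw [le_div_iff₀ (by positivity), ← hP, ← Real.rpow_add hH0]
              calc (H : ℝ) ^ (1 / 2 + 1 / 64 : ℝ) ≤ (H : ℝ) ^ (1 : ℝ) :=
                    Real.rpow_le_rpow_of_exponent_le hH (by norm_num)
                _ = H := Real.rpow_one _
      have h4 : 8 * ((2 ^ (i + 1) : ℕ) : ℝ) * (H / R ^ 4 / 2 ^ i) = 16 * (H / R ^ 4) := by
        push_cast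
        rw [pow_succ]
        field_simp
        ring
      rw [h4]
      have h5 := mul_le_mul_of_nonneg_left h3 hC30.le
      linarith
    have h1 : (NN.card : ℝ) ≤ ∑ i ∈ range (Nat.log 2 M + 1),
        ((NN.filter (fun n => Nat.log 2 n = i)).card : ℝ) := by
      exact_mod_cast (Finset.card_le_card hsub2).trans Finset.card_biUnion_le
    refine h1.trans ((Finset.sum_le_sum hi).trans ?_)
    rw [sum_const, card_range, nsmul_eq_mul]
    push_cast
    exact le_rfl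
  have h1 : (S.card : ℝ) ≤ ∑ n ∈ NN, ((Nat.divisors n).card : ℝ) := by
    exact_mod_cast (Finset.card_le_card hsub).trans Finset.card_biUnion_le
  have hHR : 0 ≤ (16 + 2 * C3) * (H / R ^ 4) := by positivity
  calc (S.card : ℝ) ≤ ∑ n ∈ NN, ((Nat.divisors n).card : ℝ) := h1
    _ ≤ ∑ n ∈ NN, Cd * R := Finset.sum_le_sum hdiv
    _ = (NN.card : ℝ) * (Cd * R) := by rw [sum_const, nsmul_eq_mul]
    _ ≤ (((Nat.log 2 M : ℝ) + 1) * ((16 + 2 * C3) * (H / R ^ 4))) * (Cd * R) :=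
        mul_le_mul_of_nonneg_right hNNcard (by positivity)
    _ ≤ (((512 * κ2 + 1) * R) * ((16 + 2 * C3) * (H / R ^ 4))) * (Cd * R) := by
        apply mul_le_mul_of_nonneg_right _ (by positivity)
        exact mul_le_mul_of_nonneg_right hlogM hHR
    _ = K6 / R ^ 2 * H := by
        rw [hK6]
        field_simp
    _ ≤ η * H := by
        apply mul_le_mul_of_nonneg_right _ hH0.le
        rw [div_le_iff₀ (by positivity)]
        rw [div_le_iff₀ hη] at hH1
        nlinarith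

theorem roth_mul (ξ : ℝ)
    (hroth : ∀ τ : ℝ, 0 < τ → ∃ c : ℝ, 0 < c ∧ ∀ q : ℕ, 1 ≤ q → ∀ p : ℤ,
      c ≤ (q : ℝ) ^ (1 + τ) * |q * ξ - p|)
    (τ : ℝ) (hτ : 0 < τ) (hτ2 : τ ≤ 2) :
    ∀ᶠ H : ℕ in atTop, ∀ b : ℕ, 1 ≤ b → b ≤ H →
      (∀ (q : ℕ) (p : ℤ), 1 ≤ q → (q : ℝ) ≤ (H : ℝ) ^ (4 / τ) →
        1 / (H : ℝ) ^ (1 / 64 : ℝ) ≤ (q : ℝ) * |q * (b * ξ) - p|) →
      ∀ q : ℕ, 1 ≤ q → ∀ p : ℤ,
        1 / (H : ℝ) ^ (1 / 64 : ℝ) ≤ (q : ℝ) ^ (1 + τ) * |q * (b * ξ) - p| := by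
  obtain ⟨c2, hc2, hr2⟩ := hroth (τ / 2) (by positivity)
  filter_upwards [Pool.Agent.TH42.LA.const_le_rpow (1 / 64) (1 / c2) (by norm_num),
    eventually_ge_atTop 1] with H hH1 hH2 b hb1 hbH hex q hq p
  have hH : (1 : ℝ) ≤ H := by exact_mod_cast hH2
  have hH0 : (0 : ℝ) < H := by linarith
  have hqR : (1 : ℝ) ≤ q := by exact_mod_cast hq
  have hq0 : (0 : ℝ) < q := by linarith
  have hbR : (1 : ℝ) ≤ b := by exact_mod_cast hb1
  have hb0 : (0 : ℝ) < b := by linarith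
  have hbH' : (b : ℝ) ≤ H := by exact_mod_cast hbH
  have hP0 : (0 : ℝ) < (H : ℝ) ^ (1 / 64 : ℝ) := by positivity
  rcases le_or_gt (q : ℝ) ((H : ℝ) ^ (4 / τ)) with h | h
  · refine (hex q p hq h).trans ?_
    apply mul_le_mul_of_nonneg_right _ (abs_nonneg _)
    calc (q : ℝ) = (q : ℝ) ^ (1 : ℝ) := (Real.rpow_one _).symm
      _ ≤ (q : ℝ) ^ (1 + τ) := Real.rpow_le_rpow_of_exponent_le hqR (by linarith)
  · have h1 := hr2 (q * b) (Nat.mul_pos hq hb1) p
    push_cast at h1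
    have e1 : (q : ℝ) * b * ξ - p = q * (b * ξ) - p := by ring
    rw [e1] at h1
    have h2 : ((q : ℝ) * b) ^ (1 + τ / 2) ≤ (q : ℝ) ^ (1 + τ) := by
      rw [Real.mul_rpow hq0.le hb0.le]
      have h3 : (b : ℝ) ^ (1 + τ / 2) ≤ (H : ℝ) ^ (2 : ℝ) := by
        calc (b : ℝ) ^ (1 + τ / 2) ≤ (H : ℝ) ^ (1 + τ / 2) :=
              Real.rpow_le_rpow hb0.le hbH' (by positivity)
          _ ≤ (H : ℝ) ^ (2 : ℝ) := Real.rpow_le_rpow_of_exponent_le hH (by linarith)
      have h4 : (H : ℝ) ^ (2 : ℝ) ≤ (q : ℝ) ^ (τ / 2) := by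
        calc (H : ℝ) ^ (2 : ℝ) = ((H : ℝ) ^ (4 / τ)) ^ (τ / 2) := by
              rw [← Real.rpow_mul hH0.le]
              congr 1
              field_simp
              norm_num
          _ ≤ (q : ℝ) ^ (τ / 2) := Real.rpow_le_rpow (by positivity) h.le (by positivity)
      calc (q : ℝ) ^ (1 + τ / 2) * (b : ℝ) ^ (1 + τ / 2)
          ≤ (q : ℝ) ^ (1 + τ / 2) * (q : ℝ) ^ (τ / 2) :=
            mul_le_mul_of_nonneg_left (h3.trans h4) (by positivity)
        _ = (q : ℝ) ^ (1 + τ) := by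
            rw [← Real.rpow_add hq0]
            congr 1
            ring
    have h3 : 1 / (H : ℝ) ^ (1 / 64 : ℝ) ≤ c2 := by
      rw [div_le_iff₀ hP0]
      rw [div_le_iff₀ hc2] at hH1
      linarith
    exact h3.trans (h1.trans (mul_le_mul_of_nonneg_right h2 (abs_nonneg _)))

end Pool.Agent.H160L
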