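import Mathlib
import Pool.Agent.H160L.AffB
import Pool.Agent.Results.MP_c307ca_nt.AlmostAllToHeight

/-!
# Lang's inequality for the numbers `(a + b ξ) / d`: the count for large heights
-/

set_option autoImplicit false

namespace Pool.Agent.H160L

open Finset Filter
open Pool.Agent.TH42.LD

theorem aff_sum_inv_sqrt (H : ℕ) : ∑ N ∈ Icc 1 H, 1 / Real.sqrt N ≤ 2 * Real.sqrt H := by
  induction H with
  | zero => simp
  | succ n ih =>
    rw [Finset.sum_Icc_succ_top (by omega)]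
    have h1 : (0 : ℝ) ≤ n := Nat.cast_nonneg n
    have h2 : (0 : ℝ) < ((n + 1 : ℕ) : ℝ) := by positivity
    set x := Real.sqrt (n : ℝ) with hx
    set y := Real.sqrt ((n + 1 : ℕ) : ℝ) with hy
    have hx0 : 0 ≤ x := Real.sqrt_nonneg _
    have hy0 : 0 < y := Real.sqrt_pos.2 h2
    have hx2 : x ^ 2 = n := Real.sq_sqrt h1
    have hy2 : y ^ 2 = n + 1 := by
      rw [hy, Real.sq_sqrt h2.le]
      push_cast
      ring
    have h3 : 1 / y ≤ 2 * y - 2 * x := by
      rw [div_le_iff₀ hy0]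
      nlinarith [sq_nonneg (y - x)]
    linarith

theorem sum_sigma (H : ℕ) : ∑ N ∈ Icc 1 H, (∑ g ∈ N.divisors, (g : ℝ)) / N ≤
    (∑' e : ℕ, 1 / (e : ℝ) ^ 2) * H := by
  have h0 : ∀ N ∈ Icc 1 H, (∑ g ∈ N.divisors, (g : ℝ)) / N =
      ∑ e ∈ Icc 1 H, if e ∣ N then 1 / (e : ℝ) else 0 := by
    intro N hN
    rw [mem_Icc] at hN
    have hNR : (0 : ℝ) < N := by
      have : 0 < N := by omega
      exact_mod_cast this
    rw [← Finset.sum_filter]
    have h1 : (Icc 1 H).filter (fun e => e ∣ N) = N.divisors := by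
      ext e
      rw [mem_filter, mem_Icc, Nat.mem_divisors]
      constructor
      · rintro ⟨-, h⟩
        exact ⟨h, by omega⟩
      · rintro ⟨h, -⟩
        have h2 := Nat.pos_of_dvd_of_pos h (by omega)
        have h3 := Nat.le_of_dvd (by omega) h
        exact ⟨⟨h2, by omega⟩, h⟩
    rw [h1, ← Nat.sum_div_divisors N (fun g => (g : ℝ)), Finset.sum_div]
    apply Finset.sum_congr rfl
    intro e he
    rw [Nat.mem_divisors] at he
    have he0 : (0 : ℝ) < e := by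
      have := Nat.pos_of_dvd_of_pos he.1 (by omega)
      exact_mod_cast this
    rw [Nat.cast_div he.1 he0.ne']
    field_simp
  rw [Finset.sum_congr rfl h0, Finset.sum_comm]
  have h1 : ∀ e ∈ Icc 1 H, ∑ N ∈ Icc 1 H, (if e ∣ N then 1 / (e : ℝ) else 0) ≤
      1 / (e : ℝ) ^ 2 * H := by
    intro e he
    rw [mem_Icc] at he
    have he0 : (0 : ℝ) < e := by
      have : 0 < e := by omega
      exact_mod_cast this
    rw [← Finset.sum_filter, sum_const, nsmul_eq_mul]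
    have h2 : ((Icc 1 H).filter (fun N => e ∣ N)).card = H / e := by
      have := Nat.Ioc_filter_dvd_card_eq_div H e
      rw [← this]
      congr 1
    rw [h2]
    have h3 : ((H / e : ℕ) : ℝ) ≤ (H : ℝ) / e := Nat.cast_div_le
    calc ((H / e : ℕ) : ℝ) * (1 / e) ≤ ((H : ℝ) / e) * (1 / e) :=
          mul_le_mul_of_nonneg_right h3 (by positivity)
      _ = 1 / (e : ℝ) ^ 2 * H := by
          field_simp
  refine (Finset.sum_le_sum h1).trans ?_
  rw [← Finset.sum_mul]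
  apply mul_le_mul_of_nonneg_right _ (Nat.cast_nonneg _)
  exact (Real.summable_one_div_nat_pow.2 (by norm_num)).sum_le_tsum _ (fun n _ => by positivity)

open Classical in
/-- the count for large heights -/
theorem aff_large (ξ : ℝ)
    (hroth : ∀ τ : ℝ, 0 < τ → ∃ c : ℝ, 0 < c ∧ ∀ q : ℕ, 1 ≤ q → ∀ p : ℤ,
      c ≤ (q : ℝ) ^ (1 + τ) * |q * ξ - p|)
    (κ ε η : ℝ) (hκ : 1 ≤ κ) (hε : 0 < ε) (hη : 0 < η) :
    ∃ c : ℝ, 0 < c ∧ ∀ᶠ H : ℕ in atTop,
      ((((Icc (-(H : ℤ)) H) ×ˢ (Icc 1 H ×ˢ Icc 1 H)).filter (fun z : ℤ × (ℕ × ℕ) =>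
        ∃ (p : ℤ) (q : ℕ), 2 ≤ q ∧ (q : ℝ) ≤ (H : ℝ) ^ κ ∧
          |((z.1 : ℝ) + z.2.1 * ξ) / z.2.2 - (p : ℝ) / q| ≤
            c / ((q : ℝ) ^ 2 * Real.log q ^ (1 + ε)))).card : ℝ) ≤ η * (H : ℝ) ^ 3 := by
  have hκ0 : 0 < κ := by linarith
  have hlog2 : 0 < Real.log 2 := Real.log_pos (by norm_num)
  set τ : ℝ := 1 / (128 * κ) with hτdef
  have hτ : 0 < τ := by positivity
  have hτ1 : τ ≤ 1 / 128 := by
    rw [hτdef]
    apply one_div_le_one_div_of_le (by norm_num)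
    linarith
  set Z : ℝ := ∑' n : ℕ, 1 / ((n : ℝ) * Real.log 2) ^ (1 + ε) with hZ
  have hZ0 : 0 ≤ Z := tsum_nonneg fun n => by positivity
  set T : ℝ := ∑' e : ℕ, 1 / (e : ℝ) ^ 2 with hT
  have hT0 : 0 ≤ T := tsum_nonneg fun n => by positivity
  set c : ℝ := min (Real.log 2 ^ (1 + ε)) (η / (2 * (128 * (Z + 1) * (T + 1)))) with hc
  have hc0 : 0 < c := lt_min (by positivity) (by positivity)
  have hc1 : c ≤ Real.log 2 ^ (1 + ε) := min_le_left _ _
  have hcZ : 128 * c * Z * T ≤ η / 2 := by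
    have h1 : c ≤ η / (2 * (128 * (Z + 1) * (T + 1))) := min_le_right _ _
    rw [le_div_iff₀ (by positivity)] at h1
    have h2 : c * (Z * T) ≤ c * ((Z + 1) * (T + 1)) := by
      apply mul_le_mul_of_nonneg_left _ hc0.le
      exact mul_le_mul (by linarith) (by linarith) hT0 (by linarith)
    nlinarith
  refine ⟨c, hc0, ?_⟩
  obtain ⟨Cd, hCd0, hCd⟩ := Pool.Agent.TH42.LA.divisor_bound (1 / 64) (by norm_num)
  set K1 : ℝ := 128 * κ * (Cd * 16) with hK1
  have hK10 : 0 < K1 := by positivity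
  filter_upwards [exc_b ξ hroth (4 / τ) (η / 12) (by positivity) (by positivity),
    roth_mul ξ hroth τ hτ (by linarith),
    Pool.Agent.TH42.LA.const_le_rpow (1 / 4) (8 * K1 / (η / 4)) (by norm_num),
    eventually_ge_atTop 1] with H hexc hrm hK hH2
  have hH : (1 : ℝ) ≤ H := by exact_mod_cast hH2
  have hH0 : (0 : ℝ) < H := by linarith
  set P : ℝ := (H : ℝ) ^ (1 / 64 : ℝ) with hP
  have hP1 : 1 ≤ P := Real.one_le_rpow hH (by norm_num)
  have hP0 : 0 < P := by linarith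
  set M : ℕ := ⌊(H : ℝ) ^ κ⌋₊ with hM
  have hMle : (M : ℝ) ≤ (H : ℝ) ^ κ := Nat.floor_le (by positivity)
  have hM1 : 1 ≤ M := Nat.le_floor (by simpa using Real.one_le_rpow hH hκ0.le)
  have hlogM : (Nat.log 2 M : ℝ) ≤ 128 * κ * P := by
    have h2J : (2 : ℝ) ^ (Nat.log 2 M) ≤ (H : ℝ) ^ κ := by
      have h1 : 2 ^ (Nat.log 2 M) ≤ M := Nat.pow_log_le_self 2 (by omega)
      have h2 : ((2 ^ (Nat.log 2 M) : ℕ) : ℝ) ≤ (M : ℝ) := by exact_mod_cast h1
      push_cast at h2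
      exact h2.trans hMle
    have h1 : (Nat.log 2 M : ℝ) * Real.log 2 ≤ κ * Real.log H := by
      rw [← Real.log_pow, ← Real.log_rpow hH0]
      exact Real.log_le_log (by positivity) h2J
    have h2 : Real.log H ≤ P / (1 / 64) := Real.log_le_rpow_div hH0.le (by norm_num)
    have h3 := Real.log_two_gt_d9
    have h4 : (0 : ℝ) ≤ (Nat.log 2 M : ℝ) := Nat.cast_nonneg _
    have h5 : κ * Real.log H ≤ κ * (P / (1 / 64)) := mul_le_mul_of_nonneg_left h2 hκ0.le
    nlinarith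
  -- the bad triples
  set Bad : ℕ → ℕ → ℤ → Prop := fun b N a => ∃ (p : ℤ) (q : ℕ), 2 ≤ q ∧ q ≤ M ∧
    |((a : ℝ) + b * ξ) / N - (p : ℝ) / q| ≤ c / ((q : ℝ) ^ 2 * Real.log q ^ (1 + ε)) with hBad
  set X : Finset ℕ := (Icc 1 H).filter (fun b => ∃ (q : ℕ) (p : ℤ), 1 ≤ q ∧
      (q : ℝ) ≤ (H : ℝ) ^ (4 / τ) ∧ (q : ℝ) * |q * (b * ξ) - p| < 1 / P) with hX
  have hXcard : (X.card : ℝ) ≤ η / 12 * H := by
    apply hexc X
    intro b hb
    obtain ⟨h1, h2⟩ := mem_filter.1 hb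
    exact ⟨(mem_Icc.1 h1).1, (mem_Icc.1 h1).2, h2⟩
  set cnt : ℕ → ℕ → ℝ := fun b N => (((Icc (-(H : ℤ)) H).filter (Bad b N)).card : ℝ) with hcnt
  have htriv : ∀ b N, cnt b N ≤ 3 * H := by
    intro b N
    have h1 : ((Icc (-(H : ℤ)) H).filter (Bad b N)).card ≤ 2 * H + 1 := by
      refine (Finset.card_filter_le _ _).trans ?_
      rw [Int.card_Icc]
      omega
    have h2 : cnt b N ≤ ((2 * H + 1 : ℕ) : ℝ) := by
      change (((Icc (-(H : ℤ)) H).filter (Bad b N)).card : ℝ) ≤ _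
      exact_mod_cast h1
    push_cast at h2
    linarith
  have hgood : ∀ b ∈ Icc 1 H, b ∉ X → ∀ N ∈ Icc 1 H,
      cnt b N ≤ 128 * c * Z * H * ((∑ g ∈ N.divisors, (g : ℝ)) / N) +
        4 * H * K1 * P ^ 5 * (1 / Real.sqrt N) := by
    intro b hb hbX N hN
    have hb1 := mem_Icc.1 hb
    have hN1 := mem_Icc.1 hN
    have hNR : (0 : ℝ) < N := by
      have : 0 < N := by omega
      exact_mod_cast this
    have hNH : (N : ℝ) ≤ H := by exact_mod_cast hN1.2
    set θ : ℝ := b * ξ with hθ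
    have hr := hrm b hb1.1 hb1.2 (by
      intro q p hq hqκ
      by_contra hcon
      push Not at hcon
      exact hbX (mem_filter.2 ⟨hb, q, p, hq, hqκ, hcon⟩))
    set c0 : ℝ := 1 / P with hc0'
    have hc00 : 0 < c0 := by positivity
    have hcount := fun (n : ℕ) (hn : 1 ≤ n) (δ : ℝ) (hδ : 0 ≤ δ) (S : Finset (ℕ × ℤ))
      (hS : ∀ z ∈ S, z.1 ≤ n ∧ |(z.1 : ℝ) * θ - z.2| ≤ δ) =>
        alg_count' θ τ c0 hτ hc00 hr n hn δ hδ S hS
    set C : ℝ := 4 * (c0 ^ (1 / (1 + τ)))⁻¹ with hC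
    have hC0 : 0 < C := by positivity
    have hCle : C ≤ 4 * P := by
      have h1 : (c0 ^ (1 / (1 + τ)))⁻¹ = P ^ (1 / (1 + τ)) := by
        rw [hc0', one_div P, Real.inv_rpow hP0.le, inv_inv]
      rw [hC, h1]
      apply mul_le_mul_of_nonneg_left _ (by norm_num)
      calc P ^ (1 / (1 + τ)) ≤ P ^ (1 : ℝ) := by
            apply Real.rpow_le_rpow_of_exponent_le hP1
            rw [div_le_one (by positivity)]
            linarith
        _ = P := Real.rpow_one P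
    have h1 := one_mod θ τ c0 C hτ hc00 hC0 hr hcount ε c hε hc0 hc1 N hN1.1 M (by omega)
    have h2 := box_mod (Bad b N) N H hN1.1 hN1.2 (by
      rintro a k ⟨p, q, hq2, hqM, hle⟩
      refine ⟨p - k * q, q, hq2, hqM, ?_⟩
      have hq0 : (q : ℝ) ≠ 0 := by
        have : q ≠ 0 := by omega
        exact_mod_cast this
      have e1 : ((a : ℝ) + b * ξ) / N - ((p - k * q : ℤ) : ℝ) / q =
          (((a + k * N : ℤ) : ℝ) + b * ξ) / N - (p : ℝ) / q := by
        push_cast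
        field_simp
        ring
      rw [e1]
      exact hle)
    have h3 : ((range N).filter (fun a : ℕ => Bad b N a)) =
        (range N).filter (fun b : ℕ => ∃ (p : ℤ) (q : ℕ), 2 ≤ q ∧ q ≤ M ∧
          |(θ + b) / N - (p : ℝ) / q| ≤ c / ((q : ℝ) ^ 2 * Real.log q ^ (1 + ε))) := by
      apply Finset.filter_congr
      intro a _
      simp only [hBad, hθ, Int.cast_natCast]
      rw [add_comm (a : ℝ)]
    rw [h3] at h2
    have h4 : (Nat.log 2 M : ℝ) * (N.divisors.card *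
        (C * Real.sqrt (4 / c0) * (2 * (M : ℝ)) ^ (2 * τ) * Real.sqrt N)) ≤
        K1 * P ^ 5 * Real.sqrt N := by
      have f1 : (N.divisors.card : ℝ) ≤ Cd * P := by
        refine (hCd N (by omega)).trans ?_
        apply mul_le_mul_of_nonneg_left _ hCd0.le
        exact Real.rpow_le_rpow hNR.le hNH (by norm_num)
      have f2 : Real.sqrt (4 / c0) ≤ 2 * P := by
        rw [hc0', div_div_eq_mul_div, div_one]
        rw [Real.sqrt_le_left (by positivity)]
        nlinarith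
      have f3 : (2 * (M : ℝ)) ^ (2 * τ) ≤ 2 * P := by
        calc (2 * (M : ℝ)) ^ (2 * τ) ≤ (2 * (H : ℝ) ^ κ) ^ (2 * τ) :=
              Real.rpow_le_rpow (by positivity) (by linarith) (by positivity)
          _ = 2 ^ (2 * τ) * P := by
              rw [Real.mul_rpow (by norm_num) (by positivity), ← Real.rpow_mul hH0.le, hP]
              congr 2
              rw [hτdef]
              field_simp
              norm_num
          _ ≤ 2 * P := by
              refine mul_le_mul_of_nonneg_right ?_ (by positivity)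
              calc (2 : ℝ) ^ (2 * τ) ≤ (2 : ℝ) ^ (1 : ℝ) :=
                    Real.rpow_le_rpow_of_exponent_le (by norm_num) (by linarith)
                _ = 2 := Real.rpow_one 2
      calc (Nat.log 2 M : ℝ) * (N.divisors.card *
            (C * Real.sqrt (4 / c0) * (2 * (M : ℝ)) ^ (2 * τ) * Real.sqrt N))
          ≤ (128 * κ * P) * ((Cd * P) * ((4 * P) * (2 * P) * (2 * P) * Real.sqrt N)) := by
            gcongr
        _ = K1 * P ^ 5 * Real.sqrt N := by
            rw [hK1]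
            ring
    have h5 := h1.trans (add_le_add le_rfl h4)
    have h6 := h2.trans (mul_le_mul_of_nonneg_left h5 (by positivity))
    refine h6.trans (le_of_eq ?_)
    have hs : Real.sqrt N / N = 1 / Real.sqrt N := by
      rw [div_eq_div_iff hNR.ne' (Real.sqrt_pos.2 hNR).ne', Real.mul_self_sqrt hNR.le, one_mul]
    calc 4 * (H : ℝ) / N * (32 * c * Z * (∑ g ∈ N.divisors, (g : ℝ)) + K1 * P ^ 5 * Real.sqrt N)
        = 128 * c * Z * H * ((∑ g ∈ N.divisors, (g : ℝ)) / N) +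
          4 * H * K1 * P ^ 5 * (Real.sqrt N / N) := by ring
      _ = _ := by rw [hs]
  have hsumN : ∀ b ∈ Icc 1 H, b ∉ X → ∑ N ∈ Icc 1 H, cnt b N ≤
      η / 2 * (H : ℝ) ^ 2 + η / 4 * (H : ℝ) ^ 2 := by
    intro b hb hbX
    refine (Finset.sum_le_sum (hgood b hb hbX)).trans ?_
    rw [Finset.sum_add_distrib, ← Finset.mul_sum, ← Finset.mul_sum]
    apply add_le_add
    · calc 128 * c * Z * H * ∑ N ∈ Icc 1 H, (∑ g ∈ N.divisors, (g : ℝ)) / N
          ≤ 128 * c * Z * H * (T * H) :=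
            mul_le_mul_of_nonneg_left (sum_sigma H) (by positivity)
        _ = (128 * c * Z * T) * (H : ℝ) ^ 2 := by ring
        _ ≤ η / 2 * (H : ℝ) ^ 2 := mul_le_mul_of_nonneg_right hcZ (by positivity)
    · calc 4 * H * K1 * P ^ 5 * ∑ N ∈ Icc 1 H, 1 / Real.sqrt N
          ≤ 4 * H * K1 * P ^ 5 * (2 * Real.sqrt H) :=
            mul_le_mul_of_nonneg_left (aff_sum_inv_sqrt H) (by positivity)
        _ = 8 * K1 * (H * (P ^ 5 * Real.sqrt H)) := by ring
        _ ≤ (η / 4 * (H : ℝ) ^ (1 / 4 : ℝ)) * (H * (P ^ 5 * Real.sqrt H)) := by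
            apply mul_le_mul_of_nonneg_right _ (by positivity)
            rw [div_le_iff₀ (by positivity)] at hK
            linarith
        _ = η / 4 * (H * ((H : ℝ) ^ (1 / 4 : ℝ) * (P ^ 5 * Real.sqrt H))) := by ring
        _ ≤ η / 4 * (H * H) := by
            apply mul_le_mul_of_nonneg_left _ (by positivity)
            apply mul_le_mul_of_nonneg_left _ hH0.le
            rw [hP, ← Real.rpow_natCast, ← Real.rpow_mul hH0.le, Real.sqrt_eq_rpow,
              ← Real.rpow_add hH0, ← Real.rpow_add hH0]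
            calc _ ≤ (H : ℝ) ^ (1 : ℝ) :=
                  Real.rpow_le_rpow_of_exponent_le hH (by norm_num)
              _ = H := Real.rpow_one _
        _ = η / 4 * (H : ℝ) ^ 2 := by ring
  -- assembly
  have hsubE : ((Icc (-(H : ℤ)) H) ×ˢ (Icc 1 H ×ˢ Icc 1 H)).filter (fun z : ℤ × (ℕ × ℕ) =>
        ∃ (p : ℤ) (q : ℕ), 2 ≤ q ∧ (q : ℝ) ≤ (H : ℝ) ^ κ ∧
          |((z.1 : ℝ) + z.2.1 * ξ) / z.2.2 - (p : ℝ) / q| ≤
            c / ((q : ℝ) ^ 2 * Real.log q ^ (1 + ε))) ⊆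
      (Icc 1 H).biUnion (fun b => (Icc 1 H).biUnion (fun N =>
        ((Icc (-(H : ℤ)) H).filter (Bad b N)).image (fun a => (a, (b, N))))) := by
    rintro ⟨a, b, N⟩ hz
    rw [mem_filter, mem_product, mem_product] at hz
    obtain ⟨⟨ha, hb, hN⟩, p, q, hq2, hqκ, hle⟩ := hz
    rw [mem_biUnion]
    refine ⟨b, hb, ?_⟩
    rw [mem_biUnion]
    refine ⟨N, hN, ?_⟩
    rw [mem_image]
    exact ⟨a, mem_filter.2 ⟨ha, p, q, hq2, Nat.le_floor hqκ, hle⟩, rfl⟩
  have hE : ((((Icc (-(H : ℤ)) H) ×ˢ (Icc 1 H ×ˢ Icc 1 H)).filter (fun z : ℤ × (ℕ × ℕ) =>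
        ∃ (p : ℤ) (q : ℕ), 2 ≤ q ∧ (q : ℝ) ≤ (H : ℝ) ^ κ ∧
          |((z.1 : ℝ) + z.2.1 * ξ) / z.2.2 - (p : ℝ) / q| ≤
            c / ((q : ℝ) ^ 2 * Real.log q ^ (1 + ε)))).card : ℝ) ≤
      ∑ b ∈ Icc 1 H, ∑ N ∈ Icc 1 H, cnt b N := by
    refine (Nat.cast_le.2 (Finset.card_le_card hsubE)).trans ?_
    refine (Nat.cast_le.2 Finset.card_biUnion_le).trans ?_
    rw [Nat.cast_sum]
    apply Finset.sum_le_sum
    intro b _
    refine (Nat.cast_le.2 Finset.card_biUnion_le).trans ?_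
    rw [Nat.cast_sum]
    apply Finset.sum_le_sum
    intro N _
    change _ ≤ (((Icc (-(H : ℤ)) H).filter (Bad b N)).card : ℝ)
    exact Nat.cast_le.2 Finset.card_image_le
  refine hE.trans ?_
  have hsplit : ∀ b ∈ Icc 1 H, ∑ N ∈ Icc 1 H, cnt b N ≤
      (η / 2 * (H : ℝ) ^ 2 + η / 4 * (H : ℝ) ^ 2) + (if b ∈ X then 3 * (H : ℝ) ^ 2 else 0) := by
    intro b hb
    by_cases h : b ∈ X
    · rw [if_pos h]
      have h1 : ∑ N ∈ Icc 1 H, cnt b N ≤ ∑ N ∈ Icc 1 H, 3 * (H : ℝ) :=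
        Finset.sum_le_sum fun N _ => htriv b N
      rw [sum_const, Nat.card_Icc, nsmul_eq_mul, Nat.add_sub_cancel] at h1
      have h2 : 0 ≤ η / 2 * (H : ℝ) ^ 2 + η / 4 * (H : ℝ) ^ 2 := by positivity
      nlinarith
    · rw [if_neg h, add_zero]
      exact hsumN b hb h
  refine (Finset.sum_le_sum hsplit).trans ?_
  rw [Finset.sum_add_distrib, sum_const, Nat.card_Icc, nsmul_eq_mul, Nat.add_sub_cancel,
    ← Finset.sum_filter, sum_const, nsmul_eq_mul]
  have h1 : (((Icc 1 H).filter (fun b => b ∈ X)).card : ℝ) ≤ X.card := by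
    exact_mod_cast Finset.card_le_card (fun b hb => (mem_filter.1 hb).2)
  have h2 : (((Icc 1 H).filter (fun b => b ∈ X)).card : ℝ) * (3 * (H : ℝ) ^ 2) ≤
      (η / 12 * H) * (3 * (H : ℝ) ^ 2) :=
    mul_le_mul_of_nonneg_right (h1.trans hXcard) (by positivity)
  nlinarith

end Pool.Agent.H160L
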