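import Mathlib

/-!
# Bases of real number fields are badly approximable
-/

set_option autoImplicit false

namespace Pool.Agent.H160L

open Finset

/-- The inclusion of a real field into the complex numbers. -/
noncomputable def incl (K : IntermediateField ℚ ℝ) : K →ₐ[ℚ] ℂ :=
  (Complex.ofRealAm.restrictScalars ℚ).comp K.val

theorem incl_apply (K : IntermediateField ℚ ℝ) (x : K) : incl K x = ((x : ℝ) : ℂ) := rfl

/-- The simultaneous approximations of a basis of a real number field. -/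
theorem bad (m : ℕ) (K : IntermediateField ℚ ℝ) (b : Module.Basis (Fin (m + 1)) ℚ K)
    (hb : b 0 = 1) :
    ∃ c : ℝ, 0 < c ∧ ∀ (n : ℕ) (p : Fin m → ℤ) (ρ : ℝ), 1 ≤ n → 0 ≤ ρ → ρ ≤ 1 →
      (∀ i, |(n : ℝ) * (b i.succ : ℝ) - p i| ≤ ρ) → c ≤ n * ρ ^ m := by
  classical
  have : FiniteDimensional ℚ K := b.finiteDimensional_of_finite
  have hcard : Fintype.card (K →ₐ[ℚ] ℂ) = m + 1 := by
    rw [AlgHom.card, Module.finrank_eq_card_basis b, Fintype.card_fin]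
  have eqv : Fin (m + 1) ≃ (K →ₐ[ℚ] ℂ) :=
    Fintype.equivOfCardEq (by rw [hcard, Fintype.card_fin])
  set γ := (Algebra.traceForm ℚ K).dualBasis (traceForm_nondegenerate ℚ K) b with hγ
  have htr : ∀ i j, Algebra.trace ℚ K (γ i * b j) = if j = i then 1 else 0 := by
    intro i j
    have := LinearMap.BilinForm.apply_dualBasis_left (traceForm_nondegenerate ℚ K) b i j
    rwa [Algebra.traceForm_apply] at this
  set A : Matrix (Fin (m + 1)) (K →ₐ[ℚ] ℂ) ℂ := Matrix.of fun i σ => σ (γ i) with hA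
  set B : Matrix (K →ₐ[ℚ] ℂ) (Fin (m + 1)) ℂ := Matrix.of fun σ j => σ (b j) with hB
  have hAB : A * B = 1 := by
    ext i j
    rw [Matrix.mul_apply]
    have h1 : ∑ σ : K →ₐ[ℚ] ℂ, A i σ * B σ j = ∑ σ : K →ₐ[ℚ] ℂ, σ (γ i * b j) := by
      refine Finset.sum_congr rfl fun σ _ => ?_
      rw [hA, hB, Matrix.of_apply, Matrix.of_apply, map_mul]
    rw [h1, ← trace_eq_sum_embeddings (K := ℚ) ℂ, htr, Matrix.one_apply]
    by_cases h : i = j
    · rw [if_pos h.symm, if_pos h, map_one]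
    · rw [if_neg (Ne.symm h), if_neg h, map_zero]
  have hBA : B * A = 1 := (Matrix.mul_eq_one_comm_of_equiv eqv).1 hAB
  have hdual : ∀ σ τ : K →ₐ[ℚ] ℂ, ∑ j, σ (b j) * τ (γ j) = if σ = τ then 1 else 0 := by
    intro σ τ
    have := congrFun (congrFun hBA σ) τ
    rw [Matrix.mul_apply, Matrix.one_apply] at this
    rw [← this]
    rfl
  obtain ⟨D, hD0, hD⟩ := exists_integral_multiples ℤ ℚ (Finset.univ.image γ)
  set C : ℝ := 1 + ∑ τ : K →ₐ[ℚ] ℂ, ∑ j, ‖τ (γ j)‖ with hC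
  have hC0 : 0 ≤ ∑ τ : K →ₐ[ℚ] ℂ, ∑ j, ‖τ (γ j)‖ :=
    Finset.sum_nonneg fun τ _ => Finset.sum_nonneg fun j _ => norm_nonneg _
  have hC1 : 1 ≤ C := by rw [hC]; linarith
  have hCτ : ∀ τ : K →ₐ[ℚ] ℂ, ∑ j, ‖τ (γ j)‖ ≤ C := by
    intro τ
    have h1 : ∑ j, ‖τ (γ j)‖ ≤ ∑ τ : K →ₐ[ℚ] ℂ, ∑ j, ‖τ (γ j)‖ :=
      Finset.single_le_sum (f := fun τ : K →ₐ[ℚ] ℂ => ∑ j, ‖τ (γ j)‖)
        (fun τ _ => Finset.sum_nonneg fun j _ => norm_nonneg _) (Finset.mem_univ τ)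
    rw [hC]
    linarith
  have hDabs : 1 ≤ |(D : ℝ)| := by
    have : 1 ≤ |D| := Int.one_le_abs hD0
    exact_mod_cast this
  refine ⟨1 / (|(D : ℝ)| ^ (m + 1) * ((1 + C) * C ^ m)), by positivity, ?_⟩
  intro n p ρ hn hρ0 hρ hp
  have hn1 : (1 : ℝ) ≤ n := by exact_mod_cast hn
  -- the element
  set P : Fin (m + 1) → ℤ := Fin.cons (n : ℤ) p with hP
  set θ : K := ∑ j, (P j) • γ j with hθ
  have hP0 : P 0 = n := by rw [hP]; rfl
  have hPs : ∀ i : Fin m, P i.succ = p i := fun i => by rw [hP]; rfl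
  have happ : ∀ j : Fin (m + 1), |(P j : ℝ) - n * (b j : ℝ)| ≤ ρ := by
    intro j
    refine Fin.cases ?_ (fun i => ?_) j
    · rw [hP0, hb]
      simpa using hρ0
    · rw [hPs, abs_sub_comm]
      exact hp i
  have hθ0 : θ ≠ 0 := by
    intro h
    have h1 : ∑ j, (P j : ℚ) • γ j = 0 := by
      rw [← h, hθ]
      refine Finset.sum_congr rfl fun j _ => ?_
      rw [← Int.cast_smul_eq_zsmul ℚ]
    have h2 := (Fintype.linearIndependent_iff.1 γ.linearIndependent) (fun j => (P j : ℚ)) h1 0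
    rw [hP0] at h2
    have h3 : (n : ℚ) = 0 := by exact_mod_cast h2
    have h4 : (n : ℕ) = 0 := by exact_mod_cast h3
    omega
  have hτθ : ∀ τ : K →ₐ[ℚ] ℂ, τ θ = ∑ j, ((P j : ℝ) - n * (b j : ℝ) : ℝ) * τ (γ j) +
      n * (if incl K = τ then 1 else 0) := by
    intro τ
    rw [← hdual (incl K) τ, Finset.mul_sum, ← Finset.sum_add_distrib, hθ, map_sum]
    refine Finset.sum_congr rfl fun j _ => ?_
    rw [map_zsmul, incl_apply, zsmul_eq_mul]
    push_cast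
    ring
  have hsmall : ∀ τ : K →ₐ[ℚ] ℂ, ‖∑ j, (((P j : ℝ) - n * (b j : ℝ) : ℝ) : ℂ) * τ (γ j)‖ ≤ ρ * C := by
    intro τ
    calc ‖∑ j, (((P j : ℝ) - n * (b j : ℝ) : ℝ) : ℂ) * τ (γ j)‖
        ≤ ∑ j, ‖(((P j : ℝ) - n * (b j : ℝ) : ℝ) : ℂ) * τ (γ j)‖ := norm_sum_le _ _
      _ ≤ ∑ j, ρ * ‖τ (γ j)‖ := by
          refine Finset.sum_le_sum fun j _ => ?_
          rw [norm_mul, Complex.norm_real, Real.norm_eq_abs]
          exact mul_le_mul_of_nonneg_right (happ j) (norm_nonneg _)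
      _ = ρ * ∑ j, ‖τ (γ j)‖ := by rw [Finset.mul_sum]
      _ ≤ ρ * C := mul_le_mul_of_nonneg_left (hCτ τ) hρ0
  have hτ1 : ∀ τ : K →ₐ[ℚ] ℂ, τ ∈ (Finset.univ.erase (incl K)) → ‖τ θ‖ ≤ ρ * C := by
    intro τ hτ
    have hne : incl K ≠ τ := (Finset.ne_of_mem_erase hτ).symm
    rw [hτθ, if_neg hne, mul_zero, add_zero]
    exact hsmall τ
  have hτ0 : ‖incl K θ‖ ≤ n * (1 + C) := by
    rw [hτθ, if_pos rfl, mul_one]
    refine (norm_add_le _ _).trans ?_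
    have h1 := hsmall (incl K)
    have h2 : ‖(n : ℂ)‖ = n := by simp
    rw [h2]
    have h3 : ρ * C ≤ n * C := mul_le_mul_of_nonneg_right (hρ.trans hn1) (by linarith)
    nlinarith
  -- the norm
  have hnorm : (((Algebra.norm ℚ θ : ℚ)) : ℂ) = ∏ τ : K →ₐ[ℚ] ℂ, τ θ := by
    have := Algebra.norm_eq_prod_embeddings ℚ ℂ θ
    simpa using this
  have hub : |((Algebra.norm ℚ θ : ℚ) : ℝ)| ≤ n * (1 + C) * (ρ * C) ^ m := by
    have h1 : |((Algebra.norm ℚ θ : ℚ) : ℝ)| = ‖(((Algebra.norm ℚ θ : ℚ)) : ℂ)‖ := by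
      have : (((Algebra.norm ℚ θ : ℚ)) : ℂ) = ((((Algebra.norm ℚ θ : ℚ)) : ℝ) : ℂ) := by
        push_cast; rfl
      rw [this, Complex.norm_real, Real.norm_eq_abs]
    rw [h1, hnorm, norm_prod, ← Finset.mul_prod_erase Finset.univ _ (Finset.mem_univ (incl K))]
    refine mul_le_mul hτ0 ?_ (Finset.prod_nonneg fun _ _ => norm_nonneg _) (by positivity)
    refine (Finset.prod_le_prod (fun τ _ => norm_nonneg _) hτ1).trans ?_
    rw [Finset.prod_const, Finset.card_erase_of_mem (Finset.mem_univ _), Finset.card_univ, hcard]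
    simp
  have hlb : 1 ≤ |(D : ℝ)| ^ (m + 1) * |((Algebra.norm ℚ θ : ℚ) : ℝ)| := by
    have hint : IsIntegral ℤ (D • θ) := by
      rw [hθ, Finset.smul_sum]
      refine IsIntegral.sum _ fun j _ => ?_
      rw [smul_comm]
      exact (hD (γ j) (Finset.mem_image_of_mem _ (Finset.mem_univ j))).smul (P j)
    have h1 := Algebra.isIntegral_norm ℚ hint
    obtain ⟨z, hz⟩ := IsIntegrallyClosed.isIntegral_iff.1 h1
    have h2 : D • θ = algebraMap ℚ K (D : ℚ) * θ := by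
      rw [← Int.cast_smul_eq_zsmul ℚ, Algebra.smul_def]
    have h3 : Algebra.norm ℚ (D • θ) = (D : ℚ) ^ (m + 1) * Algebra.norm ℚ θ := by
      rw [h2, map_mul, Algebra.norm_algebraMap, Module.finrank_eq_card_basis b, Fintype.card_fin]
    have h4 : Algebra.norm ℚ (D • θ) ≠ 0 := by
      rw [Algebra.norm_ne_zero_iff]
      exact smul_ne_zero hD0 hθ0
    have hz0 : z ≠ 0 := by
      rintro rfl
      apply h4
      rw [← hz, map_zero]
    have h5 : (1 : ℝ) ≤ |(z : ℝ)| := by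
      have : 1 ≤ |z| := Int.one_le_abs hz0
      exact_mod_cast this
    have h6 : ((z : ℚ)) = (D : ℚ) ^ (m + 1) * Algebra.norm ℚ θ := by
      rw [← h3, ← hz]
      rfl
    have h7 : (z : ℝ) = (D : ℝ) ^ (m + 1) * ((Algebra.norm ℚ θ : ℚ) : ℝ) := by
      have := congrArg (fun x : ℚ => (x : ℝ)) h6
      simpa using this
    rw [h7, abs_mul, abs_pow] at h5
    exact h5
  rw [div_le_iff₀ (by positivity)]
  calc (1 : ℝ) ≤ |(D : ℝ)| ^ (m + 1) * |((Algebra.norm ℚ θ : ℚ) : ℝ)| := hlb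
    _ ≤ |(D : ℝ)| ^ (m + 1) * (n * (1 + C) * (ρ * C) ^ m) :=
        mul_le_mul_of_nonneg_left hub (by positivity)
    _ = n * ρ ^ m * (|(D : ℝ)| ^ (m + 1) * ((1 + C) * C ^ m)) := by
        rw [mul_pow]; ring

end Pool.Agent.H160L
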