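import Mathlib
import Pool.Agent.H332R2.Lit.Glas

/-!
# Counting small values of a linear form modulo one by Fejer kernels
-/

set_option autoImplicit false

namespace Pool.Agent.H160L

open Finset
open Pool.Agent.H332R2.Lit (e e_add e_zero norm_e conj_e e_nat_mul norm_geom_le normSq_sum)

/-- The Fejer kernel. -/
noncomputable def G (H : ℕ) (t : ℝ) : ℝ := ‖∑ b ∈ range (2 * H), e (b * t)‖ ^ 2

theorem G_nonneg (H : ℕ) (t : ℝ) : 0 ≤ G H t := by unfold G; positivity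

theorem G_triv (H : ℕ) (t : ℝ) : G H t ≤ 4 * (H : ℝ) ^ 2 := by
  have h1 : ‖∑ b ∈ range (2 * H), e (b * t)‖ ≤ 2 * H := by
    refine (norm_sum_le _ _).trans ?_
    simp only [norm_e, sum_const, card_range, nsmul_eq_mul, mul_one]
    push_cast
    exact le_refl _
  unfold G
  calc ‖∑ b ∈ range (2 * H), e (b * t)‖ ^ 2 ≤ (2 * (H : ℝ)) ^ 2 :=
        pow_le_pow_left₀ (norm_nonneg _) h1 2
    _ = 4 * (H : ℝ) ^ 2 := by ring

theorem G_zero (H : ℕ) : G H 0 ≤ 4 * (H : ℝ) ^ 2 := G_triv H 0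

theorem G_neg (H : ℕ) (t : ℝ) : G H (-t) = G H t := by
  unfold G
  have h : ∑ b ∈ range (2 * H), e (b * -t) = (starRingEnd ℂ) (∑ b ∈ range (2 * H), e (b * t)) := by
    rw [map_sum]
    refine sum_congr rfl fun b _ => ?_
    rw [conj_e]
    congr 1
    ring
  rw [h, Complex.norm_conj]

/-- The bound for the Fejer kernel. -/
theorem G_le (H : ℕ) (hH : 1 ≤ H) (t : ℝ) :
    G H t ≤ 8 * (H : ℝ) ^ 2 / (1 + ((⌊(H : ℝ) * (t - round t)⌋ : ℤ) : ℝ) ^ 2) := by
  set δ := t - round t with hδ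
  set k := ⌊(H : ℝ) * δ⌋ with hk
  have hH1 : (1 : ℝ) ≤ H := by exact_mod_cast hH
  have h1 : (k : ℝ) ≤ (H : ℝ) * δ := Int.floor_le _
  have h2 : (H : ℝ) * δ < k + 1 := Int.lt_floor_add_one _
  rw [le_div_iff₀ (by positivity)]
  by_cases hs : |(H : ℝ) * δ| ≤ 1
  · have h3 := abs_le.1 hs
    have h4 : (-2 : ℝ) < k := by linarith
    have h5 : (k : ℝ) ≤ 1 := by linarith
    have h6 : (-2 : ℤ) < k := by exact_mod_cast h4
    have h7 : k ≤ 1 := by exact_mod_cast h5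
    have h8 : (k : ℝ) ^ 2 ≤ 1 := by
      have : (-1 : ℤ) ≤ k := by omega
      have h9 : (-1 : ℝ) ≤ k := by exact_mod_cast this
      nlinarith
    have h10 := G_triv H t
    have h11 := G_nonneg H t
    calc G H t * (1 + (k : ℝ) ^ 2) ≤ 4 * (H : ℝ) ^ 2 * 2 :=
          mul_le_mul h10 (by linarith) (by positivity) (by positivity)
      _ = 8 * (H : ℝ) ^ 2 := by ring
  · push Not at hs
    have hδ0 : 0 < |δ| := by
      rw [abs_mul, abs_of_pos (by linarith : (0 : ℝ) < H)] at hs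
      by_contra h
      have : |δ| = 0 := le_antisymm (not_lt.1 h) (abs_nonneg _)
      rw [this] at hs
      linarith
    have h3 := norm_geom_le t |δ| hδ0 le_rfl (2 * H)
    have h4 : G H t ≤ (1 / (2 * |δ|)) ^ 2 := pow_le_pow_left₀ (norm_nonneg _) h3 2
    have h5 : |(k : ℝ)| ≤ 2 * |(H : ℝ) * δ| := by
      have h6 : |(k : ℝ)| ≤ |(H : ℝ) * δ| + 1 := by
        rw [abs_le]
        have h7 := abs_le.1 (le_refl |(H : ℝ) * δ|)
        constructor <;> linarith
      linarith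
    have h6 : (k : ℝ) ^ 2 ≤ 4 * ((H : ℝ) * δ) ^ 2 := by
      have := pow_le_pow_left₀ (abs_nonneg _) h5 2
      rw [mul_pow, sq_abs, sq_abs] at this
      linarith
    have h7 : 1 ≤ ((H : ℝ) * δ) ^ 2 := by
      rw [← sq_abs]
      nlinarith
    calc G H t * (1 + (k : ℝ) ^ 2) ≤ (1 / (2 * |δ|)) ^ 2 * (5 * ((H : ℝ) * δ) ^ 2) :=
          mul_le_mul h4 (by linarith) (by positivity) (by positivity)
      _ = 5 / 4 * (H : ℝ) ^ 2 := by
          have h8 : δ ^ 2 = |δ| ^ 2 := (sq_abs δ).symm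
          rw [mul_pow, h8]
          field_simp
          norm_num
      _ ≤ 8 * (H : ℝ) ^ 2 := by nlinarith [sq_nonneg (H : ℝ)]

/-- a shift by an integer -/
theorem e_shift (t : ℝ) (n : ℤ) : e (t - n) = e t := by
  unfold e
  have : (2 * Real.pi * ((t : ℝ) : ℂ) * Complex.I : ℂ)
      = 2 * Real.pi * ((t - n : ℝ) : ℂ) * Complex.I + n * (2 * Real.pi * Complex.I) := by
    push_cast; ring
  rw [this, Complex.exp_add, Complex.exp_int_mul_two_pi_mul_I, mul_one]

theorem e_re (t : ℝ) : (e t).re = Real.cos (2 * Real.pi * t) := by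
  unfold e
  rw [show (2 * Real.pi * t * Complex.I : ℂ) = ((2 * Real.pi * t : ℝ) : ℂ) * Complex.I by
    push_cast; ring]
  exact Complex.exp_ofReal_mul_I_re _

theorem half_le_re (t : ℝ) (ht : |t| ≤ 1 / 6) : 1 / 2 ≤ (e t).re := by
  rw [e_re, ← Real.cos_abs, ← Real.cos_pi_div_three]
  apply Real.cos_le_cos_of_nonneg_of_le_pi (abs_nonneg _)
  · linarith [Real.pi_pos]
  · rw [abs_mul, abs_of_pos (by positivity : (0 : ℝ) < 2 * Real.pi)]
    nlinarith [Real.pi_pos]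

/-- The lower bound near the integers. -/
theorem lower (U : ℕ) (x : ℝ) (p : ℤ) (hU : 1 ≤ U) (hx : |x - p| ≤ 1 / (6 * U)) :
    1 ≤ 4 / (U : ℝ) ^ 2 * ‖∑ u ∈ range U, e (u * x)‖ ^ 2 := by
  have hU1 : (1 : ℝ) ≤ U := by exact_mod_cast hU
  have h1 : ∑ u ∈ range U, e (u * x) = ∑ u ∈ range U, e (u * (x - p)) := by
    refine sum_congr rfl fun u _ => ?_
    rw [← e_shift (u * x) (u * p)]
    congr 1
    push_cast
    ring
  have h2 : (U : ℝ) / 2 ≤ (∑ u ∈ range U, e (u * (x - p))).re := by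
    rw [Complex.re_sum]
    have : (U : ℝ) / 2 = ∑ u ∈ range U, (1 / 2 : ℝ) := by
      rw [sum_const, card_range, nsmul_eq_mul]
      ring
    rw [this]
    refine sum_le_sum fun u hu => half_le_re _ ?_
    have hu1 : (u : ℝ) ≤ U := by exact_mod_cast (mem_range.1 hu).le
    rw [abs_mul, abs_of_nonneg (by positivity : (0 : ℝ) ≤ u)]
    calc (u : ℝ) * |x - p| ≤ U * (1 / (6 * U)) :=
          mul_le_mul hu1 hx (abs_nonneg _) (by positivity)
      _ = 1 / 6 := by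
          field_simp
  have h3 : (U : ℝ) / 2 ≤ ‖∑ u ∈ range U, e (u * x)‖ := by
    rw [h1]
    exact h2.trans (Complex.re_le_norm _)
  have h4 : ((U : ℝ) / 2) ^ 2 ≤ ‖∑ u ∈ range U, e (u * x)‖ ^ 2 :=
    pow_le_pow_left₀ (by positivity) h3 2
  calc (1 : ℝ) = 4 / (U : ℝ) ^ 2 * ((U : ℝ) / 2) ^ 2 := by
        field_simp
        norm_num
    _ ≤ _ := mul_le_mul_of_nonneg_left h4 (by positivity)

/-- multiplicativity -/
theorem e_sum {ι : Type*} (s : Finset ι) (f : ι → ℝ) : e (∑ i ∈ s, f i) = ∏ i ∈ s, e (f i) := by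
  classical
  induction s using Finset.induction_on with
  | empty => simp [e_zero]
  | insert a s ha ih => rw [sum_insert ha, prod_insert ha, e_add, ih]

/-- the product formula -/
theorem box_sum (m H : ℕ) (t : Fin m → ℝ) :
    ‖∑ x ∈ Fintype.piFinset (fun _ : Fin m => range (2 * H)), e (∑ i, (x i : ℝ) * t i)‖ ^ 2 =
      ∏ i, G H (t i) := by
  have h1 : ∑ x ∈ Fintype.piFinset (fun _ : Fin m => range (2 * H)), e (∑ i, (x i : ℝ) * t i) =
      ∏ i, ∑ b ∈ range (2 * H), e (b * t i) := by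
    rw [Finset.prod_univ_sum]
    exact sum_congr rfl fun x _ => e_sum _ _
  rw [h1, norm_prod, ← Finset.prod_pow]
  rfl

/-- The Fourier bound. -/
theorem count_le (m H U : ℕ) (ω : Fin m → ℝ) (hU : 1 ≤ U)
    (T : Finset (Fin m → ℤ)) (hT : ∀ a ∈ T, (∀ i, |a i| ≤ (H : ℤ)) ∧
      ∃ p : ℤ, |(∑ i, (a i : ℝ) * ω i) - p| ≤ 1 / (6 * U)) :
    (T.card : ℝ) * (H : ℝ) ^ m ≤ 4 / (U : ℝ) ^ 2 *
      ∑ u ∈ range U, ∑ v ∈ range U, ∏ i, G H (((u : ℝ) - v) * ω i) := by
  classical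
  set F : ℝ → ℝ := fun x => 4 / (U : ℝ) ^ 2 * ‖∑ u ∈ range U, e (u * x)‖ ^ 2 with hF
  have hF0 : ∀ x, 0 ≤ F x := fun x => by rw [hF]; positivity
  set B : Finset (Fin m → ℕ) := Fintype.piFinset (fun _ : Fin m => range (2 * H)) with hB
  set C : Finset (Fin m → ℕ) := Fintype.piFinset (fun _ : Fin m => range H) with hC
  set φ : (Fin m → ℤ) × (Fin m → ℕ) → (Fin m → ℕ) × (Fin m → ℕ) := fun z =>
    (fun i => z.2 i + (z.1 i).toNat, fun i => z.2 i + (-z.1 i).toNat) with hφ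
  have hdiff : ∀ z i, (((φ z).1 i : ℕ) : ℤ) - ((φ z).2 i : ℕ) = z.1 i := by
    intro z i
    rw [hφ]
    push_cast
    omega
  have hinj : Set.InjOn φ ((T ×ˢ C : Finset _) : Set ((Fin m → ℤ) × (Fin m → ℕ))) := by
    intro z _ z' _ h
    have h1 : z.1 = z'.1 := by
      funext i
      rw [← hdiff z i, ← hdiff z' i, h]
    have h2 : z.2 = z'.2 := by
      funext i
      have h3 := congrFun (congrArg Prod.fst h) i
      simp only [hφ, h1] at h3
      omega
    exact Prod.ext h1 h2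
  have hmap : (T ×ˢ C).image φ ⊆ B ×ˢ B := by
    intro y hy
    obtain ⟨z, hz, rfl⟩ := mem_image.1 hy
    rw [mem_product] at hz
    have h1 := (hT z.1 hz.1).1
    have h2 := Fintype.mem_piFinset.1 hz.2
    rw [mem_product, hB, Fintype.mem_piFinset, Fintype.mem_piFinset]
    refine ⟨fun i => ?_, fun i => ?_⟩
    · have h3 := abs_le.1 (h1 i)
      have h4 := mem_range.1 (h2 i)
      rw [mem_range, hφ]
      simp only
      omega
    · have h3 := abs_le.1 (h1 i)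
      have h4 := mem_range.1 (h2 i)
      rw [mem_range, hφ]
      simp only
      omega
  have hcard : (T.card : ℝ) * (H : ℝ) ^ m = ∑ z ∈ T ×ˢ C, (1 : ℝ) := by
    rw [sum_const, card_product, hC, Fintype.card_piFinset_const, card_range, nsmul_eq_mul]
    simp
  have hstep : (T.card : ℝ) * (H : ℝ) ^ m ≤
      ∑ y ∈ B ×ˢ B, F (∑ i, ((y.1 i : ℝ) - y.2 i) * ω i) := by
    rw [hcard]
    calc ∑ z ∈ T ×ˢ C, (1 : ℝ) ≤ ∑ z ∈ T ×ˢ C, F (∑ i, (((φ z).1 i : ℝ) - (φ z).2 i) * ω i) := by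
          refine sum_le_sum fun z hz => ?_
          rw [mem_product] at hz
          obtain ⟨p, hp⟩ := (hT z.1 hz.1).2
          have h1 : ∑ i, (((φ z).1 i : ℝ) - (φ z).2 i) * ω i = ∑ i, (z.1 i : ℝ) * ω i := by
            refine sum_congr rfl fun i _ => ?_
            congr 1
            have := hdiff z i
            exact_mod_cast congrArg (fun n : ℤ => (n : ℝ)) this
          rw [h1]
          exact lower U _ p hU hp
      _ = ∑ y ∈ (T ×ˢ C).image φ, F (∑ i, ((y.1 i : ℝ) - y.2 i) * ω i) := by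
          rw [sum_image hinj]
      _ ≤ _ := sum_le_sum_of_subset_of_nonneg hmap fun _ _ _ => hF0 _
  refine hstep.trans (le_of_eq ?_)
  rw [sum_product, hF]
  simp only
  simp_rw [← Finset.mul_sum]
  congr 1
  have key : ((∑ b ∈ B, ∑ b' ∈ B, ‖∑ u ∈ range U, e (u * ∑ i, ((b i : ℝ) - b' i) * ω i)‖ ^ 2 : ℝ)
      : ℂ) = ((∑ u ∈ range U, ∑ v ∈ range U, ∏ i, G H (((u : ℝ) - v) * ω i) : ℝ) : ℂ) := by
    rw [Complex.ofReal_sum]
    simp_rw [Complex.ofReal_sum, ← box_sum m H, normSq_sum]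
    rw [← hB]
    calc ∑ b ∈ B, ∑ b' ∈ B, ∑ u ∈ range U, ∑ v ∈ range U,
          e (u * ∑ i, ((b i : ℝ) - b' i) * ω i - v * ∑ i, ((b i : ℝ) - b' i) * ω i)
        = ∑ b ∈ B, ∑ b' ∈ B, ∑ u ∈ range U, ∑ v ∈ range U,
          e (∑ i, (b i : ℝ) * (((u : ℝ) - v) * ω i) - ∑ i, (b' i : ℝ) * (((u : ℝ) - v) * ω i)) := by
          refine sum_congr rfl fun b _ => sum_congr rfl fun b' _ => sum_congr rfl fun u _ =>
            sum_congr rfl fun v _ => ?_
          congr 1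
          rw [← sub_mul, Finset.mul_sum, ← Finset.sum_sub_distrib]
          refine sum_congr rfl fun i _ => ?_
          ring
      _ = ∑ u ∈ range U, ∑ v ∈ range U, ∑ b ∈ B, ∑ b' ∈ B,
          e (∑ i, (b i : ℝ) * (((u : ℝ) - v) * ω i) - ∑ i, (b' i : ℝ) * (((u : ℝ) - v) * ω i)) := by
          have s1 : ∀ b ∈ B, ∑ b' ∈ B, ∑ u ∈ range U, ∑ v ∈ range U,
              e (∑ i, (b i : ℝ) * (((u : ℝ) - v) * ω i) -
                ∑ i, (b' i : ℝ) * (((u : ℝ) - v) * ω i)) =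
              ∑ u ∈ range U, ∑ v ∈ range U, ∑ b' ∈ B,
              e (∑ i, (b i : ℝ) * (((u : ℝ) - v) * ω i) -
                ∑ i, (b' i : ℝ) * (((u : ℝ) - v) * ω i)) := by
            intro b _
            rw [sum_comm]
            exact sum_congr rfl fun u _ => sum_comm
          rw [sum_congr rfl s1, sum_comm]
          exact sum_congr rfl fun u _ => sum_comm
  exact_mod_cast key

/-- folding a double sum -/
theorem fold (U : ℕ) (g : ℝ → ℝ) (hg : ∀ x, 0 ≤ g x) (hneg : ∀ x, g (-x) = g x) :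
    ∑ u ∈ range U, ∑ v ∈ range U, g ((u : ℝ) - v) ≤
      U * (g 0 + 2 * ∑ v ∈ Ico 1 U, g v) := by
  classical
  have h1 : ∀ u ∈ range U, ∑ v ∈ range U, g ((u : ℝ) - v) ≤ g 0 + 2 * ∑ v ∈ Ico 1 U, g v := by
    intro u hu
    have hu' := mem_range.1 hu
    have hsplit : range U = (range u) ∪ ({u} ∪ Ico (u + 1) U) := by
      ext x
      simp only [mem_union, mem_range, mem_singleton, mem_Ico]
      omega
    have hd1 : Disjoint (range u) ({u} ∪ Ico (u + 1) U) := by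
      rw [disjoint_left]
      intro x hx hx2
      simp only [mem_union, mem_range, mem_singleton, mem_Ico] at hx hx2
      omega
    have hd2 : Disjoint ({u} : Finset ℕ) (Ico (u + 1) U) := by
      rw [disjoint_left]
      intro x hx hx2
      simp only [mem_singleton, mem_Ico] at hx hx2
      omega
    have hgen : ∀ (S : Finset ℕ) (f : ℕ → ℕ), Set.InjOn f (S : Set ℕ) →
        (∀ x ∈ S, f x ∈ Ico 1 U ∧ g ((u : ℝ) - x) = g ((f x : ℕ) : ℝ)) →
        ∑ x ∈ S, g ((u : ℝ) - x) ≤ ∑ v ∈ Ico 1 U, g v := by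
      intro S f hf h
      calc ∑ x ∈ S, g ((u : ℝ) - x) = ∑ x ∈ S, g ((f x : ℕ) : ℝ) :=
            sum_congr rfl fun x hx => (h x hx).2
        _ = ∑ y ∈ S.image f, g (y : ℝ) := by rw [sum_image hf]
        _ ≤ _ := by
            refine sum_le_sum_of_subset_of_nonneg ?_ fun _ _ _ => hg _
            intro y hy
            obtain ⟨x, hx, rfl⟩ := mem_image.1 hy
            exact (h x hx).1
    rw [hsplit, sum_union hd1, sum_union hd2, sum_singleton, sub_self]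
    have h2 : ∑ x ∈ range u, g ((u : ℝ) - x) ≤ ∑ v ∈ Ico 1 U, g v := by
      refine hgen (range u) (fun x => u - x) ?_ ?_
      · intro x hx y hy hxy
        have hx' := mem_range.1 (mem_coe.1 hx)
        have hy' := mem_range.1 (mem_coe.1 hy)
        simp only at hxy
        omega
      · intro x hx
        have hx' := mem_range.1 hx
        refine ⟨mem_Ico.2 ⟨by omega, by omega⟩, ?_⟩
        rw [Nat.cast_sub hx'.le]
    have h3 : ∑ x ∈ Ico (u + 1) U, g ((u : ℝ) - x) ≤ ∑ v ∈ Ico 1 U, g v := by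
      refine hgen (Ico (u + 1) U) (fun x => x - u) ?_ ?_
      · intro x hx y hy hxy
        have hx' := mem_Ico.1 (mem_coe.1 hx)
        have hy' := mem_Ico.1 (mem_coe.1 hy)
        simp only at hxy
        omega
      · intro x hx
        have hx' := mem_Ico.1 hx
        refine ⟨mem_Ico.2 ⟨by omega, by omega⟩, ?_⟩
        rw [Nat.cast_sub (by omega : u ≤ x), ← hneg]
        congr 1
        ring
    linarith
  calc ∑ u ∈ range U, ∑ v ∈ range U, g ((u : ℝ) - v)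
      ≤ ∑ u ∈ range U, (g 0 + 2 * ∑ v ∈ Ico 1 U, g v) := sum_le_sum h1
    _ = U * (g 0 + 2 * ∑ v ∈ Ico 1 U, g v) := by
        rw [sum_const, card_range, nsmul_eq_mul]

/-- The Fourier bound, folded. -/
theorem count_le' (m H U : ℕ) (ω : Fin m → ℝ) (hU : 1 ≤ U)
    (T : Finset (Fin m → ℤ)) (hT : ∀ a ∈ T, (∀ i, |a i| ≤ (H : ℤ)) ∧
      ∃ p : ℤ, |(∑ i, (a i : ℝ) * ω i) - p| ≤ 1 / (6 * U)) :
    (T.card : ℝ) * (H : ℝ) ^ m ≤ 4 / (U : ℝ) *
      ((4 * (H : ℝ) ^ 2) ^ m + 2 * ∑ v ∈ Ico 1 U, ∏ i, G H ((v : ℝ) * ω i)) := by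
  have hU1 : (1 : ℝ) ≤ U := by exact_mod_cast hU
  refine (count_le m H U ω hU T hT).trans ?_
  have h1 := fold U (fun x => ∏ i, G H (x * ω i)) (fun x => prod_nonneg fun i _ => G_nonneg H _)
    (fun x => by
      refine prod_congr rfl fun i _ => ?_
      rw [neg_mul, G_neg])
  have h2 : ∏ i : Fin m, G H ((0 : ℝ) * ω i) ≤ (4 * (H : ℝ) ^ 2) ^ m := by
    calc ∏ i : Fin m, G H ((0 : ℝ) * ω i) ≤ ∏ i : Fin m, (4 * (H : ℝ) ^ 2) :=
          prod_le_prod (fun i _ => G_nonneg H _) fun i _ => G_triv H _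
      _ = _ := by rw [prod_const, card_univ, Fintype.card_fin]
  calc 4 / (U : ℝ) ^ 2 * ∑ u ∈ range U, ∑ v ∈ range U, ∏ i, G H (((u : ℝ) - v) * ω i)
      ≤ 4 / (U : ℝ) ^ 2 * (U * ((4 * (H : ℝ) ^ 2) ^ m +
          2 * ∑ v ∈ Ico 1 U, ∏ i, G H ((v : ℝ) * ω i))) := by
        refine mul_le_mul_of_nonneg_left (h1.trans ?_) (by positivity)
        exact mul_le_mul_of_nonneg_left (by linarith) (by positivity)
    _ = _ := by
        field_simp

end Pool.Agent.H160L
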