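import Mathlib
import Pool.Agent.H160L.Four

/-!
# The average of the Fejer kernels along a badly approximable line
-/

set_option autoImplicit false

namespace Pool.Agent.H160L

open Finset

/-- a sum over a well spaced set -/
theorem spaced (M n1 : ℝ) (hM : 0 < M) (hn1 : 0 < n1) (S : Finset ℕ) :
    (∀ n ∈ S, n1 ≤ (n : ℝ)) → (∀ n ∈ S, ∀ n' ∈ S, n < n' → M ≤ (n' : ℝ) - n) →
    ∀ N : ℝ, (∀ n ∈ S, (n : ℝ) ≤ N) →
      ∑ n ∈ S, 1 / Real.sqrt n ≤ 1 / Real.sqrt n1 + 2 / M * Real.sqrt N := by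
  classical
  refine Finset.induction_on_max S ?_ ?_
  · intro _ _ N _
    rw [sum_empty]
    positivity
  · intro a s hlt ih h1 h2 N hN
    have ha : a ∉ s := fun h => lt_irrefl _ (hlt a h)
    rw [sum_insert ha]
    have ha1 : n1 ≤ (a : ℝ) := h1 a (mem_insert_self _ _)
    have haN : (a : ℝ) ≤ N := hN a (mem_insert_self _ _)
    rcases s.eq_empty_or_nonempty with rfl | hne
    · rw [sum_empty, add_zero]
      have h3 : 1 / Real.sqrt a ≤ 1 / Real.sqrt n1 :=
        one_div_le_one_div_of_le (Real.sqrt_pos.2 hn1) (Real.sqrt_le_sqrt ha1)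
      have h4 : 0 ≤ 2 / M * Real.sqrt N := by positivity
      linarith
    · set a' := s.max' hne with ha'
      have ha's : a' ∈ s := s.max'_mem hne
      have h3 := ih (fun n hn => h1 n (mem_insert_of_mem hn))
        (fun n hn n' hn' => h2 n (mem_insert_of_mem hn) n' (mem_insert_of_mem hn')) (a' : ℝ)
        (fun n hn => by exact_mod_cast s.le_max' n hn)
      have h4 : M ≤ (a : ℝ) - a' :=
        h2 a' (mem_insert_of_mem ha's) a (mem_insert_self _ _) (hlt a' ha's)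
      have ha0 : 0 < (a : ℝ) := hn1.trans_le ha1
      have ha'0 : (0 : ℝ) ≤ a' := Nat.cast_nonneg _
      set x := Real.sqrt a with hx
      set y := Real.sqrt a' with hy
      have hx2 : x * x = a := Real.mul_self_sqrt ha0.le
      have hy2 : y * y = a' := Real.mul_self_sqrt ha'0
      have hx0 : 0 < x := Real.sqrt_pos.2 ha0
      have hy0 : 0 ≤ y := Real.sqrt_nonneg _
      have hyx : y ≤ x := Real.sqrt_le_sqrt (by linarith)
      have h5 : M ≤ 2 * x * (x - y) := by nlinarith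
      have h6 : 1 / x ≤ 2 / M * (x - y) := by
        rw [div_le_iff₀ hx0, div_mul_eq_mul_div, div_mul_eq_mul_div, le_div_iff₀ hM]
        nlinarith
      have h7 : x ≤ Real.sqrt N := Real.sqrt_le_sqrt haN
      have h8 : 2 / M * x ≤ 2 / M * Real.sqrt N := mul_le_mul_of_nonneg_left h7 (by positivity)
      calc 1 / x + ∑ n ∈ s, 1 / Real.sqrt n ≤ 2 / M * (x - y) + (1 / Real.sqrt n1 + 2 / M * y) :=
            add_le_add h6 h3
        _ = 1 / Real.sqrt n1 + 2 / M * x := by ring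
        _ ≤ _ := by linarith

/-- the weight of a cell -/
noncomputable def wt (k : ℤ) : ℝ := Real.sqrt (1 + |(k : ℝ)|) / (1 + (k : ℝ) ^ 2)

theorem wt_nonneg (k : ℤ) : 0 ≤ wt k := by unfold wt; positivity

theorem wt_summable : Summable wt := by
  have hb : ∀ x : ℝ, 0 ≤ x → Real.sqrt (1 + x) / (1 + x ^ 2) ≤ 2 * (1 / (1 + x) ^ (3 / 2 : ℝ)) := by
    intro x hx
    have h1 : (1 + x) ^ 2 ≤ 2 * (1 + x ^ 2) := by nlinarith [sq_nonneg (1 - x)]
    have h0 : 0 < 1 + x := by linarith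
    rw [Real.sqrt_eq_rpow, mul_one_div, div_le_div_iff₀ (by positivity) (by positivity),
      ← Real.rpow_add h0]
    norm_num
    exact h1
  have hs : Summable (fun n : ℕ => 2 * (1 / (1 + (n : ℝ)) ^ (3 / 2 : ℝ))) := by
    apply Summable.mul_left
    have h1 : Summable (fun n : ℕ => 1 / ((n : ℝ)) ^ (3 / 2 : ℝ)) :=
      Real.summable_one_div_nat_rpow.2 (by norm_num)
    have h2 := (summable_nat_add_iff 1).2 h1
    refine h2.congr fun n => ?_
    push_cast
    rw [add_comm]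
  have hn : Summable (fun n : ℕ => wt (n : ℤ)) := by
    refine Summable.of_nonneg_of_le (fun n => wt_nonneg _) (fun n => ?_) hs
    have := hb n (Nat.cast_nonneg n)
    unfold wt
    push_cast
    rwa [abs_of_nonneg (Nat.cast_nonneg n : (0 : ℝ) ≤ n)]
  have hneg : Summable (fun n : ℕ => wt (-(n : ℤ))) := by
    refine hn.congr fun n => ?_
    unfold wt
    push_cast
    rw [abs_neg, neg_sq]
  exact Summable.of_nat_of_neg hn hneg

theorem sqrt_prod (m : ℕ) (f : Fin m → ℝ) (hf : ∀ i, 0 ≤ f i) :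
    Real.sqrt (∏ i, f i) = ∏ i, Real.sqrt (f i) := by
  simp_rw [Real.sqrt_eq_rpow]
  exact (Real.finsetProd_rpow _ _ (fun i _ => hf i) _).symm

/-- The cell of a multiple. -/
noncomputable def cell (m H : ℕ) (ω : Fin m → ℝ) (n : ℕ) : Fin m → ℤ := fun i =>
  ⌊(H : ℝ) * ((n : ℝ) * ω i - round ((n : ℝ) * ω i))⌋

theorem cell_mem (m H : ℕ) (ω : Fin m → ℝ) (n : ℕ) :
    cell m H ω n ∈ Fintype.piFinset (fun _ : Fin m => Icc (-((H : ℤ) + 1)) ((H : ℤ) + 1)) := by
  rw [Fintype.mem_piFinset]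
  intro i
  rw [mem_Icc]
  set δ := (n : ℝ) * ω i - round ((n : ℝ) * ω i) with hδ
  have h1 : |δ| ≤ 1 / 2 := abs_sub_round _
  have h2 := abs_le.1 h1
  have hH0 : (0 : ℝ) ≤ H := Nat.cast_nonneg _
  have h3 : ((cell m H ω n i : ℤ) : ℝ) ≤ (H : ℝ) * δ := Int.floor_le _
  have h4 : (H : ℝ) * δ < (cell m H ω n i : ℤ) + 1 := Int.lt_floor_add_one _
  constructor
  · have h5 : (-((H : ℝ) + 1)) < (cell m H ω n i : ℤ) + 1 := by nlinarith
    have h6 : (-((H : ℤ) + 1)) < (cell m H ω n i : ℤ) + 1 := by exact_mod_cast h5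
    omega
  · have h5 : ((cell m H ω n i : ℤ) : ℝ) ≤ (H : ℝ) + 1 := by nlinarith
    exact_mod_cast h5

/-- The bound for the average of the Fejer kernels. -/
theorem sum_bound (m : ℕ) (hm : 1 ≤ m) (ω : Fin m → ℝ) (c : ℝ) (hc : 0 < c)
    (hbad : ∀ (n : ℕ) (p : Fin m → ℤ) (ρ : ℝ), 1 ≤ n → 0 ≤ ρ → ρ ≤ 1 →
      (∀ i, |(n : ℝ) * ω i - p i| ≤ ρ) → c ≤ n * ρ ^ m) :
    ∃ C : ℝ, 0 < C ∧ ∀ H : ℕ, 1 ≤ H → ∀ N : ℕ,
      ∑ n ∈ Icc 1 N, 1 / Real.sqrt n * ∏ i, G H ((n : ℝ) * ω i) ≤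
        C * ((H : ℝ) ^ (2 * m) * (1 / Real.sqrt H + Real.sqrt N / (H : ℝ) ^ m)) := by
  classical
  have hc1 : c ≤ 1 := by
    have := hbad 1 (fun i => round (ω i)) 1 le_rfl zero_le_one le_rfl (fun i => by
      rw [Nat.cast_one, one_mul]
      have := abs_sub_round (ω i)
      linarith)
    simpa using this
  set A : ℝ := ∑' k : ℤ, wt k with hA
  have hA0 : 0 ≤ A := tsum_nonneg wt_nonneg
  refine ⟨8 ^ m * (A + 1) ^ m * (2 / c + 1 / Real.sqrt c), by positivity, ?_⟩
  intro H hH N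
  have hH1 : (1 : ℝ) ≤ H := by exact_mod_cast hH
  have hH0 : (0 : ℝ) < H := by linarith
  set Bx := Fintype.piFinset (fun _ : Fin m => Icc (-((H : ℤ) + 1)) ((H : ℤ) + 1)) with hBx
  set P : (Fin m → ℤ) → ℝ := fun k => ∏ i, (1 + |(k i : ℝ)|) with hP
  have hP1 : ∀ k, 1 ≤ P k := fun k => by
    rw [hP]
    simp only
    calc (1 : ℝ) = ∏ i : Fin m, (1 : ℝ) := by simp
      _ ≤ ∏ i, (1 + |(k i : ℝ)|) := prod_le_prod (fun _ _ => zero_le_one) fun i _ => by
          linarith [abs_nonneg (k i : ℝ)]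
  have hPi : ∀ k i, 1 + |(k i : ℝ)| ≤ P k := fun k i => by
    rw [hP]
    simp only
    rw [← Finset.mul_prod_erase univ _ (mem_univ i)]
    have : 1 ≤ ∏ j ∈ univ.erase i, (1 + |(k j : ℝ)|) := by
      calc (1 : ℝ) = ∏ j ∈ univ.erase i, (1 : ℝ) := by simp
        _ ≤ _ := prod_le_prod (fun _ _ => zero_le_one) fun i _ => by
            linarith [abs_nonneg (k i : ℝ)]
    have h0 : 0 ≤ 1 + |(k i : ℝ)| := by positivity
    nlinarith
  -- position of the cell
  have hpos : ∀ (n : ℕ) (i : Fin m), |(H : ℝ) * ((n : ℝ) * ω i - round ((n : ℝ) * ω i))| ≤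
      1 + |(cell m H ω n i : ℝ)| := by
    intro n i
    have h1 : ((cell m H ω n i : ℤ) : ℝ) ≤ (H : ℝ) * ((n : ℝ) * ω i - round ((n : ℝ) * ω i)) :=
      Int.floor_le _
    have h2 : (H : ℝ) * ((n : ℝ) * ω i - round ((n : ℝ) * ω i)) < (cell m H ω n i : ℤ) + 1 :=
      Int.lt_floor_add_one _
    have h3 := le_abs_self ((cell m H ω n i : ℤ) : ℝ)
    have h4 := neg_abs_le ((cell m H ω n i : ℤ) : ℝ)
    rw [abs_le]
    constructor <;> linarith
  have hfirst : ∀ n : ℕ, 1 ≤ n → c * H / P (cell m H ω n) ≤ n := by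
    intro n hn
    have hn1 : (1 : ℝ) ≤ n := by exact_mod_cast hn
    have hPk := hP1 (cell m H ω n)
    rw [div_le_iff₀ (by linarith)]
    by_cases hle : P (cell m H ω n) ≤ H
    · have h1 : P (cell m H ω n) / H ≤ 1 := (div_le_one hH0).2 hle
      have h2 := hbad n (fun i => round ((n : ℝ) * ω i)) (P (cell m H ω n) / H) hn
        (by positivity) h1 (fun i => by
          rw [le_div_iff₀ hH0]
          have h3 := (hpos n i).trans (hPi _ i)
          rw [abs_mul, abs_of_pos hH0] at h3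
          linarith)
      have h3 : (P (cell m H ω n) / H) ^ m ≤ P (cell m H ω n) / H :=
        pow_le_of_le_one (by positivity) h1 (by omega)
      have h4 : c ≤ n * (P (cell m H ω n) / H) :=
        h2.trans (mul_le_mul_of_nonneg_left h3 (by positivity))
      calc c * H ≤ n * (P (cell m H ω n) / H) * H := mul_le_mul_of_nonneg_right h4 hH0.le
        _ = n * P (cell m H ω n) := by field_simp
    · push Not at hle
      nlinarith
  have hspace : ∀ n n' : ℕ, n < n' → cell m H ω n = cell m H ω n' →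
      c * (H : ℝ) ^ m ≤ (n' : ℝ) - n := by
    intro n n' hnn hk
    have h2 := hbad (n' - n) (fun i => round ((n' : ℝ) * ω i) - round ((n : ℝ) * ω i)) (1 / H)
      (by omega) (by positivity) ((div_le_one hH0).2 hH1) (fun i => by
        have h1 : ((cell m H ω n i : ℤ) : ℝ) ≤
          (H : ℝ) * ((n : ℝ) * ω i - round ((n : ℝ) * ω i)) := Int.floor_le _
        have h2 : (H : ℝ) * ((n : ℝ) * ω i - round ((n : ℝ) * ω i)) <
          (cell m H ω n i : ℤ) + 1 := Int.lt_floor_add_one _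
        have h3 : ((cell m H ω n' i : ℤ) : ℝ) ≤
          (H : ℝ) * ((n' : ℝ) * ω i - round ((n' : ℝ) * ω i)) := Int.floor_le _
        have h4 : (H : ℝ) * ((n' : ℝ) * ω i - round ((n' : ℝ) * ω i)) <
          (cell m H ω n' i : ℤ) + 1 := Int.lt_floor_add_one _
        rw [← hk] at h3 h4
        rw [Nat.cast_sub hnn.le]
        push_cast
        rw [le_div_iff₀ hH0]
        have h5 : |((n' : ℝ) - n) * ω i - (round ((n' : ℝ) * ω i) - round ((n : ℝ) * ω i))| * H =
            |((n' : ℝ) - n) * ω i * H - (round ((n' : ℝ) * ω i) - round ((n : ℝ) * ω i)) * H| := by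
          rw [← sub_mul, abs_mul, abs_of_pos hH0]
        rw [h5, abs_le]
        constructor <;> linarith)
    rw [Nat.cast_sub hnn.le, div_pow, one_pow, mul_one_div, le_div_iff₀ (by positivity)] at h2
    exact h2
  -- the sum over a cell
  have hcell : ∀ k ∈ Bx, ∑ n ∈ (Icc 1 N) with cell m H ω n = k, 1 / Real.sqrt n ≤
      Real.sqrt (P k) * (1 / Real.sqrt (c * H) + 2 / (c * (H : ℝ) ^ m) * Real.sqrt N) := by
    intro k _
    have hPk := hP1 k
    have h1 := spaced (c * (H : ℝ) ^ m) (c * H / P k) (by positivity) (by positivity)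
      ((Icc 1 N).filter (fun n => cell m H ω n = k))
      (fun n hn => by
        obtain ⟨h2, h3⟩ := mem_filter.1 hn
        rw [← h3]
        exact hfirst n (mem_Icc.1 h2).1)
      (fun n hn n' hn' hlt => by
        refine hspace n n' hlt ?_
        rw [(mem_filter.1 hn).2, (mem_filter.1 hn').2])
      N (fun n hn => by exact_mod_cast (mem_Icc.1 (mem_filter.1 hn).1).2)
    refine h1.trans ?_
    have h2 : 1 / Real.sqrt (c * H / P k) = Real.sqrt (P k) * (1 / Real.sqrt (c * H)) := by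
      rw [Real.sqrt_div (by positivity)]
      have : 0 < Real.sqrt (P k) := Real.sqrt_pos.2 (by linarith)
      have : 0 < Real.sqrt (c * H) := Real.sqrt_pos.2 (by positivity)
      field_simp
    have h3 : 1 ≤ Real.sqrt (P k) := by
      rw [← Real.sqrt_one]
      exact Real.sqrt_le_sqrt hPk
    have h4 : 0 ≤ 2 / (c * (H : ℝ) ^ m) * Real.sqrt N := by positivity
    rw [h2, mul_add]
    have h5 := mul_le_mul_of_nonneg_right h3 h4
    linarith
  -- assembling
  have hG : ∀ n : ℕ, ∏ i, G H ((n : ℝ) * ω i) ≤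
      (8 * (H : ℝ) ^ 2) ^ m * ∏ i, (1 / (1 + ((cell m H ω n i : ℤ) : ℝ) ^ 2)) := by
    intro n
    calc ∏ i, G H ((n : ℝ) * ω i) ≤
        ∏ i : Fin m, (8 * (H : ℝ) ^ 2 * (1 / (1 + ((cell m H ω n i : ℤ) : ℝ) ^ 2))) := by
          refine prod_le_prod (fun i _ => G_nonneg H _) fun i _ => ?_
          rw [mul_one_div]
          exact G_le H hH _
      _ = _ := by
          rw [prod_mul_distrib, prod_const, card_univ, Fintype.card_fin]
  set W : ℝ := 1 / Real.sqrt (c * H) + 2 / (c * (H : ℝ) ^ m) * Real.sqrt N with hW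
  have hW0 : 0 ≤ W := by positivity
  have hmain : ∑ n ∈ Icc 1 N, 1 / Real.sqrt n * ∏ i, G H ((n : ℝ) * ω i) ≤
      (8 * (H : ℝ) ^ 2) ^ m * (A ^ m * W) := by
    calc ∑ n ∈ Icc 1 N, 1 / Real.sqrt n * ∏ i, G H ((n : ℝ) * ω i)
        ≤ ∑ n ∈ Icc 1 N, 1 / Real.sqrt n *
            ((8 * (H : ℝ) ^ 2) ^ m * ∏ i, (1 / (1 + ((cell m H ω n i : ℤ) : ℝ) ^ 2))) :=
          sum_le_sum fun n _ => mul_le_mul_of_nonneg_left (hG n) (by positivity)
      _ = (8 * (H : ℝ) ^ 2) ^ m * ∑ n ∈ Icc 1 N,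
            (∏ i, (1 / (1 + ((cell m H ω n i : ℤ) : ℝ) ^ 2))) * (1 / Real.sqrt n) := by
          rw [Finset.mul_sum]
          exact sum_congr rfl fun n _ => by ring
      _ = (8 * (H : ℝ) ^ 2) ^ m * ∑ k ∈ Bx, ∑ n ∈ (Icc 1 N) with cell m H ω n = k,
            (∏ i, (1 / (1 + ((cell m H ω n i : ℤ) : ℝ) ^ 2))) * (1 / Real.sqrt n) := by
          rw [Finset.sum_fiberwise_of_maps_to (fun n _ => cell_mem m H ω n)]
      _ = (8 * (H : ℝ) ^ 2) ^ m * ∑ k ∈ Bx, (∏ i, (1 / (1 + ((k i : ℤ) : ℝ) ^ 2))) *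
            ∑ n ∈ (Icc 1 N) with cell m H ω n = k, (1 / Real.sqrt n) := by
          congr 1
          refine sum_congr rfl fun k _ => ?_
          rw [Finset.mul_sum]
          refine sum_congr rfl fun n hn => ?_
          rw [(mem_filter.1 hn).2]
      _ ≤ (8 * (H : ℝ) ^ 2) ^ m * ∑ k ∈ Bx, (∏ i, (1 / (1 + ((k i : ℤ) : ℝ) ^ 2))) *
            (Real.sqrt (P k) * W) := by
          refine mul_le_mul_of_nonneg_left (sum_le_sum fun k hk => ?_) (by positivity)
          exact mul_le_mul_of_nonneg_left (hcell k hk) (prod_nonneg fun i _ => by positivity)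
      _ = (8 * (H : ℝ) ^ 2) ^ m * ((∑ k ∈ Bx, ∏ i, wt (k i)) * W) := by
          rw [Finset.sum_mul]
          congr 1
          refine sum_congr rfl fun k _ => ?_
          rw [← mul_assoc]
          congr 1
          rw [hP]
          simp only
          rw [sqrt_prod m _ (fun i => by positivity), ← prod_mul_distrib]
          refine prod_congr rfl fun i _ => ?_
          unfold wt
          ring
      _ = (8 * (H : ℝ) ^ 2) ^ m *
            ((∏ i : Fin m, ∑ k ∈ Icc (-((H : ℤ) + 1)) ((H : ℤ) + 1), wt k) * W) := by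
          rw [Finset.prod_univ_sum]
      _ ≤ (8 * (H : ℝ) ^ 2) ^ m * (A ^ m * W) := by
          refine mul_le_mul_of_nonneg_left (mul_le_mul_of_nonneg_right ?_ hW0) (by positivity)
          rw [prod_const, card_univ, Fintype.card_fin]
          exact pow_le_pow_left₀ (sum_nonneg fun k _ => wt_nonneg k)
            (wt_summable.sum_le_tsum _ fun k _ => wt_nonneg k) m
  refine hmain.trans ?_
  have hsc : 0 < Real.sqrt c := Real.sqrt_pos.2 hc
  have hsH : 0 < Real.sqrt H := Real.sqrt_pos.2 hH0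
  have hW2 : W ≤ (2 / c + 1 / Real.sqrt c) *
      (1 / Real.sqrt H + Real.sqrt N / (H : ℝ) ^ m) := by
    have h1 : 1 / Real.sqrt (c * H) = 1 / Real.sqrt c * (1 / Real.sqrt H) := by
      rw [Real.sqrt_mul hc.le]
      field_simp
    have h2 : 2 / (c * (H : ℝ) ^ m) * Real.sqrt N = 2 / c * (Real.sqrt N / (H : ℝ) ^ m) := by
      field_simp
    rw [hW, h1, h2, add_mul, mul_add, mul_add]
    have h3 : 0 ≤ 2 / c * (1 / Real.sqrt H) := by positivity
    have h4 : 0 ≤ 1 / Real.sqrt c * (Real.sqrt N / (H : ℝ) ^ m) := by positivity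
    linarith
  have hA1 : A ^ m ≤ (A + 1) ^ m := pow_le_pow_left₀ hA0 (by linarith) m
  calc (8 * (H : ℝ) ^ 2) ^ m * (A ^ m * W)
      ≤ (8 * (H : ℝ) ^ 2) ^ m * ((A + 1) ^ m * ((2 / c + 1 / Real.sqrt c) *
          (1 / Real.sqrt H + Real.sqrt N / (H : ℝ) ^ m))) := by
        refine mul_le_mul_of_nonneg_left ?_ (by positivity)
        exact mul_le_mul hA1 hW2 hW0 (by positivity)
    _ = _ := by
        rw [mul_pow, ← pow_mul]
        ring

end Pool.Agent.H160L
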