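import Mathlib
import Pool.Agent.H160L.Sum
import Pool.Agent.H510R2.Div
import Pool.Agent.Results.MP_c307ca_nt.AlmostAllToHeight

/-!
# The error term
-/

set_option autoImplicit false

namespace Pool.Agent.H160L

open Finset
open Pool.Agent.Results.MP_c307ca_nt.AlmostAllToHeight (w w_pos w_anti w_summable)

/-- The Fourier bound, with a real width. -/
theorem count_D (m H : ℕ) (ω : Fin m → ℝ) (D : ℝ) (hD : 0 < D) (hD1 : 12 * D ≤ 1)
    (T : Finset (Fin m → ℤ)) (hT : ∀ a ∈ T, (∀ i, |a i| ≤ (H : ℤ)) ∧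
      ∃ p : ℤ, |(∑ i, (a i : ℝ) * ω i) - p| ≤ D) :
    (T.card : ℝ) * (H : ℝ) ^ m ≤ 48 * D *
      ((4 * (H : ℝ) ^ 2) ^ m + 2 * ∑ v ∈ Ico 1 ⌊1 / (6 * D)⌋₊, ∏ i, G H ((v : ℝ) * ω i)) := by
  have h1 : 2 ≤ 1 / (6 * D) := by
    rw [le_div_iff₀ (by positivity)]
    linarith
  set U := ⌊1 / (6 * D)⌋₊ with hU
  have h2 : (U : ℝ) ≤ 1 / (6 * D) := Nat.floor_le (by positivity)
  have h3 : 1 / (6 * D) < (U : ℝ) + 1 := Nat.lt_floor_add_one _
  have hU1 : 1 ≤ U := by
    rw [hU, Nat.one_le_floor_iff]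
    linarith
  have hU1' : (1 : ℝ) ≤ U := by exact_mod_cast hU1
  have h4 := count_le' m H U ω hU1 T (fun a ha => ⟨(hT a ha).1, by
    obtain ⟨p, hp⟩ := (hT a ha).2
    refine ⟨p, hp.trans ?_⟩
    rw [le_div_iff₀ (by positivity)]
    rw [le_div_iff₀ (by positivity)] at h2
    linarith⟩)
  refine h4.trans (mul_le_mul_of_nonneg_right ?_ ?_)
  · rw [div_le_iff₀ (by linarith)]
    have h5 : 1 / (12 * D) ≤ U := by
      have : 1 / (12 * D) = 1 / (6 * D) / 2 := by
        field_simp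
        norm_num
      rw [this]
      linarith
    rw [div_le_iff₀ (by positivity)] at h5
    linarith
  · have : 0 ≤ ∑ v ∈ Ico 1 U, ∏ i, G H ((v : ℝ) * ω i) :=
      sum_nonneg fun v _ => prod_nonneg fun i _ => G_nonneg H _
    positivity

/-- the reduced numerator -/
def qr (b q : ℕ) : ℕ := q / Nat.gcd q b

/-- the reduced denominator -/
def br (b q : ℕ) : ℕ := b / Nat.gcd q b

theorem qr_mul (b q : ℕ) : qr b q * Nat.gcd q b = q := Nat.div_mul_cancel (Nat.gcd_dvd_left q b)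

theorem br_mul (b q : ℕ) : br b q * Nat.gcd q b = b := Nat.div_mul_cancel (Nat.gcd_dvd_right q b)

theorem qr_pos (b q : ℕ) (hq : 1 ≤ q) : 1 ≤ qr b q := by
  have h := qr_mul b q
  by_contra h1
  have : qr b q = 0 := by omega
  rw [this, zero_mul] at h
  omega

theorem br_pos (b q : ℕ) (hb : 1 ≤ b) : 1 ≤ br b q := by
  have h := br_mul b q
  by_contra h1
  have : br b q = 0 := by omega
  rw [this, zero_mul] at h
  omega

theorem cross (b q : ℕ) : (qr b q : ℝ) * b = q * br b q := by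
  have h1 := qr_mul b q
  have h2 := br_mul b q
  have : qr b q * b = q * br b q := by
    calc qr b q * b = qr b q * (br b q * Nat.gcd q b) := by rw [h2]
      _ = (qr b q * Nat.gcd q b) * br b q := by ring
      _ = q * br b q := by rw [h1]
  exact_mod_cast this

theorem sq_w_le (ε : ℝ) (hε : 0 < ε) (q : ℕ) :
    (q : ℝ) * (q * w ε q) ≤ 1 / Real.log 2 ^ (1 + ε) := by
  have hl : 0 < Real.log 2 := Real.log_pos (by norm_num)
  have h1 : (q : ℝ) ≤ ((max q 2 : ℕ) : ℝ) := by exact_mod_cast le_max_left q 2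
  have h2 : (2 : ℝ) ≤ ((max q 2 : ℕ) : ℝ) := by exact_mod_cast le_max_right q 2
  have h3 : Real.log 2 ^ (1 + ε) ≤ Real.log ((max q 2 : ℕ) : ℝ) ^ (1 + ε) :=
    Real.rpow_le_rpow hl.le (Real.log_le_log (by norm_num) h2) (by linarith)
  have h4 : 0 < Real.log 2 ^ (1 + ε) := by positivity
  unfold w
  set y := ((max q 2 : ℕ) : ℝ) with hy
  have hy0 : 0 < y := by linarith
  have h5 : (q : ℝ) * (q * (1 / (y ^ 2 * Real.log y ^ (1 + ε)))) =
      (q / y) ^ 2 * (1 / Real.log y ^ (1 + ε)) := by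
    have : 0 < Real.log y ^ (1 + ε) := h4.trans_le h3
    field_simp
  rw [h5]
  have h6 : (q / y) ^ 2 ≤ 1 := by
    have : (q : ℝ) / y ≤ 1 := (div_le_one hy0).2 h1
    exact pow_le_one₀ (by positivity) this
  calc (q / y) ^ 2 * (1 / Real.log y ^ (1 + ε)) ≤ 1 * (1 / Real.log 2 ^ (1 + ε)) := by
        refine mul_le_mul h6 (one_div_le_one_div_of_le h4 h3) ?_ zero_le_one
        have : 0 < Real.log y ^ (1 + ε) := h4.trans_le h3
        positivity
    _ = _ := one_mul _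

/-- The error term. -/
theorem err (m : ℕ) (hm : 1 ≤ m) (ω : Fin m → ℝ) (c0 : ℝ) (hc0 : 0 < c0)
    (hbad : ∀ (n : ℕ) (p : Fin m → ℤ) (ρ : ℝ), 1 ≤ n → 0 ≤ ρ → ρ ≤ 1 →
      (∀ i, |(n : ℝ) * ω i - p i| ≤ ρ) → c0 ≤ n * ρ ^ m)
    (ε τ c : ℝ) (hε : 0 < ε) (hτ : 0 < τ) (hc : 0 < c) :
    ∃ C : ℝ, 0 < C ∧ ∀ H : ℕ, 1 ≤ H → ∀ b : ℕ, 1 ≤ b → ∀ X : ℕ,
      ∑ q ∈ Icc 2 X, ((q : ℝ) * w ε q) *
        ∑ v ∈ Ico 1 ⌊1 / (6 * (c * br b q * (q * w ε q)))⌋₊,
          ∏ i, G H ((v : ℝ) * ((qr b q : ℝ) * ω i)) ≤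
      C * ((b : ℝ) ^ τ / Real.sqrt b) * (1 / (6 * c * w ε X)) ^ τ *
        ((H : ℝ) ^ (2 * m) * (1 / Real.sqrt H +
          Real.sqrt (1 / (6 * c * w ε X) / b) / (H : ℝ) ^ m)) := by
  classical
  obtain ⟨Cs, hCs, hsum⟩ := sum_bound m hm ω c0 hc0 hbad
  obtain ⟨Cd, hCd, hdiv⟩ := Pool.Agent.H510R2.divisor_bound τ hτ
  have hl : 0 < Real.log 2 := Real.log_pos (by norm_num)
  set lam : ℝ := 1 / Real.log 2 ^ (1 + ε) with hlam
  have hlam0 : 0 < lam := by positivity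
  set C1 : ℝ := Real.sqrt (lam / (6 * c)) with hC1
  have hC10 : 0 < C1 := Real.sqrt_pos.2 (by positivity)
  refine ⟨C1 * Cd * Cd * Cs, by positivity, ?_⟩
  intro H hH b hb X
  have hb1 : (1 : ℝ) ≤ b := by exact_mod_cast hb
  have hb0 : (0 : ℝ) < b := by linarith
  have hwX := w_pos ε X
  set Y : ℝ := 1 / (6 * c * w ε X) with hY
  have hY0 : 0 < Y := by positivity
  set N := ⌊Y / b⌋₊ with hN
  set h : ℕ → ℝ := fun n => 1 / Real.sqrt n * ∏ i, G H ((n : ℝ) * ω i) with hh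
  have hh0 : ∀ n, 0 ≤ h n := fun n => by
    rw [hh]
    exact mul_nonneg (by positivity) (prod_nonneg fun i _ => G_nonneg H _)
  set Uq : ℕ → ℕ := fun q => ⌊1 / (6 * (c * br b q * (q * w ε q)))⌋₊ with hUq
  -- facts on a pair
  have hpair : ∀ q v : ℕ, q ∈ Icc 2 X → v ∈ Ico 1 (Uq q) →
      1 ≤ v * qr b q ∧ (((v * qr b q : ℕ) : ℝ) ≤ Y / b) ∧
      (q : ℝ) * w ε q ≤ C1 / (Real.sqrt (v * qr b q : ℕ) * Real.sqrt b) := by
    intro q v hq hv
    have hq' := mem_Icc.1 hq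
    have hv' := mem_Ico.1 hv
    have hq1 : (2 : ℝ) ≤ q := by exact_mod_cast hq'.1
    have hqr := qr_pos b q (by omega)
    have hbr := br_pos b q hb
    have hqr1 : (1 : ℝ) ≤ qr b q := by exact_mod_cast hqr
    have hbr1 : (1 : ℝ) ≤ br b q := by exact_mod_cast hbr
    have hw := w_pos ε q
    have hcr := cross b q
    have hn1 : 1 ≤ v * qr b q := Nat.mul_pos hv'.1 hqr
    have hvU : (v : ℝ) ≤ 1 / (6 * (c * br b q * (q * w ε q))) := by
      have h1 : (v : ℝ) ≤ (Uq q : ℕ) := by exact_mod_cast hv'.2.le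
      exact h1.trans (Nat.floor_le (by positivity))
    rw [le_div_iff₀ (by positivity)] at hvU
    -- v q' b <= 1/(6 c w)
    have hkey : (v : ℝ) * (qr b q) * b * (6 * c * w ε q) ≤ 1 := by
      calc (v : ℝ) * (qr b q) * b * (6 * c * w ε q) = v * ((qr b q) * b) * (6 * c * w ε q) := by
            ring
        _ = v * (q * br b q) * (6 * c * w ε q) := by rw [hcr]
        _ = v * (6 * (c * br b q * (q * w ε q))) := by ring
        _ ≤ 1 := hvU
    refine ⟨hn1, ?_, ?_⟩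
    · rw [hY, le_div_iff₀ hb0, le_div_iff₀ (by positivity)]
      push_cast
      refine le_trans ?_ hkey
      refine mul_le_mul_of_nonneg_left ?_ (by positivity)
      exact mul_le_mul_of_nonneg_left (w_anti ε hε hq'.2) (by positivity)
    · have hn0 : (0 : ℝ) < ((v * qr b q : ℕ) : ℝ) := by exact_mod_cast hn1
      rw [← Real.sqrt_mul hn0.le, le_div_iff₀ (Real.sqrt_pos.2 (by positivity)), hC1,
        ← Real.sqrt_sq (by positivity : (0 : ℝ) ≤ (q : ℝ) * w ε q),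
        ← Real.sqrt_mul (by positivity)]
      refine Real.sqrt_le_sqrt ?_
      rw [le_div_iff₀ (by positivity)]
      push_cast
      have h2 := sq_w_le ε hε q
      calc ((q : ℝ) * w ε q) ^ 2 * (v * qr b q * b) * (6 * c)
          = ((q : ℝ) * (q * w ε q)) * ((v : ℝ) * (qr b q) * b * (6 * c * w ε q)) := by ring
        _ ≤ ((q : ℝ) * (q * w ε q)) * 1 := mul_le_mul_of_nonneg_left hkey (by positivity)
        _ ≤ lam := by rw [mul_one]; exact h2
  -- step 1
  have hstep1 : ∑ q ∈ Icc 2 X, ((q : ℝ) * w ε q) * ∑ v ∈ Ico 1 (Uq q),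
      ∏ i, G H ((v : ℝ) * ((qr b q : ℝ) * ω i)) ≤
      C1 / Real.sqrt b * ∑ z ∈ (Icc 2 X).sigma (fun q => Ico 1 (Uq q)), h (z.2 * qr b z.1) := by
    rw [Finset.sum_sigma, Finset.mul_sum]
    refine sum_le_sum fun q hq => ?_
    rw [Finset.mul_sum, Finset.mul_sum]
    refine sum_le_sum fun v hv => ?_
    obtain ⟨h1, h2, h3⟩ := hpair q v hq hv
    have h4 : ∏ i, G H ((v : ℝ) * ((qr b q : ℝ) * ω i)) =
        ∏ i, G H (((v * qr b q : ℕ) : ℝ) * ω i) := by
      refine prod_congr rfl fun i _ => ?_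
      congr 1
      push_cast
      ring
    have h5 : 0 ≤ ∏ i, G H (((v * qr b q : ℕ) : ℝ) * ω i) := prod_nonneg fun i _ => G_nonneg H _
    rw [h4, hh]
    simp only
    refine (mul_le_mul_of_nonneg_right h3 h5).trans (le_of_eq ?_)
    rw [← mul_assoc]
    congr 1
    have h6 : (0 : ℝ) < ((v * qr b q : ℕ) : ℝ) := by exact_mod_cast h1
    have h7 := Real.sqrt_pos.2 h6
    have h8 := Real.sqrt_pos.2 hb0
    field_simp
  -- step 2
  have hstep2 : ∑ z ∈ (Icc 2 X).sigma (fun q => Ico 1 (Uq q)), h (z.2 * qr b z.1) ≤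
      (b.divisors.card : ℝ) * ((Cd * Y ^ τ) * ∑ n ∈ Icc 1 N, h n) := by
    have hmaps : ∀ z ∈ (Icc 2 X).sigma (fun q => Ico 1 (Uq q)), z.2 * qr b z.1 ∈ Icc 1 N := by
      intro z hz
      rw [mem_sigma] at hz
      obtain ⟨h1, h2, _⟩ := hpair z.1 z.2 hz.1 hz.2
      rw [mem_Icc]
      exact ⟨h1, Nat.le_floor h2⟩
    rw [← Finset.sum_fiberwise_of_maps_to hmaps, Finset.mul_sum, Finset.mul_sum]
    refine sum_le_sum fun n hn => ?_
    have hn' := mem_Icc.1 hn
    have hn1 : (1 : ℝ) ≤ n := by exact_mod_cast hn'.1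
    have hnY : (n : ℝ) ≤ Y := by
      have h1 : (n : ℝ) ≤ N := by exact_mod_cast hn'.2
      have h2 : (N : ℝ) ≤ Y / b := Nat.floor_le (by positivity)
      exact (h1.trans h2).trans (div_le_self hY0.le hb1)
    have hcard : (((Icc 2 X).sigma (fun q => Ico 1 (Uq q))).filter
        (fun z => z.2 * qr b z.1 = n)).card ≤ (n.divisors ×ˢ b.divisors).card := by
      refine card_le_card_of_injOn (fun z => (qr b z.1, Nat.gcd z.1 b)) ?_ ?_
      · intro z hz
        obtain ⟨h1, h2⟩ := mem_filter.1 (mem_coe.1 hz)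
        rw [mem_coe, mem_product]
        refine ⟨Nat.mem_divisors.2 ⟨⟨z.2, ?_⟩, by omega⟩,
          Nat.mem_divisors.2 ⟨Nat.gcd_dvd_right _ _, by omega⟩⟩
        rw [← h2, mul_comm]
      · intro z hz z' hz' heq
        obtain ⟨h1, h2⟩ := mem_filter.1 (mem_coe.1 hz)
        obtain ⟨h1', h2'⟩ := mem_filter.1 (mem_coe.1 hz')
        simp only [Prod.mk.injEq] at heq
        have hq : z.1 = z'.1 := by
          rw [← qr_mul b z.1, ← qr_mul b z'.1, heq.1, heq.2]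
        have hq1 : 1 ≤ qr b z.1 := qr_pos b z.1 (by
          have := (mem_Icc.1 (mem_sigma.1 h1).1).1
          omega)
        have hv : z.2 = z'.2 := by
          rw [← hq] at h2'
          exact Nat.eq_of_mul_eq_mul_right hq1 (h2.trans h2'.symm)
        obtain ⟨z1, z2⟩ := z
        obtain ⟨z1', z2'⟩ := z'
        simp only at hq hv
        subst hq
        subst hv
        rfl
    calc ∑ z ∈ ((Icc 2 X).sigma (fun q => Ico 1 (Uq q))) with z.2 * qr b z.1 = n,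
          h (z.2 * qr b z.1)
        = ∑ z ∈ ((Icc 2 X).sigma (fun q => Ico 1 (Uq q))) with z.2 * qr b z.1 = n, h n := by
          refine sum_congr rfl fun z hz => ?_
          rw [(mem_filter.1 hz).2]
      _ = (((Icc 2 X).sigma (fun q => Ico 1 (Uq q))).filter
          (fun z => z.2 * qr b z.1 = n)).card * h n := by rw [sum_const, nsmul_eq_mul]
      _ ≤ ((n.divisors ×ˢ b.divisors).card : ℕ) * h n :=
          mul_le_mul_of_nonneg_right (by exact_mod_cast hcard) (hh0 n)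
      _ = (b.divisors.card : ℝ) * ((n.divisors.card : ℝ) * h n) := by
          rw [card_product]
          push_cast
          ring
      _ ≤ (b.divisors.card : ℝ) * (Cd * Y ^ τ * h n) := by
          refine mul_le_mul_of_nonneg_left (mul_le_mul_of_nonneg_right ?_ (hh0 n)) (by positivity)
          refine (hdiv n hn'.1).trans (mul_le_mul_of_nonneg_left ?_ hCd.le)
          exact Real.rpow_le_rpow (by positivity) hnY hτ.le
  have hs3 := hsum H hH N
  have hN2 : Real.sqrt N ≤ Real.sqrt (Y / b) :=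
    Real.sqrt_le_sqrt (Nat.floor_le (by positivity))
  have hH1 : (1 : ℝ) ≤ H := by exact_mod_cast hH
  have hH0 : (0 : ℝ) < H := by linarith
  have hs4 : ∑ n ∈ Icc 1 N, h n ≤ Cs * ((H : ℝ) ^ (2 * m) * (1 / Real.sqrt H +
      Real.sqrt (Y / b) / (H : ℝ) ^ m)) := by
    refine hs3.trans (mul_le_mul_of_nonneg_left (mul_le_mul_of_nonneg_left ?_ (by positivity))
      hCs.le)
    have := div_le_div_of_nonneg_right hN2 (by positivity : (0 : ℝ) ≤ (H : ℝ) ^ m)
    linarith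
  have hsn : 0 ≤ ∑ n ∈ Icc 1 N, h n := sum_nonneg fun n _ => hh0 n
  have hdb := hdiv b hb
  calc ∑ q ∈ Icc 2 X, ((q : ℝ) * w ε q) * ∑ v ∈ Ico 1 (Uq q),
      ∏ i, G H ((v : ℝ) * ((qr b q : ℝ) * ω i))
      ≤ C1 / Real.sqrt b * ((b.divisors.card : ℝ) * ((Cd * Y ^ τ) * ∑ n ∈ Icc 1 N, h n)) :=
        hstep1.trans (mul_le_mul_of_nonneg_left hstep2 (by positivity))
    _ ≤ C1 / Real.sqrt b * ((Cd * (b : ℝ) ^ τ) * ((Cd * Y ^ τ) *
          (Cs * ((H : ℝ) ^ (2 * m) * (1 / Real.sqrt H +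
            Real.sqrt (Y / b) / (H : ℝ) ^ m))))) := by
        refine mul_le_mul_of_nonneg_left ?_ (by positivity)
        refine mul_le_mul hdb ?_ (by positivity) (by positivity)
        exact mul_le_mul_of_nonneg_left hs4 (by positivity)
    _ = _ := by ring

end Pool.Agent.H160L
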