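import Mathlib
import Pool.Agent.H160L.Err

/-!
# Lang's inequality for almost all elements of a module
-/

set_option autoImplicit false

namespace Pool.Agent.H160L

open Finset Filter
open Pool.Agent.Results.MP_c307ca_nt.AlmostAllToHeight (w w_pos w_anti w_summable)

/-- lower bound for the approximation function -/
theorem Y_bound (ε τ c : ℝ) (hε : 0 < ε) (hτ : 0 < τ) (hc : 0 < c) :
    ∃ C : ℝ, 0 < C ∧ ∀ X : ℕ, 1 ≤ X → 1 / (6 * c * w ε X) ≤ C * (X : ℝ) ^ (2 + τ) := by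
  set τ' := τ / (1 + ε) with hτ'
  have hτ'0 : 0 < τ' := by positivity
  refine ⟨1 / (6 * c) * ((1 / τ') ^ (1 + ε) * 2 ^ (2 + τ)), by positivity, ?_⟩
  intro X hX
  have hX1 : (1 : ℝ) ≤ X := by exact_mod_cast hX
  unfold w
  set y := ((max X 2 : ℕ) : ℝ) with hy
  have hy2 : (2 : ℝ) ≤ y := by
    have : 2 ≤ max X 2 := le_max_right _ _
    rw [hy]
    exact_mod_cast this
  have hy0 : 0 < y := by linarith
  have hyX : y ≤ 2 * X := by
    have : max X 2 ≤ 2 * X := by omega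
    rw [hy]
    exact_mod_cast this
  have hlog : 0 < Real.log y := Real.log_pos (by linarith)
  have h1 : Real.log y ≤ y ^ τ' / τ' := Real.log_le_rpow_div hy0.le hτ'0
  have h2 : Real.log y ^ (1 + ε) ≤ (y ^ τ' / τ') ^ (1 + ε) :=
    Real.rpow_le_rpow hlog.le h1 (by linarith)
  have h3 : (y ^ τ' / τ') ^ (1 + ε) = (1 / τ') ^ (1 + ε) * y ^ τ := by
    rw [div_eq_mul_one_div, Real.mul_rpow (by positivity) (by positivity), ← Real.rpow_mul hy0.le,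
      hτ', div_mul_cancel₀ _ (by positivity), mul_comm]
  have h4 : 1 / (6 * c * (1 / (y ^ 2 * Real.log y ^ (1 + ε)))) =
      1 / (6 * c) * (y ^ 2 * Real.log y ^ (1 + ε)) := by
    have : 0 < Real.log y ^ (1 + ε) := by positivity
    field_simp
  rw [h4]
  calc 1 / (6 * c) * (y ^ 2 * Real.log y ^ (1 + ε))
      ≤ 1 / (6 * c) * (y ^ 2 * ((1 / τ') ^ (1 + ε) * y ^ τ)) := by
        rw [← h3]
        gcongr
    _ = 1 / (6 * c) * ((1 / τ') ^ (1 + ε) * y ^ (2 + τ)) := by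
        rw [Real.rpow_add hy0, Real.rpow_two]
        ring
    _ ≤ 1 / (6 * c) * ((1 / τ') ^ (1 + ε) * (2 * X) ^ (2 + τ)) := by
        have := Real.rpow_le_rpow hy0.le hyX (by linarith : (0 : ℝ) ≤ 2 + τ)
        gcongr
    _ = _ := by
        rw [Real.mul_rpow (by norm_num) (by positivity)]
        ring

/-- a power beats a constant -/
theorem eventually_pow (A η β : ℝ) (hη : 0 < η) (hβ : 0 < β) :
    ∀ᶠ H : ℕ in atTop, A ≤ η * (H : ℝ) ^ β := by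
  have h1 : Tendsto (fun H : ℕ => (H : ℝ) ^ β) atTop atTop :=
    (tendsto_rpow_atTop hβ).comp tendsto_natCast_atTop_atTop
  filter_upwards [h1.eventually_ge_atTop (A / η)] with H hH
  rwa [div_le_iff₀ hη, mul_comm] at hH

/-- The count for the large heights. -/
theorem large_A (m : ℕ) (hm : 1 ≤ m) (ω : Fin m → ℝ) (c0 : ℝ) (hc0 : 0 < c0)
    (hbad : ∀ (n : ℕ) (p : Fin m → ℤ) (ρ : ℝ), 1 ≤ n → 0 ≤ ρ → ρ ≤ 1 →
      (∀ i, |(n : ℝ) * ω i - p i| ≤ ρ) → c0 ≤ n * ρ ^ m)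
    (κ ε η : ℝ) (hκ0 : 0 ≤ κ) (hκ : κ < m) (hε : 0 < ε) (hη : 0 < η) :
    ∃ c : ℝ, 0 < c ∧ ∀ᶠ H : ℕ in atTop, ∀ T : Finset (Fin m → ℤ),
      (∀ a ∈ T, (∀ i, |a i| ≤ (H : ℤ)) ∧ ∃ (p : ℤ) (q : ℕ), 2 ≤ q ∧ (q : ℝ) ≤ (H : ℝ) ^ κ ∧
        |∑ i, (a i : ℝ) * ω i - (p : ℝ) / q| ≤ c * w ε q) →
      (T.card : ℝ) ≤ η * (H : ℝ) ^ m := by
  classical
  set Z : ℝ := ∑' q : ℕ, (q : ℝ) * w ε q with hZ
  have hZ0 : 0 ≤ Z := tsum_nonneg fun q => mul_nonneg (Nat.cast_nonneg _) (w_pos ε q).le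
  have hl : 0 < Real.log 2 := Real.log_pos (by norm_num)
  set lam : ℝ := 1 / Real.log 2 ^ (1 + ε) with hlam
  have hlam0 : 0 < lam := by positivity
  set c : ℝ := min (1 / (12 * lam)) (η / (96 * 4 ^ m * (Z + 1))) with hc
  have hcpos : 0 < c := lt_min (by positivity) (by positivity)
  have hc1 : 12 * (c * lam) ≤ 1 := by
    have : c ≤ 1 / (12 * lam) := min_le_left _ _
    rw [le_div_iff₀ (by positivity)] at this
    linarith
  have hc2 : 48 * c * Z * 4 ^ m ≤ η / 2 := by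
    have : c ≤ η / (96 * 4 ^ m * (Z + 1)) := min_le_right _ _
    rw [le_div_iff₀ (by positivity)] at this
    have h4 : (0 : ℝ) < 4 ^ m := by positivity
    have h5 : 0 ≤ c * 4 ^ m := by positivity
    nlinarith
  -- the exponent
  obtain ⟨τ, hτ0, hτ1, hτ2⟩ : ∃ τ : ℝ, 0 < τ ∧ κ * (2 + τ) * τ < 1 / 2 ∧
      κ * (2 + τ) * (τ + 1 / 2) < m := by
    have hcont1 : ContinuousAt (fun τ : ℝ => κ * (2 + τ) * τ) 0 := by fun_prop
    have hcont2 : ContinuousAt (fun τ : ℝ => κ * (2 + τ) * (τ + 1 / 2)) 0 := by fun_prop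
    have e1 : ∀ᶠ τ : ℝ in nhds 0, κ * (2 + τ) * τ < 1 / 2 :=
      hcont1.eventually_lt_const (by norm_num)
    have e2 : ∀ᶠ τ : ℝ in nhds 0, κ * (2 + τ) * (τ + 1 / 2) < m := by
      refine hcont2.eventually_lt_const ?_
      simp only
      linarith
    have e3 : ∀ᶠ τ : ℝ in nhdsWithin 0 (Set.Ioi 0), (0 < τ ∧ κ * (2 + τ) * τ < 1 / 2 ∧
      κ * (2 + τ) * (τ + 1 / 2) < m) := by
      filter_upwards [self_mem_nhdsWithin, nhdsWithin_le_nhds e1, nhdsWithin_le_nhds e2] with τ h1 h2 h3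
      exact ⟨h1, h2, h3⟩
    exact e3.exists
  obtain ⟨Ce, hCe, herr⟩ := err m hm ω c0 hc0 hbad ε τ c hε hτ0 hcpos
  obtain ⟨Cy, hCy, hYb⟩ := Y_bound ε τ c hε hτ0 hcpos
  set β1 : ℝ := 1 / 2 - κ * (2 + τ) * τ with hβ1
  set β2 : ℝ := m - κ * (2 + τ) * (τ + 1 / 2) with hβ2
  have hE1 := eventually_pow (96 * c * Ce * Cy ^ τ) (η / 4) β1 (by positivity) (by linarith)
  have hE2 := eventually_pow (96 * c * Ce * Cy ^ (τ + 1 / 2)) (η / 4) β2 (by positivity)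
    (by linarith)
  refine ⟨c, hcpos, ?_⟩
  filter_upwards [hE1, hE2, eventually_ge_atTop 1] with H hH1 hH2 hH T hT
  have hHr : (1 : ℝ) ≤ H := by exact_mod_cast hH
  have hH0 : (0 : ℝ) < H := by linarith
  set X := ⌊(H : ℝ) ^ κ⌋₊ with hX
  have hXle : (X : ℝ) ≤ (H : ℝ) ^ κ := Nat.floor_le (by positivity)
  have hX1 : 1 ≤ X := by
    rw [hX, Nat.one_le_floor_iff]
    exact Real.one_le_rpow hHr hκ0
  set Y : ℝ := 1 / (6 * c * w ε X) with hY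
  have hwX := w_pos ε X
  have hY0 : 0 < Y := by positivity
  have hYle : Y ≤ Cy * (H : ℝ) ^ (κ * (2 + τ)) := by
    refine (hYb X hX1).trans (mul_le_mul_of_nonneg_left ?_ hCy.le)
    rw [Real.rpow_mul hH0.le]
    exact Real.rpow_le_rpow (Nat.cast_nonneg _) hXle (by linarith)
  -- splitting
  set Tq : ℕ → Finset (Fin m → ℤ) := fun q => T.filter (fun a => ∃ p : ℤ,
    |∑ i, (a i : ℝ) * ω i - (p : ℝ) / q| ≤ c * w ε q) with hTq
  have hcover : T ⊆ (Icc 2 X).biUnion Tq := by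
    intro a ha
    obtain ⟨_, p, q, hq, hqX, hpq⟩ := hT a ha
    rw [mem_biUnion]
    exact ⟨q, mem_Icc.2 ⟨hq, Nat.le_floor hqX⟩, mem_filter.2 ⟨ha, p, hpq⟩⟩
  have hq1 : ∀ q ∈ Icc 2 X, ((Tq q).card : ℝ) * (H : ℝ) ^ m ≤
      48 * c * ((q : ℝ) * w ε q) * (4 * (H : ℝ) ^ 2) ^ m + 96 * c * (((q : ℝ) * w ε q) *
        ∑ v ∈ Ico 1 ⌊1 / (6 * (c * br 1 q * (q * w ε q)))⌋₊,
          ∏ i, G H ((v : ℝ) * ((qr 1 q : ℝ) * ω i))) := by
    intro q hq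
    have hq2 : 2 ≤ q := (mem_Icc.1 hq).1
    have hq2r : (2 : ℝ) ≤ q := by exact_mod_cast hq2
    have hw := w_pos ε q
    have e1 : br 1 q = 1 := by unfold br; simp
    have e2 : qr 1 q = q := by unfold qr; simp
    have hD0 : 0 < c * (q * w ε q) := by positivity
    have hD1 : 12 * (c * (q * w ε q)) ≤ 1 := by
      have h1 := sq_w_le ε hε q
      have h2 : (q : ℝ) * w ε q ≤ lam := by
        refine le_trans ?_ h1
        have : 0 ≤ (q : ℝ) * w ε q := by positivity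
        nlinarith
      have h3 : c * (q * w ε q) ≤ c * lam := mul_le_mul_of_nonneg_left h2 hcpos.le
      linarith
    have h1 := count_D m H (fun i => (q : ℝ) * ω i) (c * (q * w ε q)) hD0 hD1 (Tq q) (fun a ha => by
      obtain ⟨ha1, p, hp⟩ := mem_filter.1 ha
      refine ⟨(hT a ha1).1, p, ?_⟩
      have h2 : ∑ i, (a i : ℝ) * ((q : ℝ) * ω i) - p = q * (∑ i, (a i : ℝ) * ω i - (p : ℝ) / q) := by
        rw [mul_sub, Finset.mul_sum]
        congr 1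
        · exact sum_congr rfl fun i _ => by ring
        · field_simp
      rw [h2, abs_mul, abs_of_nonneg (by positivity : (0 : ℝ) ≤ q)]
      calc (q : ℝ) * |∑ i, (a i : ℝ) * ω i - (p : ℝ) / q| ≤ q * (c * w ε q) :=
            mul_le_mul_of_nonneg_left hp (by positivity)
        _ = c * (q * w ε q) := by ring)
    rw [e1, e2, Nat.cast_one, mul_one]
    refine h1.trans (le_of_eq ?_)
    ring
  have hsum : (T.card : ℝ) * (H : ℝ) ^ m ≤ 48 * c * Z * (4 * (H : ℝ) ^ 2) ^ m + 96 * c *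
      (Ce * Y ^ τ * ((H : ℝ) ^ (2 * m) * (1 / Real.sqrt H + Real.sqrt Y / (H : ℝ) ^ m))) := by
    have h1 : (T.card : ℝ) ≤ ∑ q ∈ Icc 2 X, ((Tq q).card : ℝ) := by
      have := (card_le_card hcover).trans card_biUnion_le
      exact_mod_cast this
    have h2 := herr H hH 1 le_rfl X
    rw [Nat.cast_one, Real.one_rpow, Real.sqrt_one, div_one, mul_one, div_one] at h2
    have h3 : ∑ q ∈ Icc 2 X, (q : ℝ) * w ε q ≤ Z :=
      (w_summable ε hε).sum_le_tsum _ fun q _ => mul_nonneg (Nat.cast_nonneg _) (w_pos ε q).le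
    calc (T.card : ℝ) * (H : ℝ) ^ m ≤ (∑ q ∈ Icc 2 X, ((Tq q).card : ℝ)) * (H : ℝ) ^ m :=
          mul_le_mul_of_nonneg_right h1 (by positivity)
      _ = ∑ q ∈ Icc 2 X, ((Tq q).card : ℝ) * (H : ℝ) ^ m := by rw [Finset.sum_mul]
      _ ≤ _ := sum_le_sum hq1
      _ = 48 * c * (∑ q ∈ Icc 2 X, (q : ℝ) * w ε q) * (4 * (H : ℝ) ^ 2) ^ m + 96 * c *
            ∑ q ∈ Icc 2 X, (((q : ℝ) * w ε q) *
            ∑ v ∈ Ico 1 ⌊1 / (6 * (c * br 1 q * (q * w ε q)))⌋₊,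
              ∏ i, G H ((v : ℝ) * ((qr 1 q : ℝ) * ω i))) := by
          rw [sum_add_distrib, Finset.mul_sum, Finset.mul_sum, Finset.sum_mul]
      _ ≤ _ := by
          refine add_le_add ?_ (mul_le_mul_of_nonneg_left h2 (by positivity))
          refine mul_le_mul_of_nonneg_right ?_ (by positivity)
          exact mul_le_mul_of_nonneg_left h3 (by positivity)
  -- the error
  have hYτ : Y ^ τ ≤ Cy ^ τ * (H : ℝ) ^ (κ * (2 + τ) * τ) := by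
    calc Y ^ τ ≤ (Cy * (H : ℝ) ^ (κ * (2 + τ))) ^ τ := Real.rpow_le_rpow hY0.le hYle hτ0.le
      _ = _ := by rw [Real.mul_rpow hCy.le (by positivity), ← Real.rpow_mul hH0.le]
  have hYτ2 : Y ^ τ * Real.sqrt Y ≤ Cy ^ (τ + 1 / 2) * (H : ℝ) ^ (κ * (2 + τ) * (τ + 1 / 2)) := by
    rw [Real.sqrt_eq_rpow, ← Real.rpow_add hY0]
    calc Y ^ (τ + 1 / 2) ≤ (Cy * (H : ℝ) ^ (κ * (2 + τ))) ^ (τ + 1 / 2) :=
          Real.rpow_le_rpow hY0.le hYle (by linarith)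
      _ = _ := by rw [Real.mul_rpow hCy.le (by positivity), ← Real.rpow_mul hH0.le]
  have hHm : (0 : ℝ) < (H : ℝ) ^ m := by positivity
  have herr1 : 96 * c * (Ce * Y ^ τ * ((H : ℝ) ^ (2 * m) * (1 / Real.sqrt H))) ≤
      η / 4 * (H : ℝ) ^ (2 * m) := by
    have h1 : (H : ℝ) ^ (κ * (2 + τ) * τ) * (H : ℝ) ^ β1 = Real.sqrt H := by
      rw [← Real.rpow_add hH0, Real.sqrt_eq_rpow]
      congr 1
      rw [hβ1]; ring
    have hs : 0 < Real.sqrt H := Real.sqrt_pos.2 hH0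
    calc 96 * c * (Ce * Y ^ τ * ((H : ℝ) ^ (2 * m) * (1 / Real.sqrt H)))
        ≤ 96 * c * (Ce * (Cy ^ τ * (H : ℝ) ^ (κ * (2 + τ) * τ)) *
            ((H : ℝ) ^ (2 * m) * (1 / Real.sqrt H))) := by gcongr
      _ = (96 * c * Ce * Cy ^ τ) * ((H : ℝ) ^ (κ * (2 + τ) * τ) / Real.sqrt H) *
            (H : ℝ) ^ (2 * m) := by ring
      _ ≤ (η / 4 * (H : ℝ) ^ β1) * ((H : ℝ) ^ (κ * (2 + τ) * τ) / Real.sqrt H) *
            (H : ℝ) ^ (2 * m) := by gcongr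
      _ = η / 4 * (((H : ℝ) ^ (κ * (2 + τ) * τ) * (H : ℝ) ^ β1) / Real.sqrt H) *
            (H : ℝ) ^ (2 * m) := by ring
      _ = _ := by rw [h1, div_self hs.ne', mul_one]
  have herr2 : 96 * c * (Ce * Y ^ τ * ((H : ℝ) ^ (2 * m) * (Real.sqrt Y / (H : ℝ) ^ m))) ≤
      η / 4 * (H : ℝ) ^ (2 * m) := by
    have h1 : (H : ℝ) ^ (κ * (2 + τ) * (τ + 1 / 2)) * (H : ℝ) ^ β2 = (H : ℝ) ^ m := by
      rw [← Real.rpow_add hH0, ← Real.rpow_natCast]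
      congr 1
      rw [hβ2]; ring
    calc 96 * c * (Ce * Y ^ τ * ((H : ℝ) ^ (2 * m) * (Real.sqrt Y / (H : ℝ) ^ m)))
        = 96 * c * Ce * (Y ^ τ * Real.sqrt Y) / (H : ℝ) ^ m * (H : ℝ) ^ (2 * m) := by ring
      _ ≤ 96 * c * Ce * (Cy ^ (τ + 1 / 2) * (H : ℝ) ^ (κ * (2 + τ) * (τ + 1 / 2))) /
            (H : ℝ) ^ m * (H : ℝ) ^ (2 * m) := by gcongr
      _ = (96 * c * Ce * Cy ^ (τ + 1 / 2)) * ((H : ℝ) ^ (κ * (2 + τ) * (τ + 1 / 2)) /
            (H : ℝ) ^ m) * (H : ℝ) ^ (2 * m) := by ring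
      _ ≤ (η / 4 * (H : ℝ) ^ β2) * ((H : ℝ) ^ (κ * (2 + τ) * (τ + 1 / 2)) /
            (H : ℝ) ^ m) * (H : ℝ) ^ (2 * m) := by gcongr
      _ = η / 4 * (((H : ℝ) ^ (κ * (2 + τ) * (τ + 1 / 2)) * (H : ℝ) ^ β2) / (H : ℝ) ^ m) *
            (H : ℝ) ^ (2 * m) := by ring
      _ = _ := by rw [h1, div_self hHm.ne', mul_one]
  have hmain : 48 * c * Z * (4 * (H : ℝ) ^ 2) ^ m ≤ η / 2 * (H : ℝ) ^ (2 * m) := by
    rw [mul_pow, ← pow_mul, ← mul_assoc]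
    exact mul_le_mul_of_nonneg_right hc2 (by positivity)
  have hfin : (T.card : ℝ) * (H : ℝ) ^ m ≤ (η * (H : ℝ) ^ m) * (H : ℝ) ^ m := by
    have h1 : (η * (H : ℝ) ^ m) * (H : ℝ) ^ m = η * (H : ℝ) ^ (2 * m) := by
      rw [mul_assoc, ← pow_add]
      congr 2
      ring
    rw [h1]
    refine hsum.trans ?_
    have h2 : 96 * c * (Ce * Y ^ τ * ((H : ℝ) ^ (2 * m) * (1 / Real.sqrt H + Real.sqrt Y /
        (H : ℝ) ^ m))) = 96 * c * (Ce * Y ^ τ * ((H : ℝ) ^ (2 * m) * (1 / Real.sqrt H))) +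
        96 * c * (Ce * Y ^ τ * ((H : ℝ) ^ (2 * m) * (Real.sqrt Y / (H : ℝ) ^ m))) := by ring
    rw [h2]
    linarith
  exact le_of_mul_le_mul_right hfin hHm

end Pool.Agent.H160L
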