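import Mathlib
import Pool.Agent.H160L.MainA

/-!
# Counting with a denominator
-/

set_option autoImplicit false

namespace Pool.Agent.H160L

open Finset Filter
open Pool.Agent.Results.MP_c307ca_nt.AlmostAllToHeight (w w_pos w_anti w_summable)

/-- a residue class -/
theorem residue (H b' : ℕ) (hb : 1 ≤ b') (S : Finset ℤ) (hS : ∀ s ∈ S, |s| ≤ (H : ℤ))
    (hcong : ∀ s ∈ S, ∀ t ∈ S, (b' : ℤ) ∣ s - t) : (S.card : ℝ) ≤ 2 * H / b' + 2 := by
  have hb0 : (0 : ℤ) < b' := by exact_mod_cast hb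
  have hb0r : (0 : ℝ) < b' := by exact_mod_cast hb
  have hinj : Set.InjOn (fun s : ℤ => s / (b' : ℤ)) (S : Set ℤ) := by
    intro s hs t ht hst
    simp only at hst
    have h1 := hcong s hs t ht
    have h2 : s % (b' : ℤ) = t % (b' : ℤ) :=
      Int.emod_eq_emod_iff_emod_sub_eq_zero.2 (Int.emod_eq_zero_of_dvd h1)
    rw [← Int.mul_ediv_add_emod s b', ← Int.mul_ediv_add_emod t b', hst, h2]
  have hmap : ∀ s ∈ S, s / (b' : ℤ) ∈ Icc ((-(H : ℤ)) / b') ((H : ℤ) / b') := by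
    intro s hs
    have h1 := abs_le.1 (hS s hs)
    rw [mem_Icc]
    exact ⟨Int.ediv_le_ediv hb0 h1.1, Int.ediv_le_ediv hb0 h1.2⟩
  have hcard := card_le_card_of_injOn _ hmap hinj
  rw [Int.card_Icc] at hcard
  have h1 : (((H : ℤ) / (b' : ℤ) : ℤ) : ℝ) ≤ (H : ℝ) / b' := by
    rw [le_div_iff₀ hb0r]
    have := Int.ediv_mul_le (H : ℤ) hb0.ne'
    exact_mod_cast this
  have h2 : -((H : ℝ) / b') - 1 ≤ (((-(H : ℤ)) / (b' : ℤ) : ℤ) : ℝ) := by
    have h3 := Int.lt_ediv_add_one_mul_self (-(H : ℤ)) hb0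
    have h4 : (-(H : ℝ)) < ((((-(H : ℤ)) / (b' : ℤ) : ℤ) : ℝ) + 1) * b' := by exact_mod_cast h3
    have h5 : -((H : ℝ) / b') < (((-(H : ℤ)) / (b' : ℤ) : ℤ) : ℝ) + 1 := by
      rw [← neg_div, div_lt_iff₀ hb0r]
      exact h4
    linarith
  have h3 : (S.card : ℝ) ≤ (((((H : ℤ) / (b' : ℤ) + 1 - (-(H : ℤ)) / (b' : ℤ))).toNat : ℕ) : ℝ) := by
    exact_mod_cast hcard
  refine h3.trans ?_
  have h4 : 0 ≤ (H : ℤ) / (b' : ℤ) + 1 - (-(H : ℤ)) / (b' : ℤ) := by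
    have : (-(H : ℤ)) / (b' : ℤ) ≤ (H : ℤ) / (b' : ℤ) := Int.ediv_le_ediv hb0 (by omega)
    omega
  have h5 : (((((H : ℤ) / (b' : ℤ) + 1 - (-(H : ℤ)) / (b' : ℤ))).toNat : ℕ) : ℝ) =
      (((H : ℤ) / (b' : ℤ) + 1 - (-(H : ℤ)) / (b' : ℤ) : ℤ) : ℝ) := by
    exact_mod_cast Int.toNat_of_nonneg h4
  rw [h5]
  push_cast
  have h6 : 2 * (H : ℝ) / b' = (H : ℝ) / b' + (H : ℝ) / b' := by ring
  rw [h6]
  push_cast at h1 h2
  linarith

/-- the number of the rational parts -/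
theorem count_a0 (H b' q' : ℕ) (hb : 1 ≤ b') (hcop : Nat.Coprime q' b') (x D : ℝ) (hD : 0 ≤ D)
    (S : Finset ℤ) (hS : ∀ s ∈ S, |s| ≤ (H : ℤ) ∧
      ∃ p : ℤ, |((q' : ℝ) * s - p * b') + x| ≤ D) :
    (S.card : ℝ) ≤ (2 * D + 1) * (2 * H / b' + 2) := by
  classical
  have hch : ∀ s : ℤ, ∃ p : ℤ, s ∈ S → |((q' : ℝ) * s - p * b') + x| ≤ D := by
    intro s
    by_cases hs : s ∈ S
    · obtain ⟨p, hp⟩ := (hS s hs).2
      exact ⟨p, fun _ => hp⟩
    · exact ⟨0, fun h => absurd h hs⟩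
  choose p hp using hch
  set j : ℤ → ℤ := fun s => q' * s - p s * b' with hj
  set J : Finset ℤ := Icc ⌈-x - D⌉ ⌊-x + D⌋ with hJ
  have hmap : ∀ s ∈ S, j s ∈ J := by
    intro s hs
    have h1 := abs_le.1 (hp s hs)
    rw [hJ, mem_Icc, Int.ceil_le, Int.le_floor, hj]
    push_cast
    constructor <;> linarith [h1.1, h1.2]
  have hJcard : (J.card : ℝ) ≤ 2 * D + 1 := by
    rw [hJ, Int.card_Icc]
    have h1 : ((⌊-x + D⌋ : ℤ) : ℝ) ≤ -x + D := Int.floor_le _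
    have h2 : -x - D ≤ ((⌈-x - D⌉ : ℤ) : ℝ) := Int.le_ceil _
    rcases le_total 0 (⌊-x + D⌋ + 1 - ⌈-x - D⌉) with h | h
    · have h3 : (((⌊-x + D⌋ + 1 - ⌈-x - D⌉).toNat : ℕ) : ℝ) =
          ((⌊-x + D⌋ + 1 - ⌈-x - D⌉ : ℤ) : ℝ) := by
        exact_mod_cast Int.toNat_of_nonneg h
      rw [h3]
      push_cast
      linarith
    · rw [Int.toNat_of_nonpos h]
      push_cast
      linarith
  have hfib : ∀ t ∈ J, (((S.filter (fun s => j s = t)).card : ℕ) : ℝ) ≤ 2 * H / b' + 2 := by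
    intro t _
    refine residue H b' hb _ (fun s hs => (hS s (mem_filter.1 hs).1).1) ?_
    intro s hs s' hs'
    have h1 := (mem_filter.1 hs).2
    have h2 := (mem_filter.1 hs').2
    have h3 : (q' : ℤ) * (s - s') = (p s - p s') * b' := by
      have h4 : j s = j s' := h1.trans h2.symm
      simp only [hj] at h4
      linarith
    have h4 : (b' : ℤ) ∣ (q' : ℤ) * (s - s') := ⟨p s - p s', by rw [h3]; ring⟩
    have h5 : IsCoprime (b' : ℤ) (q' : ℤ) := by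
      rw [Nat.isCoprime_iff_coprime]
      exact hcop.symm
    exact h5.dvd_of_dvd_mul_left h4
  have hb0 : (0 : ℝ) < b' := by exact_mod_cast hb
  have h1 : (S.card : ℝ) = ∑ t ∈ J, (((S.filter (fun s => j s = t)).card : ℕ) : ℝ) := by
    rw [card_eq_sum_card_fiberwise hmap]
    push_cast
    rfl
  rw [h1]
  calc ∑ t ∈ J, (((S.filter (fun s => j s = t)).card : ℕ) : ℝ)
      ≤ ∑ t ∈ J, (2 * (H : ℝ) / b' + 2) := sum_le_sum hfib
    _ = J.card * (2 * (H : ℝ) / b' + 2) := by rw [sum_const, nsmul_eq_mul]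
    _ ≤ _ := mul_le_mul_of_nonneg_right hJcard (by positivity)

theorem qr_br_coprime (b q : ℕ) (hb : 1 ≤ b) : Nat.Coprime (qr b q) (br b q) := by
  unfold qr br
  exact Nat.coprime_div_gcd_div_gcd (Nat.gcd_pos_of_pos_right q hb)

/-- The count for a denominator and a denominator. -/
theorem count_B (m H : ℕ) (ω : Fin m → ℝ) (c ε : ℝ) (hc : 0 < c) (b q : ℕ) (hb : 1 ≤ b)
    (hbH : b ≤ H) (hq : 2 ≤ q) (T : Finset (ℤ × (Fin m → ℤ)))
    (hT : ∀ z ∈ T, |z.1| ≤ (H : ℤ) ∧ (∀ i, |z.2 i| ≤ (H : ℤ)) ∧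
      ∃ p : ℤ, |((z.1 : ℝ) + ∑ i, (z.2 i : ℝ) * ω i) / b - (p : ℝ) / q| ≤ c * w ε q) :
    (T.card : ℝ) * (H : ℝ) ^ m ≤ 384 * c * H * ((q : ℝ) * w ε q) * ((4 * (H : ℝ) ^ 2) ^ m +
      2 * ∑ v ∈ Ico 1 ⌊1 / (6 * (c * br b q * (q * w ε q)))⌋₊,
        ∏ i, G H ((v : ℝ) * ((qr b q : ℝ) * ω i))) := by
  classical
  have hw := w_pos ε q
  have hq0 : (0 : ℝ) < q := by
    have : 0 < q := by omega
    exact_mod_cast this
  have hb0 : (0 : ℝ) < b := by exact_mod_cast hb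
  have hbr := br_pos b q hb
  have hqr := qr_pos b q (by omega)
  have hbr0 : (0 : ℝ) < br b q := by exact_mod_cast hbr
  have hqr0 : (0 : ℝ) < qr b q := by exact_mod_cast hqr
  have hH : 1 ≤ H := hb.trans hbH
  have hH1 : (1 : ℝ) ≤ H := by exact_mod_cast hH
  have hH0 : (0 : ℝ) < H := by linarith
  have hbrH : (br b q : ℝ) ≤ H := by
    have : br b q ≤ b := Nat.div_le_self _ _
    exact_mod_cast this.trans hbH
  set D : ℝ := c * br b q * (q * w ε q) with hD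
  have hD0 : 0 < D := by positivity
  have hcr := cross b q
  set R : ℝ := (4 * (H : ℝ) ^ 2) ^ m + 2 * ∑ v ∈ Ico 1 ⌊1 / (6 * D)⌋₊,
    ∏ i, G H ((v : ℝ) * ((qr b q : ℝ) * ω i)) with hR
  have hR0 : (4 * (H : ℝ) ^ 2) ^ m ≤ R := by
    have : 0 ≤ ∑ v ∈ Ico 1 ⌊1 / (6 * D)⌋₊, ∏ i, G H ((v : ℝ) * ((qr b q : ℝ) * ω i)) :=
      sum_nonneg fun v _ => prod_nonneg fun i _ => G_nonneg H _
    rw [hR]
    linarith
  -- the basic inequality
  have hbasic : ∀ z ∈ T, ∃ p : ℤ, |((qr b q : ℝ) * z.1 - p * br b q) +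
      ∑ i, (z.2 i : ℝ) * ((qr b q : ℝ) * ω i)| ≤ D := by
    intro z hz
    obtain ⟨p, hp⟩ := (hT z hz).2.2
    refine ⟨p, ?_⟩
    have h1 : ((qr b q : ℝ) * z.1 - p * br b q) + ∑ i, (z.2 i : ℝ) * ((qr b q : ℝ) * ω i) =
        (qr b q : ℝ) * b * (((z.1 : ℝ) + ∑ i, (z.2 i : ℝ) * ω i) / b - (p : ℝ) / q) := by
      have h2 : ∑ i, (z.2 i : ℝ) * ((qr b q : ℝ) * ω i) =
          (qr b q : ℝ) * ∑ i, (z.2 i : ℝ) * ω i := by
        rw [Finset.mul_sum]
        exact sum_congr rfl fun i _ => by ring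
      have h3 : (qr b q : ℝ) * b * ((p : ℝ) / q) = p * br b q := by
        rw [hcr]
        field_simp
      have h4 : (qr b q : ℝ) * b * (((z.1 : ℝ) + ∑ i, (z.2 i : ℝ) * ω i) / b) =
          (qr b q : ℝ) * ((z.1 : ℝ) + ∑ i, (z.2 i : ℝ) * ω i) := by
        field_simp
      rw [h2, mul_sub, h3, h4]
      ring
    rw [h1, abs_mul, abs_of_nonneg (by positivity : (0 : ℝ) ≤ (qr b q : ℝ) * b)]
    calc (qr b q : ℝ) * b * |((z.1 : ℝ) + ∑ i, (z.2 i : ℝ) * ω i) / b - (p : ℝ) / q|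
        ≤ (qr b q : ℝ) * b * (c * w ε q) := mul_le_mul_of_nonneg_left hp (by positivity)
      _ = D := by rw [hcr, hD]; ring
  set A : Finset (Fin m → ℤ) := T.image Prod.snd with hA
  have hfib : ∀ a ∈ A, (((T.filter (fun z => z.2 = a)).card : ℕ) : ℝ) ≤
      (2 * D + 1) * (2 * H / br b q + 2) := by
    intro a _
    have hinj : Set.InjOn (Prod.fst : ℤ × (Fin m → ℤ) → ℤ)
        ((T.filter (fun z => z.2 = a) : Finset _) : Set (ℤ × (Fin m → ℤ))) := by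
      intro z hz z' hz' h
      have h1 := (mem_filter.1 (mem_coe.1 hz)).2
      have h2 := (mem_filter.1 (mem_coe.1 hz')).2
      exact Prod.ext h (h1.trans h2.symm)
    rw [← card_image_of_injOn hinj]
    refine count_a0 H (br b q) (qr b q) hbr (qr_br_coprime b q hb)
      (∑ i, (a i : ℝ) * ((qr b q : ℝ) * ω i)) D hD0.le _ ?_
    intro s hs
    obtain ⟨z, hz, rfl⟩ := mem_image.1 hs
    obtain ⟨hz1, hz2⟩ := mem_filter.1 hz
    refine ⟨(hT z hz1).1, ?_⟩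
    rw [← hz2]
    exact hbasic z hz1
  have hTcard : (T.card : ℝ) ≤ A.card * ((2 * D + 1) * (4 * H / br b q)) := by
    have h1 : (T.card : ℝ) = ∑ a ∈ A, (((T.filter (fun z => z.2 = a)).card : ℕ) : ℝ) := by
      rw [card_eq_sum_card_fiberwise (f := Prod.snd) (t := A)
        (fun z hz => mem_image_of_mem _ hz)]
      push_cast
      rfl
    have h2 : 2 * (H : ℝ) / br b q + 2 ≤ 4 * H / br b q := by
      have h3 : (1 : ℝ) ≤ H / br b q := by rwa [le_div_iff₀ hbr0, one_mul]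
      have h4 : 4 * (H : ℝ) / br b q = 2 * (H : ℝ) / br b q + 2 * (H / br b q) := by ring
      rw [h4]
      linarith
    rw [h1]
    calc ∑ a ∈ A, (((T.filter (fun z => z.2 = a)).card : ℕ) : ℝ)
        ≤ ∑ a ∈ A, ((2 * D + 1) * (2 * (H : ℝ) / br b q + 2)) := sum_le_sum hfib
      _ = A.card * ((2 * D + 1) * (2 * (H : ℝ) / br b q + 2)) := by rw [sum_const, nsmul_eq_mul]
      _ ≤ _ := by gcongr
  have hAbox : ∀ a ∈ A, ∀ i, |a i| ≤ (H : ℤ) := by
    intro a ha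
    obtain ⟨z, hz, rfl⟩ := mem_image.1 ha
    exact (hT z hz).2.1
  by_cases hcase : 12 * D ≤ 1
  · have hAcard := count_D m H (fun i => (qr b q : ℝ) * ω i) D hD0 hcase A (fun a ha => by
      refine ⟨hAbox a ha, ?_⟩
      obtain ⟨z, hz, rfl⟩ := mem_image.1 ha
      obtain ⟨p, hp⟩ := hbasic z hz
      refine ⟨p * br b q - qr b q * z.1, ?_⟩
      push_cast
      rw [show ∑ i, (z.2 i : ℝ) * ((qr b q : ℝ) * ω i) -
        ((p : ℝ) * br b q - qr b q * z.1) = ((qr b q : ℝ) * z.1 - p * br b q) +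
        ∑ i, (z.2 i : ℝ) * ((qr b q : ℝ) * ω i) by ring]
      exact hp)
    calc (T.card : ℝ) * (H : ℝ) ^ m
        ≤ A.card * ((2 * D + 1) * (4 * H / br b q)) * (H : ℝ) ^ m :=
          mul_le_mul_of_nonneg_right hTcard (by positivity)
      _ = (A.card * (H : ℝ) ^ m) * ((2 * D + 1) * (4 * H / br b q)) := by ring
      _ ≤ (48 * D * R) * ((2 * D + 1) * (4 * H / br b q)) :=
          mul_le_mul_of_nonneg_right hAcard (by positivity)
      _ ≤ (48 * D * R) * (2 * (4 * H / br b q)) := by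
          have hR1 : 0 ≤ R := le_trans (by positivity) hR0
          have : 2 * D + 1 ≤ 2 := by linarith
          gcongr
      _ = 384 * c * H * ((q : ℝ) * w ε q) * R := by
          rw [hD]
          field_simp
          ring
  · push Not at hcase
    have hAcard : (A.card : ℝ) ≤ (3 * (H : ℝ)) ^ m := by
      have h1 : A ⊆ Fintype.piFinset (fun _ : Fin m => Icc (-(H : ℤ)) (H : ℤ)) := by
        intro a ha
        rw [Fintype.mem_piFinset]
        intro i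
        have := abs_le.1 (hAbox a ha i)
        exact mem_Icc.2 this
      have h2 := card_le_card h1
      rw [Fintype.card_piFinset_const, Int.card_Icc] at h2
      have h3 : ((H : ℤ) + 1 - -(H : ℤ)).toNat = 2 * H + 1 := by omega
      rw [h3] at h2
      have h4 : (A.card : ℝ) ≤ (2 * (H : ℝ) + 1) ^ m := by exact_mod_cast h2
      refine h4.trans (pow_le_pow_left₀ (by positivity) (by linarith) m)
    have h34 : (3 : ℝ) ^ m ≤ 4 ^ m := pow_le_pow_left₀ (by norm_num) (by norm_num) m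
    calc (T.card : ℝ) * (H : ℝ) ^ m
        ≤ A.card * ((2 * D + 1) * (4 * H / br b q)) * (H : ℝ) ^ m :=
          mul_le_mul_of_nonneg_right hTcard (by positivity)
      _ ≤ (3 * (H : ℝ)) ^ m * ((14 * D) * (4 * H / br b q)) * (H : ℝ) ^ m := by
          have : 2 * D + 1 ≤ 14 * D := by linarith
          gcongr
      _ = 56 * c * H * ((q : ℝ) * w ε q) * (3 ^ m * ((H : ℝ) ^ m * (H : ℝ) ^ m)) := by
          rw [hD, mul_pow]
          field_simp
          ring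
      _ ≤ 384 * c * H * ((q : ℝ) * w ε q) * (4 ^ m * ((H : ℝ) ^ m * (H : ℝ) ^ m)) := by
          gcongr
          norm_num
      _ = 384 * c * H * ((q : ℝ) * w ε q) * (4 * (H : ℝ) ^ 2) ^ m := by
          rw [mul_pow]
          congr 2
          rw [← mul_pow, sq]
      _ ≤ 384 * c * H * ((q : ℝ) * w ε q) * R := by gcongr

end Pool.Agent.H160L
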