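import Mathlib
import Pool.Agent.H160L.CntB

/-!
# Lang's inequality for almost all elements of a number field
-/

set_option autoImplicit false

namespace Pool.Agent.H160L

open Finset Filter
open Pool.Agent.Results.MP_c307ca_nt.AlmostAllToHeight (w w_pos w_anti w_summable)

theorem sum_inv_sqrt (H : ℕ) (hH : 1 ≤ H) :
    ∑ b ∈ Icc 1 H, 1 / Real.sqrt b ≤ 3 * Real.sqrt H := by
  have hH1 : (1 : ℝ) ≤ H := by exact_mod_cast hH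
  have h1 := spaced 1 1 one_pos one_pos (Icc 1 H)
    (fun n hn => by exact_mod_cast (mem_Icc.1 hn).1)
    (fun n _ n' _ h => by
      have : ((n + 1 : ℕ) : ℝ) ≤ n' := by exact_mod_cast h
      push_cast at this
      linarith)
    H (fun n hn => by exact_mod_cast (mem_Icc.1 hn).2)
  rw [Real.sqrt_one, div_one, div_one] at h1
  have h2 : 1 ≤ Real.sqrt H := by
    rw [← Real.sqrt_one]
    exact Real.sqrt_le_sqrt hH1
  linarith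

theorem sum_inv (H : ℕ) (hH : 1 ≤ H) (τ : ℝ) (hτ : 0 < τ) :
    ∑ b ∈ Icc 1 H, 1 / (b : ℝ) ≤ (1 + 1 / τ) * (H : ℝ) ^ τ := by
  have hH1 : (1 : ℝ) ≤ H := by exact_mod_cast hH
  have h1 := harmonic_le_one_add_log H
  rw [harmonic_eq_sum_Icc] at h1
  push_cast at h1
  have h2 : Real.log H ≤ (H : ℝ) ^ τ / τ := Real.log_le_rpow_div (by positivity) hτ
  have h3 : 1 ≤ (H : ℝ) ^ τ := Real.one_le_rpow hH1 hτ.le
  simp only [one_div]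
  calc ∑ b ∈ Icc 1 H, ((b : ℝ))⁻¹ ≤ 1 + Real.log H := h1
    _ ≤ (H : ℝ) ^ τ + (H : ℝ) ^ τ / τ := add_le_add h3 h2
    _ = _ := by rw [add_mul, one_mul]; ring

/-- The count for the large heights. -/
theorem large_B (m : ℕ) (hm : 1 ≤ m) (ω : Fin m → ℝ) (c0 : ℝ) (hc0 : 0 < c0)
    (hbad : ∀ (n : ℕ) (p : Fin m → ℤ) (ρ : ℝ), 1 ≤ n → 0 ≤ ρ → ρ ≤ 1 →
      (∀ i, |(n : ℝ) * ω i - p i| ≤ ρ) → c0 ≤ n * ρ ^ m)
    (κ ε η : ℝ) (hκ0 : 0 ≤ κ) (hκ : κ < m + 1) (hε : 0 < ε) (hη : 0 < η) :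
    ∃ c : ℝ, 0 < c ∧ ∀ᶠ H : ℕ in atTop, ∀ T : Finset (ℤ × (Fin m → ℤ) × ℕ),
      (∀ z ∈ T, |z.1| ≤ (H : ℤ) ∧ (∀ i, |z.2.1 i| ≤ (H : ℤ)) ∧ 1 ≤ z.2.2 ∧ z.2.2 ≤ H ∧
        ∃ (p : ℤ) (q : ℕ), 2 ≤ q ∧ (q : ℝ) ≤ (H : ℝ) ^ κ ∧
        |((z.1 : ℝ) + ∑ i, (z.2.1 i : ℝ) * ω i) / z.2.2 - (p : ℝ) / q| ≤ c * w ε q) →
      (T.card : ℝ) ≤ η * (H : ℝ) ^ (m + 2) := by
  classical
  set Z : ℝ := ∑' q : ℕ, (q : ℝ) * w ε q with hZ
  have hZ0 : 0 ≤ Z := tsum_nonneg fun q => mul_nonneg (Nat.cast_nonneg _) (w_pos ε q).le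
  set c : ℝ := η / (768 * 4 ^ m * (Z + 1)) with hc
  have hcpos : 0 < c := by positivity
  have hc2 : 384 * c * Z * 4 ^ m ≤ η / 2 := by
    have h1 : c * (768 * 4 ^ m * (Z + 1)) = η := by
      rw [hc]
      field_simp
    have h4 : (0 : ℝ) < 4 ^ m := by positivity
    have h5 : 0 ≤ c * 4 ^ m := by positivity
    nlinarith
  -- the exponent
  obtain ⟨τ, hτ0, hτ1, hτ2⟩ : ∃ τ : ℝ, 0 < τ ∧ τ + κ * (2 + τ) * τ < 1 ∧
      2 * τ + κ * (2 + τ) * (τ + 1 / 2) < m + 1 := by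
    have hcont1 : ContinuousAt (fun τ : ℝ => τ + κ * (2 + τ) * τ) 0 := by fun_prop
    have hcont2 : ContinuousAt (fun τ : ℝ => 2 * τ + κ * (2 + τ) * (τ + 1 / 2)) 0 := by fun_prop
    have e1 : ∀ᶠ τ : ℝ in nhds 0, τ + κ * (2 + τ) * τ < 1 :=
      hcont1.eventually_lt_const (by norm_num)
    have e2 : ∀ᶠ τ : ℝ in nhds 0, 2 * τ + κ * (2 + τ) * (τ + 1 / 2) < m + 1 := by
      refine hcont2.eventually_lt_const ?_
      simp only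
      linarith
    have e3 : ∀ᶠ τ : ℝ in nhdsWithin 0 (Set.Ioi 0), (0 < τ ∧ τ + κ * (2 + τ) * τ < 1 ∧
      2 * τ + κ * (2 + τ) * (τ + 1 / 2) < m + 1) := by
      filter_upwards [self_mem_nhdsWithin, nhdsWithin_le_nhds e1, nhdsWithin_le_nhds e2] with τ h1 h2 h3
      exact ⟨h1, h2, h3⟩
    exact e3.exists
  obtain ⟨Ce, hCe, herr⟩ := err m hm ω c0 hc0 hbad ε τ c hε hτ0 hcpos
  obtain ⟨Cy, hCy, hYb⟩ := Y_bound ε τ c hε hτ0 hcpos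
  set β1 : ℝ := 1 - (τ + κ * (2 + τ) * τ) with hβ1
  set β2 : ℝ := m + 1 - (2 * τ + κ * (2 + τ) * (τ + 1 / 2)) with hβ2
  have hE1 := eventually_pow (2304 * c * Ce * Cy ^ τ) (η / 4) β1 (by positivity) (by linarith)
  have hE2 := eventually_pow (768 * c * Ce * (1 + 1 / τ) * Cy ^ (τ + 1 / 2)) (η / 4) β2
    (by positivity) (by linarith)
  refine ⟨c, hcpos, ?_⟩
  filter_upwards [hE1, hE2, eventually_ge_atTop 1] with H hH1 hH2 hH T hT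
  have hHr : (1 : ℝ) ≤ H := by exact_mod_cast hH
  have hH0 : (0 : ℝ) < H := by linarith
  set X := ⌊(H : ℝ) ^ κ⌋₊ with hX
  have hXle : (X : ℝ) ≤ (H : ℝ) ^ κ := Nat.floor_le (by positivity)
  have hX1 : 1 ≤ X := by
    rw [hX, Nat.one_le_floor_iff]
    exact Real.one_le_rpow hHr hκ0
  set Y : ℝ := 1 / (6 * c * w ε X) with hY
  have hwX := w_pos ε X
  have hY0 : 0 < Y := by positivity
  have hYle : Y ≤ Cy * (H : ℝ) ^ (κ * (2 + τ)) := by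
    refine (hYb X hX1).trans (mul_le_mul_of_nonneg_left ?_ hCy.le)
    rw [Real.rpow_mul hH0.le]
    exact Real.rpow_le_rpow (Nat.cast_nonneg _) hXle (by linarith)
  -- splitting
  set Tq : ℕ → ℕ → Finset (ℤ × (Fin m → ℤ) × ℕ) := fun b q => T.filter (fun z => z.2.2 = b ∧
    ∃ p : ℤ, |((z.1 : ℝ) + ∑ i, (z.2.1 i : ℝ) * ω i) / z.2.2 - (p : ℝ) / q| ≤ c * w ε q) with hTq
  have hcover : T ⊆ (Icc 1 H).biUnion (fun b => (Icc 2 X).biUnion (Tq b)) := by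
    intro z hz
    obtain ⟨_, _, h1, h2, p, q, hq, hqX, hpq⟩ := hT z hz
    rw [mem_biUnion]
    refine ⟨z.2.2, mem_Icc.2 ⟨h1, h2⟩, ?_⟩
    rw [mem_biUnion]
    exact ⟨q, mem_Icc.2 ⟨hq, Nat.le_floor hqX⟩, mem_filter.2 ⟨hz, rfl, p, hpq⟩⟩
  have hq1 : ∀ b ∈ Icc 1 H, ∀ q ∈ Icc 2 X, ((Tq b q).card : ℝ) * (H : ℝ) ^ m ≤
      384 * c * H * ((q : ℝ) * w ε q) * ((4 * (H : ℝ) ^ 2) ^ m +
      2 * ∑ v ∈ Ico 1 ⌊1 / (6 * (c * br b q * (q * w ε q)))⌋₊,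
        ∏ i, G H ((v : ℝ) * ((qr b q : ℝ) * ω i))) := by
    intro b hb q hq
    have hb' := mem_Icc.1 hb
    have hinj : Set.InjOn (fun z : ℤ × (Fin m → ℤ) × ℕ => (z.1, z.2.1))
        ((Tq b q : Finset _) : Set (ℤ × (Fin m → ℤ) × ℕ)) := by
      intro z hz z' hz' h
      have h1 := (mem_filter.1 (mem_coe.1 hz)).2.1
      have h2 := (mem_filter.1 (mem_coe.1 hz')).2.1
      simp only [Prod.mk.injEq] at h
      exact Prod.ext h.1 (Prod.ext h.2 (h1.trans h2.symm))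
    rw [← card_image_of_injOn hinj]
    refine count_B m H ω c ε hcpos b q hb'.1 hb'.2 (mem_Icc.1 hq).1 _ ?_
    intro y hy
    obtain ⟨z, hz, rfl⟩ := mem_image.1 hy
    obtain ⟨h1, h2, h3⟩ := mem_filter.1 hz
    obtain ⟨h4, h5, _⟩ := hT z h1
    refine ⟨h4, h5, ?_⟩
    rw [← h2]
    exact h3
  have hqsum : ∑ q ∈ Icc 2 X, (q : ℝ) * w ε q ≤ Z :=
    (w_summable ε hε).sum_le_tsum _ fun q _ => mul_nonneg (Nat.cast_nonneg _) (w_pos ε q).le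
  have hb1 : ∀ b ∈ Icc 1 H, ∑ q ∈ Icc 2 X, ((Tq b q).card : ℝ) * (H : ℝ) ^ m ≤
      384 * c * H * (Z * (4 * (H : ℝ) ^ 2) ^ m) + 768 * c * Ce * H * Y ^ τ * (H : ℝ) ^ (2 * m) *
        (H : ℝ) ^ τ * (1 / Real.sqrt b * (1 / Real.sqrt H) +
          Real.sqrt Y / (H : ℝ) ^ m * (1 / b)) := by
    intro b hb
    have hb' := mem_Icc.1 hb
    have hbr : (1 : ℝ) ≤ b := by exact_mod_cast hb'.1
    have hb0 : (0 : ℝ) < b := by linarith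
    have hbH : (b : ℝ) ≤ H := by exact_mod_cast hb'.2
    have h2 := herr H hH b hb'.1 X
    have hbs : 0 < Real.sqrt b := Real.sqrt_pos.2 hb0
    have hbτ : (b : ℝ) ^ τ ≤ (H : ℝ) ^ τ := Real.rpow_le_rpow hb0.le hbH hτ0.le
    have hYs : Real.sqrt (Y / b) = Real.sqrt Y / Real.sqrt b := Real.sqrt_div hY0.le _
    calc ∑ q ∈ Icc 2 X, ((Tq b q).card : ℝ) * (H : ℝ) ^ m
        ≤ ∑ q ∈ Icc 2 X, 384 * c * H * ((q : ℝ) * w ε q) * ((4 * (H : ℝ) ^ 2) ^ m +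
            2 * ∑ v ∈ Ico 1 ⌊1 / (6 * (c * br b q * (q * w ε q)))⌋₊,
              ∏ i, G H ((v : ℝ) * ((qr b q : ℝ) * ω i))) := sum_le_sum (hq1 b hb)
      _ = 384 * c * H * ((∑ q ∈ Icc 2 X, (q : ℝ) * w ε q) * (4 * (H : ℝ) ^ 2) ^ m) +
            768 * c * H * ∑ q ∈ Icc 2 X, (((q : ℝ) * w ε q) *
              ∑ v ∈ Ico 1 ⌊1 / (6 * (c * br b q * (q * w ε q)))⌋₊,
                ∏ i, G H ((v : ℝ) * ((qr b q : ℝ) * ω i))) := by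
          rw [Finset.sum_mul, Finset.mul_sum, Finset.mul_sum, ← sum_add_distrib]
          refine sum_congr rfl fun q _ => ?_
          ring
      _ ≤ 384 * c * H * (Z * (4 * (H : ℝ) ^ 2) ^ m) +
            768 * c * H * (Ce * ((b : ℝ) ^ τ / Real.sqrt b) * Y ^ τ *
            ((H : ℝ) ^ (2 * m) * (1 / Real.sqrt H + Real.sqrt (Y / b) / (H : ℝ) ^ m))) := by
          refine add_le_add ?_ (mul_le_mul_of_nonneg_left h2 (by positivity))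
          refine mul_le_mul_of_nonneg_left ?_ (by positivity)
          exact mul_le_mul_of_nonneg_right hqsum (by positivity)
      _ ≤ 384 * c * H * (Z * (4 * (H : ℝ) ^ 2) ^ m) +
            768 * c * H * (Ce * ((H : ℝ) ^ τ / Real.sqrt b) * Y ^ τ *
            ((H : ℝ) ^ (2 * m) * (1 / Real.sqrt H + Real.sqrt (Y / b) / (H : ℝ) ^ m))) := by
          gcongr
      _ = _ := by
          rw [hYs]
          have h3 : Real.sqrt b * Real.sqrt b = b := Real.mul_self_sqrt hb0.le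
          have h4 : Real.sqrt Y / (H : ℝ) ^ m * (1 / (b : ℝ)) =
              1 / Real.sqrt b * (Real.sqrt Y / Real.sqrt b / (H : ℝ) ^ m) := by
            have h5 : (1 : ℝ) / b = 1 / Real.sqrt b * (1 / Real.sqrt b) := by
              rw [one_div_mul_one_div, h3]
            rw [h5]
            ring
          rw [h4]
          ring
  have hsum : (T.card : ℝ) * (H : ℝ) ^ m ≤ 384 * c * H * (H * (Z * (4 * (H : ℝ) ^ 2) ^ m)) +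
      768 * c * Ce * H * Y ^ τ * (H : ℝ) ^ (2 * m) * (H : ℝ) ^ τ *
        (3 + Real.sqrt Y / (H : ℝ) ^ m * ((1 + 1 / τ) * (H : ℝ) ^ τ)) := by
    have h1 : (T.card : ℝ) ≤ ∑ b ∈ Icc 1 H, ∑ q ∈ Icc 2 X, ((Tq b q).card : ℝ) := by
      have h2 := (card_le_card hcover).trans card_biUnion_le
      have h3 : ∑ b ∈ Icc 1 H, ((Icc 2 X).biUnion (Tq b)).card ≤
          ∑ b ∈ Icc 1 H, ∑ q ∈ Icc 2 X, (Tq b q).card :=
        sum_le_sum fun b _ => card_biUnion_le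
      exact_mod_cast h2.trans h3
    have hs1 := sum_inv_sqrt H hH
    have hs2 := sum_inv H hH τ hτ0
    have hsH : 0 < Real.sqrt H := Real.sqrt_pos.2 hH0
    calc (T.card : ℝ) * (H : ℝ) ^ m
        ≤ (∑ b ∈ Icc 1 H, ∑ q ∈ Icc 2 X, ((Tq b q).card : ℝ)) * (H : ℝ) ^ m :=
          mul_le_mul_of_nonneg_right h1 (by positivity)
      _ = ∑ b ∈ Icc 1 H, ∑ q ∈ Icc 2 X, ((Tq b q).card : ℝ) * (H : ℝ) ^ m := by
          rw [Finset.sum_mul]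
          exact sum_congr rfl fun b _ => by rw [Finset.sum_mul]
      _ ≤ ∑ b ∈ Icc 1 H, (384 * c * H * (Z * (4 * (H : ℝ) ^ 2) ^ m) +
            768 * c * Ce * H * Y ^ τ * (H : ℝ) ^ (2 * m) *
            (H : ℝ) ^ τ * (1 / Real.sqrt b * (1 / Real.sqrt H) +
              Real.sqrt Y / (H : ℝ) ^ m * (1 / b))) := sum_le_sum hb1
      _ = 384 * c * H * (H * (Z * (4 * (H : ℝ) ^ 2) ^ m)) +
            768 * c * Ce * H * Y ^ τ * (H : ℝ) ^ (2 * m) * (H : ℝ) ^ τ *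
            ((∑ b ∈ Icc 1 H, 1 / Real.sqrt b) * (1 / Real.sqrt H) +
              Real.sqrt Y / (H : ℝ) ^ m * ∑ b ∈ Icc 1 H, 1 / (b : ℝ)) := by
          rw [sum_add_distrib, sum_const, Nat.card_Icc, nsmul_eq_mul, ← Finset.mul_sum,
            sum_add_distrib, ← Finset.sum_mul, ← Finset.mul_sum]
          simp only [Nat.add_sub_cancel]
          ring
      _ ≤ 384 * c * H * (H * (Z * (4 * (H : ℝ) ^ 2) ^ m)) +
            768 * c * Ce * H * Y ^ τ * (H : ℝ) ^ (2 * m) * (H : ℝ) ^ τ *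
            ((3 * Real.sqrt H) * (1 / Real.sqrt H) +
              Real.sqrt Y / (H : ℝ) ^ m * ((1 + 1 / τ) * (H : ℝ) ^ τ)) := by
          gcongr
      _ = _ := by
          rw [mul_one_div, mul_div_assoc, div_self hsH.ne', mul_one]
  -- the error
  have hYτ : Y ^ τ ≤ Cy ^ τ * (H : ℝ) ^ (κ * (2 + τ) * τ) := by
    calc Y ^ τ ≤ (Cy * (H : ℝ) ^ (κ * (2 + τ))) ^ τ := Real.rpow_le_rpow hY0.le hYle hτ0.le
      _ = _ := by rw [Real.mul_rpow hCy.le (by positivity), ← Real.rpow_mul hH0.le]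
  have hYτ2 : Y ^ τ * Real.sqrt Y ≤ Cy ^ (τ + 1 / 2) * (H : ℝ) ^ (κ * (2 + τ) * (τ + 1 / 2)) := by
    rw [Real.sqrt_eq_rpow, ← Real.rpow_add hY0]
    calc Y ^ (τ + 1 / 2) ≤ (Cy * (H : ℝ) ^ (κ * (2 + τ))) ^ (τ + 1 / 2) :=
          Real.rpow_le_rpow hY0.le hYle (by linarith)
      _ = _ := by rw [Real.mul_rpow hCy.le (by positivity), ← Real.rpow_mul hH0.le]
  have hHm : (0 : ℝ) < (H : ℝ) ^ m := by positivity
  have herr1 : 768 * c * Ce * H * Y ^ τ * (H : ℝ) ^ (2 * m) * (H : ℝ) ^ τ * 3 ≤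
      η / 4 * (H : ℝ) ^ (2 * m + 2) := by
    have h1 : (H : ℝ) * ((H : ℝ) ^ τ * (H : ℝ) ^ (κ * (2 + τ) * τ) * (H : ℝ) ^ β1) =
        (H : ℝ) ^ 2 := by
      rw [← Real.rpow_add hH0, ← Real.rpow_add hH0]
      have : τ + κ * (2 + τ) * τ + β1 = 1 := by rw [hβ1]; ring
      rw [this, Real.rpow_one, sq]
    calc 768 * c * Ce * H * Y ^ τ * (H : ℝ) ^ (2 * m) * (H : ℝ) ^ τ * 3
        ≤ 768 * c * Ce * H * (Cy ^ τ * (H : ℝ) ^ (κ * (2 + τ) * τ)) * (H : ℝ) ^ (2 * m) *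
            (H : ℝ) ^ τ * 3 := by gcongr
      _ = (2304 * c * Ce * Cy ^ τ) * (H * ((H : ℝ) ^ τ * (H : ℝ) ^ (κ * (2 + τ) * τ))) *
            (H : ℝ) ^ (2 * m) := by ring
      _ ≤ (η / 4 * (H : ℝ) ^ β1) * (H * ((H : ℝ) ^ τ * (H : ℝ) ^ (κ * (2 + τ) * τ))) *
            (H : ℝ) ^ (2 * m) := by gcongr
      _ = η / 4 * ((H : ℝ) * ((H : ℝ) ^ τ * (H : ℝ) ^ (κ * (2 + τ) * τ) * (H : ℝ) ^ β1)) *
            (H : ℝ) ^ (2 * m) := by ring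
      _ = _ := by rw [h1]; ring
  have herr2 : 768 * c * Ce * H * Y ^ τ * (H : ℝ) ^ (2 * m) * (H : ℝ) ^ τ *
      (Real.sqrt Y / (H : ℝ) ^ m * ((1 + 1 / τ) * (H : ℝ) ^ τ)) ≤
      η / 4 * (H : ℝ) ^ (2 * m + 2) := by
    have h1 : (H : ℝ) * ((H : ℝ) ^ τ * (H : ℝ) ^ τ * (H : ℝ) ^ (κ * (2 + τ) * (τ + 1 / 2)) *
        (H : ℝ) ^ β2) = (H : ℝ) ^ 2 * (H : ℝ) ^ m := by
      rw [← Real.rpow_add hH0, ← Real.rpow_add hH0, ← Real.rpow_add hH0]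
      have : τ + τ + κ * (2 + τ) * (τ + 1 / 2) + β2 = m + 1 := by rw [hβ2]; ring
      rw [this, Real.rpow_add hH0, Real.rpow_one, Real.rpow_natCast]
      ring
    calc 768 * c * Ce * H * Y ^ τ * (H : ℝ) ^ (2 * m) * (H : ℝ) ^ τ *
          (Real.sqrt Y / (H : ℝ) ^ m * ((1 + 1 / τ) * (H : ℝ) ^ τ))
        = 768 * c * Ce * (1 + 1 / τ) * H * (Y ^ τ * Real.sqrt Y) * ((H : ℝ) ^ τ * (H : ℝ) ^ τ) /
            (H : ℝ) ^ m * (H : ℝ) ^ (2 * m) := by ring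
      _ ≤ 768 * c * Ce * (1 + 1 / τ) * H * (Cy ^ (τ + 1 / 2) *
            (H : ℝ) ^ (κ * (2 + τ) * (τ + 1 / 2))) * ((H : ℝ) ^ τ * (H : ℝ) ^ τ) /
            (H : ℝ) ^ m * (H : ℝ) ^ (2 * m) := by gcongr
      _ = (768 * c * Ce * (1 + 1 / τ) * Cy ^ (τ + 1 / 2)) * (H * ((H : ℝ) ^ τ * (H : ℝ) ^ τ *
            (H : ℝ) ^ (κ * (2 + τ) * (τ + 1 / 2)))) / (H : ℝ) ^ m * (H : ℝ) ^ (2 * m) := by ring
      _ ≤ (η / 4 * (H : ℝ) ^ β2) * (H * ((H : ℝ) ^ τ * (H : ℝ) ^ τ *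
            (H : ℝ) ^ (κ * (2 + τ) * (τ + 1 / 2)))) / (H : ℝ) ^ m * (H : ℝ) ^ (2 * m) := by gcongr
      _ = η / 4 * ((H : ℝ) * ((H : ℝ) ^ τ * (H : ℝ) ^ τ *
            (H : ℝ) ^ (κ * (2 + τ) * (τ + 1 / 2)) * (H : ℝ) ^ β2)) / (H : ℝ) ^ m *
            (H : ℝ) ^ (2 * m) := by ring
      _ = _ := by
          rw [h1]
          field_simp
          ring
  have hmain : 384 * c * H * (H * (Z * (4 * (H : ℝ) ^ 2) ^ m)) ≤ η / 2 * (H : ℝ) ^ (2 * m + 2) := by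
    have h1 : 384 * c * H * (H * (Z * (4 * (H : ℝ) ^ 2) ^ m)) =
        384 * c * Z * 4 ^ m * (H : ℝ) ^ (2 * m + 2) := by
      rw [mul_pow, ← pow_mul, pow_add]
      ring
    rw [h1]
    exact mul_le_mul_of_nonneg_right hc2 (by positivity)
  have hfin : (T.card : ℝ) * (H : ℝ) ^ m ≤ (η * (H : ℝ) ^ (m + 2)) * (H : ℝ) ^ m := by
    have h1 : (η * (H : ℝ) ^ (m + 2)) * (H : ℝ) ^ m = η * (H : ℝ) ^ (2 * m + 2) := by
      rw [mul_assoc, ← pow_add]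
      congr 2
      ring
    rw [h1]
    refine hsum.trans ?_
    rw [mul_add (768 * c * Ce * H * Y ^ τ * (H : ℝ) ^ (2 * m) * (H : ℝ) ^ τ)]
    linarith
  exact le_of_mul_le_mul_right hfin hHm

end Pool.Agent.H160L
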