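import Mathlib
import Pool.Agent.H160L.MainB
import Pool.Agent.H160L.Bad

/-!
# The small heights
-/

set_option autoImplicit false

namespace Pool.Agent.H160L

open Finset Filter
open Pool.Agent.Results.MP_c307ca_nt.AlmostAllToHeight (w w_pos w_anti w_summable w_eq)

theorem posbound {β : Type*} (s : Finset β) (g : β → ℝ) (hg : ∀ x ∈ s, 0 < g x) :
    ∃ c : ℝ, 0 < c ∧ ∀ x ∈ s, c < g x := by
  classical
  induction s using Finset.induction_on with
  | empty => exact ⟨1, one_pos, fun x hx => absurd hx (notMem_empty x)⟩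
  | insert a s ha ih =>
    obtain ⟨c, hc, h⟩ := ih fun x hx => hg x (mem_insert_of_mem hx)
    have hga := hg a (mem_insert_self _ _)
    refine ⟨min c (g a / 2), lt_min hc (by linarith), fun x hx => ?_⟩
    rcases mem_insert.1 hx with rfl | hx
    · exact (min_le_right _ _).trans_lt (by linarith)
    · exact (min_le_left _ _).trans_lt (h x hx)

/-- finitely many irrational numbers and finitely many denominators -/
theorem small {ι : Type*} (F : Finset ι) (α : ι → ℝ) (hα : ∀ i ∈ F, Irrational (α i)) (ε : ℝ)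
    (N : ℕ) : ∃ c : ℝ, 0 < c ∧ ∀ i ∈ F, ∀ (p : ℤ) (q : ℕ), 2 ≤ q → q ≤ N →
      c * w ε q < |α i - (p : ℝ) / q| := by
  classical
  have hpos : ∀ x ∈ F ×ˢ Icc 2 N,
      0 < |(x.2 : ℝ) * α x.1 - round ((x.2 : ℝ) * α x.1)| / (x.2 * w ε x.2) := by
    intro x hx
    rw [mem_product] at hx
    have hq := (mem_Icc.1 hx.2).1
    have hq0 : (0 : ℝ) < x.2 := by
      have : 0 < x.2 := by omega
      exact_mod_cast this
    have hw := w_pos ε x.2
    have h1 : Irrational ((x.2 : ℝ) * α x.1) := by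
      have := (hα x.1 hx.1).natCast_mul (m := x.2) (by omega)
      exact this
    have h2 : (x.2 : ℝ) * α x.1 - round ((x.2 : ℝ) * α x.1) ≠ 0 := by
      intro h
      exact h1.ne_int _ (sub_eq_zero.1 h)
    have h3 := abs_pos.2 h2
    positivity
  obtain ⟨c, hc, h⟩ := posbound (F ×ˢ Icc 2 N) _ hpos
  refine ⟨c, hc, fun i hi p q hq hqN => ?_⟩
  have hx : (i, q) ∈ F ×ˢ Icc 2 N := mem_product.2 ⟨hi, mem_Icc.2 ⟨hq, hqN⟩⟩
  have h1 := h (i, q) hx
  simp only at h1
  have hq0 : (0 : ℝ) < q := by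
    have : 0 < q := by omega
    exact_mod_cast this
  have hw := w_pos ε q
  rw [lt_div_iff₀ (by positivity)] at h1
  have h2 : |(q : ℝ) * α i - round ((q : ℝ) * α i)| ≤ |(q : ℝ) * α i - p| := round_le _ p
  have h3 : |(q : ℝ) * α i - p| = q * |α i - (p : ℝ) / q| := by
    rw [← abs_of_pos hq0, ← abs_mul, abs_of_pos hq0]
    congr 1
    field_simp
  rw [h3] at h2
  have h4 : q * (c * w ε q) < q * |α i - (p : ℝ) / q| := by
    calc (q : ℝ) * (c * w ε q) = c * (q * w ε q) := by ring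
      _ < _ := h1.trans_le h2
  exact lt_of_mul_lt_mul_left h4 hq0.le

/-- a linear combination is irrational -/
theorem irr (m : ℕ) (K : IntermediateField ℚ ℝ) (b : Module.Basis (Fin (m + 1)) ℚ K)
    (hb : b 0 = 1) (a : Fin (m + 1) → ℤ) (ha : ∃ i : Fin m, a i.succ ≠ 0) :
    Irrational (∑ i, (a i : ℝ) * (b i : ℝ)) := by
  rintro ⟨r, hr⟩
  obtain ⟨i, hi⟩ := ha
  have h1 : ∑ j, (Fin.cons ((a 0 : ℚ) - r) (fun j : Fin m => (a j.succ : ℚ)) :
      Fin (m + 1) → ℚ) j • b j = 0 := by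
    rw [Fin.sum_univ_succ]
    simp only [Fin.cons_zero, Fin.cons_succ]
    have h2 : ((((a 0 : ℚ) - r) • b 0 + ∑ j : Fin m, (a j.succ : ℚ) • b j.succ : K) : ℝ) = 0 := by
      rw [Fin.sum_univ_succ, hb] at hr
      rw [hb]
      push_cast
      simp only [Rat.smul_def]
      push_cast
      have h3 : ((1 : K) : ℝ) = 1 := rfl
      rw [h3] at hr
      linarith
    exact_mod_cast h2
  have h2 := (Fintype.linearIndependent_iff.1 b.linearIndependent) _ h1 i.succ
  simp only [Fin.cons_succ] at h2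
  exact hi (by exact_mod_cast h2)

theorem rpow_kappa_le (H H0 : ℕ) (hH : 1 ≤ H) (h : H ≤ H0) (κ : ℝ) :
    (H : ℝ) ^ κ ≤ (H0 : ℝ) ^ (max κ 0) := by
  have h1 : (1 : ℝ) ≤ H := by exact_mod_cast hH
  have h2 : (H : ℝ) ≤ H0 := by exact_mod_cast h
  calc (H : ℝ) ^ κ ≤ (H : ℝ) ^ (max κ 0) := Real.rpow_le_rpow_of_exponent_le h1 (le_max_left _ _)
    _ ≤ (H0 : ℝ) ^ (max κ 0) := Real.rpow_le_rpow (by linarith) h2 (le_max_right _ _)

end Pool.Agent.H160L
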