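import Mathlib
import Pool.Agent.Results.MP_c307ca_nt.AlmostAllToHeight

/-!
# Values of expanding functions at rational numbers and rational approximation: counting
-/

set_option autoImplicit false

namespace Pool.Agent.H160L

open Finset
open Pool.Agent.Results.MP_c307ca_nt.AlmostAllToHeight (w w_pos w_le w_anti w_summable w_eq)

/-- distinct rational numbers with denominators at most `H` have distance at least `1 / H²` -/
theorem rat_gap (H : ℕ) (r s : ℚ) (hr : r.den ≤ H) (hs : s.den ≤ H) (hne : r ≠ s) :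
    (1 : ℝ) ≤ |(r : ℝ) - s| * (H : ℝ) ^ 2 := by
  have hr0 : (0 : ℝ) < r.den := by exact_mod_cast r.pos
  have hs0 : (0 : ℝ) < s.den := by exact_mod_cast s.pos
  have hrH : (r.den : ℝ) ≤ H := by exact_mod_cast hr
  have hsH : (s.den : ℝ) ≤ H := by exact_mod_cast hs
  have hr1 : (r : ℝ) = r.num / r.den := by exact_mod_cast (Rat.num_div_den r).symm
  have hs1 : (s : ℝ) = s.num / s.den := by exact_mod_cast (Rat.num_div_den s).symm
  have h1 : ((r : ℝ) - s) * (r.den * s.den) = ((r.num * s.den - s.num * r.den : ℤ) : ℝ) := by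
    rw [hr1, hs1]
    push_cast
    field_simp
  have h2 : (r.num * s.den - s.num * r.den : ℤ) ≠ 0 := by
    intro h0
    rw [h0, Int.cast_zero] at h1
    have h3 : (r : ℝ) - s = 0 := by
      rcases mul_eq_zero.1 h1 with h | h
      · exact h
      · have : (0 : ℝ) < r.den * s.den := by positivity
        linarith
    apply hne
    exact_mod_cast sub_eq_zero.1 h3
  have h3 : (1 : ℝ) ≤ |((r.num * s.den - s.num * r.den : ℤ) : ℝ)| := by
    rw [← Int.cast_abs]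
    exact_mod_cast Int.one_le_abs h2
  rw [← h1, abs_mul, abs_of_pos (show (0 : ℝ) < r.den * s.den by positivity)] at h3
  refine h3.trans (mul_le_mul_of_nonneg_left ?_ (abs_nonneg _))
  rw [pow_two]
  exact mul_le_mul hrH hsH hs0.le (by linarith)

/-- few rational numbers with denominators at most `H` in a short interval -/
theorem rat_count (H : ℕ) (l : ℝ) (hl : 0 ≤ l) (S : Finset ℚ) (hS : ∀ r ∈ S, r.den ≤ H)
    (hd : ∀ r ∈ S, ∀ s ∈ S, |(r : ℝ) - s| ≤ l) : (S.card : ℝ) ≤ 2 * (l * (H : ℝ) ^ 2) + 2 := by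
  classical
  have hL : 0 ≤ l * (H : ℝ) ^ 2 := by positivity
  rcases S.eq_empty_or_nonempty with h0 | ⟨r₀, hr₀⟩
  · rw [h0, Finset.card_empty, Nat.cast_zero]
    linarith
  set L : ℝ := l * (H : ℝ) ^ 2 with hLdef
  set f : ℚ → ℤ := fun r => ⌊((r : ℝ) - r₀) * (H : ℝ) ^ 2⌋ with hf
  have hH0 : (0 : ℝ) ≤ (H : ℝ) ^ 2 := by positivity
  have hmap : ∀ r ∈ S, f r ∈ Icc (-(⌊L⌋ + 1)) ⌊L⌋ := by
    intro r hr
    have h1 := abs_le.1 (hd r hr r₀ hr₀)
    have h2 : ((r : ℝ) - r₀) * (H : ℝ) ^ 2 ≤ L := mul_le_mul_of_nonneg_right h1.2 hH0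
    have h3 : -L ≤ ((r : ℝ) - r₀) * (H : ℝ) ^ 2 := by
      have := mul_le_mul_of_nonneg_right h1.1 hH0
      rw [hLdef]
      linarith
    rw [mem_Icc]
    refine ⟨?_, Int.floor_le_floor h2⟩
    rw [hf]
    apply Int.le_floor.2
    push_cast
    have := Int.lt_floor_add_one L
    linarith
  have hinj : Set.InjOn f S := by
    intro r hr s hs h
    by_contra hne
    have h1 := Int.abs_sub_lt_one_of_floor_eq_floor h
    have h2 := rat_gap H r s (hS r hr) (hS s hs) hne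
    have h3 : ((r : ℝ) - r₀) * (H : ℝ) ^ 2 - ((s : ℝ) - r₀) * (H : ℝ) ^ 2 =
        ((r : ℝ) - s) * (H : ℝ) ^ 2 := by ring
    rw [h3, abs_mul, abs_of_nonneg hH0] at h1
    linarith
  have hcard := Finset.card_le_card_of_injOn f hmap hinj
  rw [Int.card_Icc] at hcard
  have hfl : (0 : ℤ) ≤ ⌊L⌋ := Int.floor_nonneg.2 hL
  have h1 : ((⌊L⌋ + 1 - -(⌊L⌋ + 1)).toNat : ℝ) = 2 * (⌊L⌋ : ℝ) + 2 := by
    have h2 : ((⌊L⌋ + 1 - -(⌊L⌋ + 1)).toNat : ℤ) = 2 * ⌊L⌋ + 2 := by
      rw [Int.toNat_of_nonneg (by omega)]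
      ring
    exact_mod_cast h2
  have h2 : (S.card : ℝ) ≤ ((⌊L⌋ + 1 - -(⌊L⌋ + 1)).toNat : ℝ) := by exact_mod_cast hcard
  rw [h1] at h2
  have h3 := Int.floor_le L
  linarith

/-- the main counting argument -/
theorem val_main (u v lam B ε η : ℝ) (hlam : 0 < lam) (hB : 0 ≤ B) (hε : 0 < ε) (hη : 0 < η) :
    ∃ c : ℝ, 0 < c ∧ ∀ φ : ℝ → ℝ, (∀ x ∈ Set.Icc u v, |φ x| ≤ B) →
      (∀ x ∈ Set.Icc u v, ∀ y ∈ Set.Icc u v, lam * |x - y| ≤ |φ x - φ y|) →
      ∀ H : ℕ, ∀ S : Finset ℚ, (∀ r ∈ S, (r : ℝ) ∈ Set.Icc u v ∧ r.den ≤ H ∧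
        ∃ (p : ℤ) (q : ℕ), 2 ≤ q ∧ (q : ℝ) ≤ c * H ∧ |φ r - (p : ℝ) / q| ≤ c * w ε q) →
      (S.card : ℝ) ≤ η * (H : ℝ) ^ 2 := by
  classical
  set T : ℝ := ∑' q : ℕ, (q : ℝ) * w ε q with hT
  have hT0 : 0 ≤ T := tsum_nonneg fun q => by
    have := w_pos ε q
    positivity
  set W : ℝ := 1 / Real.log 2 ^ (1 + ε) with hW
  have hlog2 : 0 < Real.log 2 := Real.log_pos (by norm_num)
  have hW0 : 0 < W := by positivity
  set D : ℝ := (2 * B + 3) * (4 * T / lam + 2) with hD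
  have hD0 : 0 < D := by positivity
  set c : ℝ := min (min 1 (1 / W)) (η / D) with hc
  have hc0 : 0 < c := lt_min (lt_min one_pos (by positivity)) (by positivity)
  have hc1 : c ≤ 1 := (min_le_left _ _).trans (min_le_left _ _)
  have hcW : c ≤ 1 / W := (min_le_left _ _).trans (min_le_right _ _)
  have hcD : c * D ≤ η := by
    have : c ≤ η / D := min_le_right _ _
    rwa [le_div_iff₀ hD0] at this
  refine ⟨c, hc0, fun φ hφB hφ H S hS => ?_⟩
  have hH0 : (0 : ℝ) ≤ (H : ℝ) ^ 2 := by positivity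
  set Q : ℕ := ⌊c * H⌋₊ with hQ
  have hQ1 : (Q : ℝ) ≤ c * H := Nat.floor_le (by positivity)
  set P : ℕ → ℤ := fun q => ⌊(B + 1) * q⌋ with hP
  set Spq : ℕ → ℤ → Finset ℚ := fun q p => S.filter (fun r => |φ r - (p : ℝ) / q| ≤ c * w ε q)
    with hSpq
  have hsub : S ⊆ (Icc 2 Q).biUnion (fun q => (Icc (-(P q)) (P q)).biUnion (Spq q)) := by
    intro r hr
    obtain ⟨hr1, hr2, p, q, hq2, hqc, hle⟩ := hS r hr
    rw [mem_biUnion]
    have hq0 : (0 : ℝ) < q := by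
      have : 0 < q := by omega
      exact_mod_cast this
    refine ⟨q, mem_Icc.2 ⟨hq2, Nat.le_floor hqc⟩, ?_⟩
    rw [mem_biUnion]
    have h1 : c * w ε q ≤ 1 := by
      calc c * w ε q ≤ (1 / W) * W := mul_le_mul hcW (w_le ε hε q) (w_pos ε q).le (by positivity)
        _ = 1 := by field_simp
    have h2 : |(p : ℝ) / q| ≤ B + 1 := by
      have h3 := hφB r hr1
      have h4 : (p : ℝ) / q = φ r - (φ r - (p : ℝ) / q) := by ring
      rw [h4]
      exact (abs_sub _ _).trans (by linarith)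
    rw [abs_div, abs_of_pos hq0, div_le_iff₀ hq0] at h2
    have h3 := abs_le.1 h2
    refine ⟨p, mem_Icc.2 ⟨?_, Int.le_floor.2 h3.2⟩, ?_⟩
    · have : -p ≤ P q := by
        apply Int.le_floor.2
        push_cast
        linarith [h3.1]
      omega
    · rw [hSpq]
      exact mem_filter.2 ⟨hr, hle⟩
  have hcount : ∀ q ∈ Icc 2 Q, ∀ p ∈ Icc (-(P q)) (P q),
      ((Spq q p).card : ℝ) ≤ 4 * c * w ε q / lam * (H : ℝ) ^ 2 + 2 := by
    intro q hq p hp
    have hw := w_pos ε q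
    have h1 := rat_count H (2 * c * w ε q / lam) (by positivity) (Spq q p)
      (fun r hr => (hS r (mem_filter.1 hr).1).2.1) (fun r hr s hs => by
        have hr1 := mem_filter.1 hr
        have hs1 := mem_filter.1 hs
        rw [le_div_iff₀ hlam]
        have h2 := hφ r (hS r hr1.1).1 s (hS s hs1.1).1
        have h3 : φ r - φ s = (φ r - (p : ℝ) / q) - (φ s - (p : ℝ) / q) := by ring
        have h4 := abs_sub (φ r - (p : ℝ) / q) (φ s - (p : ℝ) / q)
        rw [← h3] at h4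
        linarith [hr1.2, hs1.2])
    refine h1.trans (le_of_eq ?_)
    ring
  have hP0 : ∀ q ∈ Icc 2 Q, ((Icc (-(P q)) (P q)).card : ℝ) ≤ (2 * B + 3) * q := by
    intro q hq
    have hq2 := (mem_Icc.1 hq).1
    have hq1 : (1 : ℝ) ≤ q := by
      have : 1 ≤ q := by omega
      exact_mod_cast this
    have hPn : 0 ≤ P q := Int.floor_nonneg.2 (by positivity)
    rw [Int.card_Icc]
    have h1 : ((P q + 1 - -(P q)).toNat : ℤ) = 2 * P q + 1 := by
      rw [Int.toNat_of_nonneg (by omega)]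
      ring
    have h2 : ((P q + 1 - -(P q)).toNat : ℝ) = 2 * (P q : ℝ) + 1 := by
      exact_mod_cast h1
    rw [h2]
    have h3 : (P q : ℝ) ≤ (B + 1) * q := Int.floor_le _
    nlinarith
  have hsumq : ∑ q ∈ Icc 2 Q, (q : ℝ) * w ε q ≤ T :=
    (w_summable ε hε).sum_le_tsum _ (fun q _ => by
      have := w_pos ε q
      positivity)
  have hsumQ : ∑ q ∈ Icc 2 Q, (q : ℝ) ≤ (Q : ℝ) ^ 2 := by
    calc ∑ q ∈ Icc 2 Q, (q : ℝ) ≤ ∑ q ∈ Icc 2 Q, (Q : ℝ) := by
          apply sum_le_sum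
          intro q hq
          exact_mod_cast (mem_Icc.1 hq).2
      _ = ((Icc 2 Q).card : ℝ) * Q := by rw [sum_const, nsmul_eq_mul]
      _ ≤ (Q : ℝ) * Q := by
          apply mul_le_mul_of_nonneg_right _ (Nat.cast_nonneg _)
          rw [Nat.card_Icc]
          have : Q + 1 - 2 ≤ Q := by omega
          exact_mod_cast this
      _ = (Q : ℝ) ^ 2 := by ring
  have hQ2 : (Q : ℝ) ^ 2 ≤ c * (H : ℝ) ^ 2 := by
    calc (Q : ℝ) ^ 2 ≤ (c * H) ^ 2 := pow_le_pow_left₀ (Nat.cast_nonneg _) hQ1 2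
      _ = c * (c * (H : ℝ) ^ 2) := by ring
      _ ≤ c * (1 * (H : ℝ) ^ 2) := by
          apply mul_le_mul_of_nonneg_left _ hc0.le
          exact mul_le_mul_of_nonneg_right hc1 hH0
      _ = c * (H : ℝ) ^ 2 := by ring
  calc (S.card : ℝ)
      ≤ ((((Icc 2 Q).biUnion (fun q => (Icc (-(P q)) (P q)).biUnion (Spq q))).card : ℕ) : ℝ) := by
        exact_mod_cast Finset.card_le_card hsub
    _ ≤ ∑ q ∈ Icc 2 Q, (((Icc (-(P q)) (P q)).biUnion (Spq q)).card : ℝ) := by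
        exact_mod_cast Finset.card_biUnion_le
    _ ≤ ∑ q ∈ Icc 2 Q, ∑ p ∈ Icc (-(P q)) (P q), ((Spq q p).card : ℝ) := by
        apply sum_le_sum
        intro q _
        exact_mod_cast Finset.card_biUnion_le
    _ ≤ ∑ q ∈ Icc 2 Q, ∑ p ∈ Icc (-(P q)) (P q), (4 * c * w ε q / lam * (H : ℝ) ^ 2 + 2) :=
        sum_le_sum fun q hq => sum_le_sum fun p hp => hcount q hq p hp
    _ = ∑ q ∈ Icc 2 Q, ((Icc (-(P q)) (P q)).card : ℝ) *
          (4 * c * w ε q / lam * (H : ℝ) ^ 2 + 2) := by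
        apply sum_congr rfl
        intro q _
        rw [sum_const, nsmul_eq_mul]
    _ ≤ ∑ q ∈ Icc 2 Q, (2 * B + 3) * q * (4 * c * w ε q / lam * (H : ℝ) ^ 2 + 2) := by
        apply sum_le_sum
        intro q hq
        have hw := w_pos ε q
        exact mul_le_mul_of_nonneg_right (hP0 q hq) (by positivity)
    _ = (2 * B + 3) * (4 * c / lam * (H : ℝ) ^ 2 * ∑ q ∈ Icc 2 Q, (q : ℝ) * w ε q +
          2 * ∑ q ∈ Icc 2 Q, (q : ℝ)) := by
        rw [mul_add, mul_sum, mul_sum, mul_sum, mul_sum, ← sum_add_distrib]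
        apply sum_congr rfl
        intro q _
        ring
    _ ≤ (2 * B + 3) * (4 * c / lam * (H : ℝ) ^ 2 * T + 2 * (c * (H : ℝ) ^ 2)) := by
        apply mul_le_mul_of_nonneg_left _ (by linarith)
        apply add_le_add
        · exact mul_le_mul_of_nonneg_left hsumq (by positivity)
        · linarith [hsumQ.trans hQ2]
    _ = c * D * (H : ℝ) ^ 2 := by
        rw [hD]
        ring
    _ ≤ η * (H : ℝ) ^ 2 := mul_le_mul_of_nonneg_right hcD hH0

end Pool.Agent.H160L
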